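import Mathlib

set_option autoImplicit false

/-!
# Definitions: the torus, its smooth diffeomorphisms, Axiom A, topological conjugacy
-/

open Filter Topology Set
open scoped ContDiff

namespace Pool.MP_e91f84_lc

/-- The circle `ℝ/ℤ`. -/
abbrev T1 : Type := AddCircle (1 : ℝ)

/-- The torus `𝕋² = (ℝ/ℤ)²`, a compact surface. -/
abbrev T2 : Type := T1 × T1

/-- The covering map `ℝ² → 𝕋²`. -/
def proj (z : ℝ × ℝ) : T2 := ((z.1 : T1), (z.2 : T1))

/-- A self-map of the torus is `C^∞` if it lifts to a `C^∞` self-map of the plane. -/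
def IsSmooth (f : T2 → T2) : Prop :=
  ∃ F : ℝ × ℝ → ℝ × ℝ, ContDiff ℝ ∞ F ∧ ∀ z, f (proj z) = proj (F z)

/-- `Diff^∞(𝕋²)`: smooth bijections of the torus with smooth inverse. -/
structure DiffT2 where
  /-- the underlying bijection -/
  toEquiv : T2 ≃ T2
  smooth : IsSmooth toEquiv
  smooth_symm : IsSmooth toEquiv.symm

/-- A smooth lift of a diffeomorphism of the torus. -/
noncomputable def DiffT2.lift (f : DiffT2) : ℝ × ℝ → ℝ × ℝ := Classical.choose f.smooth

/-- The `k`-th derivative of (a lift of) `f`, as a function on the plane; for `k ≥ 1` it does not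
depend on the lift. -/
noncomputable def DiffT2.jet (f : DiffT2) (k : ℕ) :
    ℝ × ℝ → ContinuousMultilinearMap ℝ (fun _ : Fin k => ℝ × ℝ) (ℝ × ℝ) :=
  iteratedFDeriv ℝ k f.lift

/-- The `C^∞` topology on `Diff^∞(𝕋²)`: uniform convergence (on the torus) of the maps and uniform
convergence (on the plane) of all their derivatives of order at least one. -/
noncomputable instance DiffT2.smoothTopology : TopologicalSpace DiffT2 :=
  TopologicalSpace.induced
    (fun f : DiffT2 => (UniformFun.ofFun (f.toEquiv : T2 → T2),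
      fun k : ℕ => UniformFun.ofFun (f.jet (k + 1)))) inferInstance

/-- `Diff^∞(𝕋²)` with the Borel structure of the `C^∞` topology. -/
noncomputable instance : MeasurableSpace DiffT2 := borel DiffT2

/-- `A` is the derivative of `f` at the point `p` of the torus (the tangent spaces are identified
with `ℝ²` by translations): `f (p + v) = f p + F v` modulo `ℤ²`, with `F 0 = 0` and `F'(0) = A`. -/
def HasTDerivAt (f : T2 → T2) (A : ℝ × ℝ →L[ℝ] ℝ × ℝ) (p : T2) : Prop :=
  ∃ F : ℝ × ℝ → ℝ × ℝ, F 0 = 0 ∧ (∀ v, f (p + proj v) = f p + proj (F v)) ∧ HasFDerivAt F A 0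

open Classical in
/-- The derivative of `f` at `p` (zero if there is none). -/
noncomputable def tderiv (f : T2 → T2) (p : T2) : ℝ × ℝ →L[ℝ] ℝ × ℝ :=
  if h : ∃ A, HasTDerivAt f A p then Classical.choose h else 0

/-- The set `Λ` is a hyperbolic set of `f`. -/
def IsHyperbolic (f : DiffT2) (Λ : Set T2) : Prop :=
  ∃ (C lam : ℝ) (Es Eu : T2 → Submodule ℝ (ℝ × ℝ)), 0 < C ∧ 0 < lam ∧ lam < 1 ∧
    ∀ p ∈ Λ, IsCompl (Es p) (Eu p) ∧
      (Es p).map (tderiv f.toEquiv p).toLinearMap = Es (f.toEquiv p) ∧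
      (Eu p).map (tderiv f.toEquiv p).toLinearMap = Eu (f.toEquiv p) ∧
      ∀ n : ℕ, (∀ v ∈ Es p, ‖tderiv f.toEquiv^[n] p v‖ ≤ C * lam ^ n * ‖v‖) ∧
        (∀ v ∈ Eu p, ‖tderiv f.toEquiv.symm^[n] p v‖ ≤ C * lam ^ n * ‖v‖)

/-- The non-wandering set of `f`. -/
def nonwandering (f : DiffT2) : Set T2 :=
  {p | ∀ U : Set T2, IsOpen U → p ∈ U → ∃ n : ℕ, 0 < n ∧ (f.toEquiv^[n] '' U ∩ U).Nonempty}

/-- Axiom A: the non-wandering set is hyperbolic and the periodic points are dense in it. -/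
def AxiomA (f : DiffT2) : Prop :=
  IsHyperbolic f (nonwandering f) ∧
    nonwandering f ⊆ closure (nonwandering f ∩ Function.periodicPts f.toEquiv)

/-- Topological conjugacy. -/
def TopConj (f g : DiffT2) : Prop :=
  ∃ h : T2 ≃ₜ T2, ∀ p, h (f.toEquiv p) = g.toEquiv (h p)

end Pool.MP_e91f84_lc
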