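import Mathlib
import Pool.Agent.Work.MP_e91f84_lc.Defs

set_option autoImplicit false

open Filter Topology Set Real
open scoped ContDiff

namespace Pool.MP_e91f84_lc

/-- cosine on the circle -/
noncomputable def Cc (p : T1) : ℝ := (AddCircle.toCircle p : ℂ).re
/-- sine on the circle -/
noncomputable def Sc (p : T1) : ℝ := (AddCircle.toCircle p : ℂ).im

lemma Cc_coe (s : ℝ) : Cc (s : T1) = cos (2 * π * s) := by
  unfold Cc
  rw [AddCircle.toCircle_apply_mk, Circle.coe_exp, Complex.exp_ofReal_mul_I_re]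
  congr 1; ring

lemma Sc_coe (s : ℝ) : Sc (s : T1) = sin (2 * π * s) := by
  unfold Sc
  rw [AddCircle.toCircle_apply_mk, Circle.coe_exp, Complex.exp_ofReal_mul_I_im]
  congr 1; ring

lemma continuous_Cc : Continuous Cc := by
  unfold Cc
  exact Complex.continuous_re.comp (continuous_subtype_val.comp AddCircle.continuous_toCircle)

lemma continuous_Sc : Continuous Sc := by
  unfold Sc
  exact Complex.continuous_im.comp (continuous_subtype_val.comp AddCircle.continuous_toCircle)

lemma Cc_le (p : T1) : Cc p ≤ 1 := by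
  induction p using QuotientAddGroup.induction_on with
  | H s => exact (Cc_coe s).trans_le (cos_le_one _)

lemma neg_one_le_Cc (p : T1) : -1 ≤ Cc p := by
  induction p using QuotientAddGroup.induction_on with
  | H s => rw [show Cc (QuotientAddGroup.mk s) = cos (2 * π * s) from Cc_coe s]; exact neg_one_le_cos _

lemma Cc_sq_add (p : T1) : Cc p ^ 2 + Sc p ^ 2 = 1 := by
  induction p using QuotientAddGroup.induction_on with
  | H s =>
    rw [show Cc (QuotientAddGroup.mk s) = cos (2 * π * s) from Cc_coe s,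
      show Sc (QuotientAddGroup.mk s) = sin (2 * π * s) from Sc_coe s]
    exact cos_sq_add_sin_sq _

/-- denominator -/
lemma den_pos (t c : ℝ) (h1 : -1 ≤ c) (h2 : c ≤ 1) : 0 < (1 + c) + exp t * (1 - c) := by
  have := exp_pos t
  rcases eq_or_lt_of_le h1 with h | h
  · rw [← h]; nlinarith
  · have : 0 ≤ exp t * (1 - c) := mul_nonneg this.le (by linarith)
    linarith

/-- the lifted flow -/
noncomputable def r (t s : ℝ) : ℝ :=
  s + arctan ((exp t - 1) * sin (2 * π * s) /
    ((1 + cos (2 * π * s)) + exp t * (1 - cos (2 * π * s)))) / π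

lemma contDiff_r : ContDiff ℝ ∞ (fun z : ℝ × ℝ => r z.1 z.2) := by
  unfold r
  refine contDiff_snd.add (ContDiff.div_const ?_ _)
  refine Real.contDiff_arctan.comp (ContDiff.div ?_ ?_ ?_)
  · refine ContDiff.mul ((Real.contDiff_exp.comp contDiff_fst).sub contDiff_const) ?_
    exact Real.contDiff_sin.comp (contDiff_const.mul contDiff_snd)
  · refine ContDiff.add (contDiff_const.add ?_) (ContDiff.mul (Real.contDiff_exp.comp contDiff_fst)
      (contDiff_const.sub ?_))
    · exact Real.contDiff_cos.comp (contDiff_const.mul contDiff_snd)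
    · exact Real.contDiff_cos.comp (contDiff_const.mul contDiff_snd)
  · intro z
    exact (den_pos _ _ (neg_one_le_cos _) (cos_le_one _)).ne'

lemma r_add_one (t s : ℝ) : r t (s + 1) = r t s + 1 := by
  unfold r
  have h1 : 2 * π * (s + 1) = 2 * π * s + 2 * π := by ring
  rw [h1, sin_add_two_pi, cos_add_two_pi]; ring

lemma r_add_int (t s : ℝ) (n : ℤ) : r t (s + n) = r t s + n := by
  unfold r
  have h1 : 2 * π * (s + n) = 2 * π * s + n * (2 * π) := by ring
  rw [h1, sin_add_int_mul_two_pi, cos_add_int_mul_two_pi]; ring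

lemma r_neg (t s : ℝ) : r t (-s) = - r t s := by
  unfold r
  have h1 : 2 * π * (-s) = -(2 * π * s) := by ring
  rw [h1, sin_neg, cos_neg]
  have : (exp t - 1) * -sin (2 * π * s) / (1 + cos (2 * π * s) + exp t * (1 - cos (2 * π * s))) =
    -((exp t - 1) * sin (2 * π * s) / (1 + cos (2 * π * s) + exp t * (1 - cos (2 * π * s)))) := by ring
  rw [this, arctan_neg]; ring

lemma r_half (t : ℝ) : r t (1 / 2) = 1 / 2 := by
  unfold r
  have h1 : 2 * π * (1 / 2) = π := by ring
  rw [h1]; simp

lemma r_zero_right (t : ℝ) : r t 0 = 0 := by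
  unfold r; simp

lemma r_eq_arctan (t : ℝ) {s : ℝ} (h1 : -(1 / 2) < s) (h2 : s < 1 / 2) :
    r t s = arctan (exp t * tan (π * s)) / π := by
  have hpi := pi_pos
  have hA1 : -(π / 2) < π * s := by nlinarith
  have hA2 : π * s < π / 2 := by nlinarith
  have hcos : 0 < cos (π * s) := cos_pos_of_mem_Ioo ⟨hA1, hA2⟩
  set A := π * s with hA
  have hs : 2 * π * s = 2 * A := by rw [hA]; ring
  unfold r
  rw [hs, sin_two_mul, cos_two_mul]
  have key : arctan ((exp t - 1) * (2 * sin A * cos A) / (1 + (2 * cos A ^ 2 - 1) +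
      exp t * (1 - (2 * cos A ^ 2 - 1)))) = arctan (exp t * tan A) - A := by
    set B := arctan (exp t * tan A) with hB
    have hB1 : -(π / 2) < B := neg_pi_div_two_lt_arctan _
    have hB2 : B < π / 2 := arctan_lt_pi_div_two _
    have htB : tan B = exp t * tan A := tan_arctan _
    have hcosB : 0 < cos B := cos_pos_of_mem_Ioo ⟨hB1, hB2⟩
    -- B and A have the same sign
    have hexp := exp_pos t
    have hdiff : -(π / 2) < B - A ∧ B - A < π / 2 := by
      rcases lt_trichotomy A 0 with h | h | h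
      · have ht : tan A < 0 := tan_neg_of_neg_of_pi_div_two_lt h hA1
        have : B < 0 := by
          rw [hB]; exact arctan_lt_zero.2 (by nlinarith)
        constructor <;> linarith
      · have ht : tan A = 0 := by rw [h]; simp
        have : B = 0 := by rw [hB, ht]; simp
        constructor <;> linarith
      · have ht : 0 < tan A := tan_pos_of_pos_of_lt_pi_div_two h hA2
        have : 0 < B := by
          rw [hB]; exact arctan_pos.2 (by positivity)
        constructor <;> linarith
    have hne : cos (B - A) ≠ 0 := (cos_pos_of_mem_Ioo ⟨hdiff.1, hdiff.2⟩).ne'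
    have htan : tan (B - A) = (exp t - 1) * (2 * sin A * cos A) / (1 + (2 * cos A ^ 2 - 1) +
      exp t * (1 - (2 * cos A ^ 2 - 1))) := by
      rw [tan_eq_sin_div_cos, sin_sub, cos_sub]
      have hsB : sin B = exp t * tan A * cos B := by
        rw [← htB, tan_eq_sin_div_cos]; field_simp
      rw [hsB, tan_eq_sin_div_cos]
      have hden : 0 < cos A ^ 2 + exp t * sin A ^ 2 := by positivity
      have hsq : sin A ^ 2 = 1 - cos A ^ 2 := by linarith [sin_sq_add_cos_sq A]
      have hd2 : 1 + (2 * cos A ^ 2 - 1) + exp t * (1 - (2 * cos A ^ 2 - 1)) =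
        2 * (cos A ^ 2 + exp t * sin A ^ 2) := by rw [hsq]; ring
      rw [hd2]
      rw [div_eq_div_iff]
      · field_simp
      · have : cos B * cos A + exp t * (sin A / cos A) * cos B * sin A =
            cos B / cos A * (cos A ^ 2 + exp t * sin A ^ 2) := by field_simp
        rw [this]; positivity
      · positivity
    rw [← htan, arctan_tan (by linarith [hdiff.1]) hdiff.2]
  rw [key]
  have : s = A / π := by rw [hA]; field_simp
  rw [this]; field_simp; ring

/-- the chart `ℝ → T1`, `u ↦ s` with `u = tan (π s)` -/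
noncomputable def e (u : ℝ) : T1 := ((arctan u / π : ℝ) : T1)

/-- the point `1/2` of the circle -/
noncomputable def inf : T1 := ((1 / 2 : ℝ) : T1)

/-- the flow on the circle -/
noncomputable def R (t : ℝ) (p : T1) : T1 :=
  p + ((arctan ((exp t - 1) * Sc p / ((1 + Cc p) + exp t * (1 - Cc p))) / π : ℝ) : T1)

lemma R_coe (t s : ℝ) : R t (s : T1) = ((r t s : ℝ) : T1) := by
  unfold R r
  rw [Cc_coe, Sc_coe, AddCircle.coe_add]

lemma continuous_R : Continuous (fun z : ℝ × T1 => R z.1 z.2) := by
  unfold R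
  refine continuous_snd.add ?_
  refine (AddCircle.continuous_mk' (1 : ℝ)).comp ?_
  refine Continuous.div_const ?_ _
  refine Real.continuous_arctan.comp ?_
  refine Continuous.div ?_ ?_ ?_
  · exact ((Real.continuous_exp.comp continuous_fst).sub continuous_const).mul
      (continuous_Sc.comp continuous_snd)
  · exact (continuous_const.add (continuous_Cc.comp continuous_snd)).add
      ((Real.continuous_exp.comp continuous_fst).mul
        (continuous_const.sub (continuous_Cc.comp continuous_snd)))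
  · intro z; exact (den_pos _ _ (neg_one_le_Cc _) (Cc_le _)).ne'

lemma e_bounds (u : ℝ) : -(1 / 2) < arctan u / π ∧ arctan u / π < 1 / 2 := by
  have hpi := pi_pos
  have h1 := neg_pi_div_two_lt_arctan u
  have h2 := arctan_lt_pi_div_two u
  constructor
  · rw [lt_div_iff₀ hpi]; linarith
  · rw [div_lt_iff₀ hpi]; linarith

lemma R_e (t u : ℝ) : R t (e u) = e (exp t * u) := by
  unfold e
  rw [R_coe, r_eq_arctan t (e_bounds u).1 (e_bounds u).2]
  have : π * (arctan u / π) = arctan u := by field_simp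
  rw [this, tan_arctan]

lemma R_inf (t : ℝ) : R t inf = inf := by
  unfold inf; rw [R_coe, r_half]

lemma T1_cases (p : T1) : p = inf ∨ ∃ u : ℝ, p = e u := by
  obtain ⟨s, hs⟩ : ∃ s : ℝ, s ∈ Ioc (-(1 / 2) : ℝ) (-(1 / 2) + 1) ∧ (s : T1) = p := by
    have := AddCircle.coe_image_Ioc_eq (1 : ℝ) (-(1 / 2))
    have h2 : p ∈ ((↑) : ℝ → T1) '' Ioc (-(1 / 2) : ℝ) (-(1 / 2) + 1) := by rw [this]; trivial
    obtain ⟨s, h, h'⟩ := h2
    exact ⟨s, h, h'⟩
  obtain ⟨⟨h1, h2⟩, h3⟩ := hs
  rcases eq_or_lt_of_le h2 with h | h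
  · left
    rw [← h3, h]; unfold inf; norm_num
  · right
    refine ⟨tan (π * s), ?_⟩
    have hpi := pi_pos
    unfold e
    rw [arctan_tan (by nlinarith) (by nlinarith), ← h3]
    congr 1
    field_simp

lemma e_zero : e 0 = 0 := by unfold e; simp

lemma Cc_e (u : ℝ) : Cc (e u) = (1 - u ^ 2) / (1 + u ^ 2) := by
  unfold e
  rw [Cc_coe]
  have : 2 * π * (arctan u / π) = 2 * arctan u := by field_simp
  rw [this, cos_two_mul, cos_sq_arctan]
  have : (1 + u ^ 2) ≠ 0 := by positivity
  field_simp; ring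

lemma Sc_e (u : ℝ) : Sc (e u) = 2 * u / (1 + u ^ 2) := by
  unfold e
  rw [Sc_coe]
  have h : 2 * π * (arctan u / π) = 2 * arctan u := by field_simp
  have h3 : sin (arctan u) = u * cos (arctan u) := by
    have := tan_arctan u
    rw [tan_eq_sin_div_cos, div_eq_iff (cos_arctan_pos u).ne'] at this
    exact this
  rw [h, sin_two_mul, h3]
  have : 2 * (u * cos (arctan u)) * cos (arctan u) = 2 * u * cos (arctan u) ^ 2 := by ring
  rw [this, cos_sq_arctan]
  field_simp

lemma Cc_inf : Cc inf = -1 := by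
  unfold inf; rw [Cc_coe]
  have : 2 * π * (1 / 2) = π := by ring
  rw [this, cos_pi]

lemma Sc_inf : Sc inf = 0 := by
  unfold inf; rw [Sc_coe]
  have : 2 * π * (1 / 2) = π := by ring
  rw [this, sin_pi]

/-- the coordinate `u = tan (π s)` -/
noncomputable def uu (p : T1) : ℝ := Sc p / (1 + Cc p)

lemma uu_e (u : ℝ) : uu (e u) = u := by
  unfold uu
  rw [Sc_e, Cc_e]
  have : (1 + u ^ 2) ≠ 0 := by positivity
  field_simp; ring

lemma e_injective : Function.Injective e := by
  intro a b h
  rw [← uu_e a, h, uu_e]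

lemma e_inj {a b : ℝ} : e a = e b ↔ a = b := e_injective.eq_iff

lemma Cc_e_gt (u : ℝ) : -1 < Cc (e u) := by
  rw [Cc_e, lt_div_iff₀ (by positivity)]; nlinarith

lemma e_ne_inf (u : ℝ) : e u ≠ inf := by
  intro h
  have := Cc_e_gt u
  rw [h, Cc_inf] at this
  exact lt_irrefl _ this

lemma ne_inf_iff (p : T1) : p ≠ inf ↔ -1 < Cc p := by
  constructor
  · intro h
    rcases T1_cases p with h' | ⟨u, rfl⟩
    · exact absurd h' h
    · exact Cc_e_gt u
  · rintro h rfl
    rw [Cc_inf] at h
    exact lt_irrefl _ h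

lemma continuousAt_uu {p : T1} (hp : p ≠ inf) : ContinuousAt uu p := by
  unfold uu
  refine continuous_Sc.continuousAt.div (continuous_const.add continuous_Cc).continuousAt ?_
  have := (ne_inf_iff p).1 hp
  intro h; linarith

lemma e_uu {p : T1} (hp : p ≠ inf) : e (uu p) = p := by
  rcases T1_cases p with h' | ⟨u, rfl⟩
  · exact absurd h' hp
  · rw [uu_e]

lemma continuous_e : Continuous e := by
  unfold e
  exact (AddCircle.continuous_mk' (1 : ℝ)).comp (Real.continuous_arctan.div_const _)

lemma R_zero_left (p : T1) : R 0 p = p := by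
  unfold R; simp

lemma R_add (t t' : ℝ) (p : T1) : R t (R t' p) = R (t + t') p := by
  rcases T1_cases p with rfl | ⟨u, rfl⟩
  · rw [R_inf, R_inf, R_inf]
  · rw [R_e, R_e, R_e, exp_add]; congr 1; ring

lemma R_zero (t : ℝ) : R t 0 = 0 := by
  rw [← e_zero, R_e, mul_zero]

lemma R_neg_cancel (t : ℝ) (p : T1) : R (-t) (R t p) = p := by
  rw [R_add, neg_add_cancel, R_zero_left]

lemma R_cancel_neg (t : ℝ) (p : T1) : R t (R (-t) p) = p := by
  rw [R_add, add_neg_cancel, R_zero_left]

lemma inf_ne_zero : inf ≠ 0 := by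
  rw [← e_zero]; exact (e_ne_inf 0).symm

lemma norm_e (u : ℝ) : ‖e u‖ = |arctan u| / π := by
  unfold e
  rw [AddCircle.norm_eq]
  have h := e_bounds u
  have : round ((1 : ℝ)⁻¹ * (arctan u / π)) = 0 := by
    rw [inv_one, one_mul, round_eq_zero_iff]
    exact ⟨h.1.le, h.2⟩
  rw [this]
  simp [abs_div, abs_of_pos pi_pos]

lemma norm_inf : ‖inf‖ = 1 / 2 := by
  unfold inf
  have := AddCircle.norm_coe_eq_abs_iff (p := (1 : ℝ)) (x := 1 / 2) one_ne_zero
  rw [this.2 (by norm_num)]; norm_num

lemma tendsto_e_atTop : Tendsto e atTop (𝓝 inf) := by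
  have h : Tendsto (fun u : ℝ => arctan u / π) atTop (𝓝 (1 / 2)) := by
    have := (tendsto_arctan_atTop.mono_right nhdsWithin_le_nhds).div_const π
    have h2 : π / 2 / π = 1 / 2 := by field_simp
    rwa [h2] at this
  exact ((AddCircle.continuous_mk' (1 : ℝ)).tendsto _).comp h

end Pool.MP_e91f84_lc
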