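import Mathlib
import Pool.Agent.Work.MP_e91f84_lc.Flow

set_option autoImplicit false

open Filter Topology Set Real
open scoped ContDiff

namespace Pool.MP_e91f84_lc

/-- centre of the `n`-th lens, in the coordinate `w = cos (2 π s)` -/
noncomputable def mm (n : ℕ) : ℝ := -(1 / 2) + (1 / 4) * (1 / 2) ^ n
/-- radius of the `n`-th lens -/
noncomputable def rho (n : ℕ) : ℝ := (1 / 32) * (1 / 2) ^ n

lemma rho_pos (n : ℕ) : 0 < rho n := by unfold rho; positivity

/-- outer bump -/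
noncomputable def bet (n : ℕ) : ContDiffBump (mm n) where
  rIn := rho n / 2
  rOut := rho n
  rIn_pos := by have := rho_pos n; linarith
  rIn_lt_rOut := by have := rho_pos n; linarith

/-- inner bump -/
noncomputable def gam (n : ℕ) : ContDiffBump (mm n) where
  rIn := rho n / 4
  rOut := rho n / 2
  rIn_pos := by have := rho_pos n; linarith
  rIn_lt_rOut := by have := rho_pos n; linarith

/-- selector of the positive side -/
noncomputable def sel (c : ℝ) : ℝ := Real.smoothTransition (5 / 4 * c)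

/-- outer bump on the line -/
noncomputable def bl (n : ℕ) (s : ℝ) : ℝ := bet n (cos (2 * π * s)) * sel (sin (2 * π * s))
/-- inner bump on the line -/
noncomputable def gl (n : ℕ) (s : ℝ) : ℝ := gam n (cos (2 * π * s)) * sel (sin (2 * π * s))

lemma contDiff_sel_sin : ContDiff ℝ ∞ (fun s : ℝ => sel (sin (2 * π * s))) := by
  unfold sel
  exact Real.smoothTransition.contDiff.comp
    (contDiff_const.mul (Real.contDiff_sin.comp (contDiff_const.mul contDiff_id)))

lemma contDiff_bl (n : ℕ) : ContDiff ℝ ∞ (bl n) := by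
  unfold bl
  exact ((bet n).contDiff.comp (Real.contDiff_cos.comp (contDiff_const.mul contDiff_id))).mul
    contDiff_sel_sin

lemma contDiff_gl (n : ℕ) : ContDiff ℝ ∞ (gl n) := by
  unfold gl
  exact ((gam n).contDiff.comp (Real.contDiff_cos.comp (contDiff_const.mul contDiff_id))).mul
    contDiff_sel_sin

lemma bl_periodic (n : ℕ) : Function.Periodic (bl n) 1 := by
  intro s
  unfold bl
  have h1 : 2 * π * (s + 1) = 2 * π * s + 2 * π := by ring
  rw [h1, sin_add_two_pi, cos_add_two_pi]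

lemma gl_periodic (n : ℕ) : Function.Periodic (gl n) 1 := by
  intro s
  unfold gl
  have h1 : 2 * π * (s + 1) = 2 * π * s + 2 * π := by ring
  rw [h1, sin_add_two_pi, cos_add_two_pi]

/-- derivatives of periodic smooth functions are bounded -/
lemma bounded_deriv_of_periodic {f : ℝ → ℝ} (hf : ContDiff ℝ ∞ f) (hp : Function.Periodic f 1)
    (k : ℕ) : ∃ C : ℝ, 0 ≤ C ∧ ∀ s, ‖iteratedFDeriv ℝ k f s‖ ≤ C := by
  have hper : Function.Periodic (fun s => ‖iteratedFDeriv ℝ k f s‖) 1 := by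
    intro s
    have h1 : (fun t => f (t + 1)) = f := funext hp
    have h3 := iteratedFDeriv_comp_add_right (𝕜 := ℝ) (f := f) k (1 : ℝ) s
    simp only
    rw [← h3, h1]
  have hcont : Continuous (fun s => ‖iteratedFDeriv ℝ k f s‖) :=
    (hf.continuous_iteratedFDeriv (by exact_mod_cast le_top)).norm
  obtain ⟨C, hC⟩ := (isCompact_Icc (a := (0 : ℝ)) (b := 1)).bddAbove_image
    hcont.continuousOn
  refine ⟨C, (norm_nonneg _).trans (hC ⟨0, by simp, rfl⟩), fun s => ?_⟩
  obtain ⟨y, hy, hy2⟩ := hper.exists_mem_Ico₀ one_pos s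
  rw [hy2]
  exact hC ⟨y, ⟨hy.1, hy.2.le⟩, rfl⟩

lemma exists_B (n : ℕ) : ∃ B : ℝ, 0 < B ∧ B ≤ 1 / 64 * (1 / 2) ^ n ∧
    (∀ k ≤ n, ∀ s, B * ‖iteratedFDeriv ℝ k (bl n) s‖ ≤ (1 / 2) ^ n) ∧
    (∀ k ≤ n, ∀ s, B * ‖iteratedFDeriv ℝ k (gl n) s‖ ≤ (1 / 2) ^ n) := by
  choose Cb hCb0 hCb using fun k => bounded_deriv_of_periodic (contDiff_bl n) (bl_periodic n) k
  choose Cg hCg0 hCg using fun k => bounded_deriv_of_periodic (contDiff_gl n) (gl_periodic n) k
  set S : ℝ := ∑ k ∈ Finset.range (n + 1), (Cb k + Cg k) with hS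
  have hS0 : 0 ≤ S := Finset.sum_nonneg fun k _ => add_nonneg (hCb0 k) (hCg0 k)
  have hp : (0 : ℝ) < (1 / 2) ^ n := by positivity
  have hmem : ∀ k ≤ n, Cb k ≤ S ∧ Cg k ≤ S := by
    intro k hk
    have : Cb k + Cg k ≤ S :=
      Finset.single_le_sum (f := fun k => Cb k + Cg k)
        (fun k _ => add_nonneg (hCb0 k) (hCg0 k)) (Finset.mem_range.2 (by omega))
    exact ⟨by linarith [hCg0 k], by linarith [hCb0 k]⟩
  refine ⟨1 / 64 * (1 / 2) ^ n / (1 + S), by positivity, ?_, ?_, ?_⟩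
  · rw [div_le_iff₀ (by linarith)]
    nlinarith
  · intro k hk s
    have h1 := (hCb k s).trans (hmem k hk).1
    have h2 : 1 / 64 * (1 / 2 : ℝ) ^ n / (1 + S) * ‖iteratedFDeriv ℝ k (bl n) s‖ ≤
      1 / 64 * (1 / 2 : ℝ) ^ n / (1 + S) * S := mul_le_mul_of_nonneg_left h1 (by positivity)
    refine h2.trans ?_
    rw [div_mul_eq_mul_div, div_le_iff₀ (by linarith)]
    nlinarith
  · intro k hk s
    have h1 := (hCg k s).trans (hmem k hk).2
    have h2 : 1 / 64 * (1 / 2 : ℝ) ^ n / (1 + S) * ‖iteratedFDeriv ℝ k (gl n) s‖ ≤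
      1 / 64 * (1 / 2 : ℝ) ^ n / (1 + S) * S := mul_le_mul_of_nonneg_left h1 (by positivity)
    refine h2.trans ?_
    rw [div_mul_eq_mul_div, div_le_iff₀ (by linarith)]
    nlinarith

/-- admissible amplitude for the `n`-th lens -/
noncomputable def bex (n : ℕ) : ℝ := Classical.choose (exists_B n)

lemma bex_spec (n : ℕ) : 0 < bex n ∧ bex n ≤ 1 / 64 * (1 / 2) ^ n ∧
    (∀ k ≤ n, ∀ s, bex n * ‖iteratedFDeriv ℝ k (bl n) s‖ ≤ (1 / 2) ^ n) ∧
    (∀ k ≤ n, ∀ s, bex n * ‖iteratedFDeriv ℝ k (gl n) s‖ ≤ (1 / 2) ^ n) :=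
  Classical.choose_spec (exists_B n)

/-- big amplitude -/
noncomputable def Bs : ℕ → ℝ
  | 0 => bex 0
  | n + 1 => min (bex (n + 1)) ((1 / 2) ^ n * ((1 / 2) ^ n * Bs n / 8) / 8)

/-- small amplitude -/
noncomputable def As (n : ℕ) : ℝ := (1 / 2) ^ n * Bs n / 8

lemma Bs_pos (n : ℕ) : 0 < Bs n := by
  induction n with
  | zero => exact (bex_spec 0).1
  | succ n ih =>
    unfold Bs
    exact lt_min (bex_spec (n + 1)).1 (by positivity)

lemma Bs_le_bex (n : ℕ) : Bs n ≤ bex n := by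
  cases n with
  | zero => exact le_rfl
  | succ n => unfold Bs; exact min_le_left _ _

lemma Bs_le (n : ℕ) : Bs n ≤ 1 / 64 * (1 / 2) ^ n := (Bs_le_bex n).trans (bex_spec n).2.1

lemma pow_half_le_one (n : ℕ) : (1 / 2 : ℝ) ^ n ≤ 1 := pow_le_one₀ (by norm_num) (by norm_num)

lemma As_pos (n : ℕ) : 0 < As n := by
  unfold As; have := Bs_pos n; positivity

lemma As_le (n : ℕ) : As n ≤ Bs n := by
  unfold As
  have h1 := pow_half_le_one n
  have h2 := Bs_pos n
  nlinarith

lemma Bs_succ_le (n : ℕ) : Bs (n + 1) ≤ (1 / 2) ^ n * As n / 8 := by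
  show min (bex (n + 1)) ((1 / 2) ^ n * ((1 / 2) ^ n * Bs n / 8) / 8) ≤ _
  unfold As
  exact min_le_right _ _

/-- height of the `n`-th lens -/
noncomputable def M (n : ℕ) (b : Bool) : ℝ := As n + (if b then Bs n else 0)

lemma M_pos (n : ℕ) (b : Bool) : 0 < M n b := by
  unfold M; have := As_pos n; have := Bs_pos n
  cases b <;> simp <;> linarith

lemma M_le (n : ℕ) (b : Bool) : M n b ≤ 1 / 32 * (1 / 2) ^ n := by
  unfold M; have := As_pos n; have := Bs_pos n; have := As_le n; have := Bs_le n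
  have hp : (0 : ℝ) < (1 / 2) ^ n := by positivity
  cases b <;> simp only [Bool.false_eq_true, if_false, if_true] <;> linarith

lemma M_le_32 (n : ℕ) (b : Bool) : M n b ≤ 1 / 32 := by
  have := M_le n b; have := pow_half_le_one n; linarith

lemma tan_bounds {x : ℝ} (h0 : 0 ≤ x) (h1 : x ≤ 1 / 4) :
    π * x ≤ tan (π * x) ∧ tan (π * x) ≤ 2 * (π * x) := by
  have hpi := pi_pos
  have hx0 : 0 ≤ π * x := by positivity
  have hx1 : π * x ≤ π / 4 := by nlinarith
  refine ⟨le_tan hx0 (by linarith), ?_⟩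
  have hcos : 1 / 2 ≤ cos (π * x) := by
    have h := cos_le_cos_of_nonneg_of_le_pi hx0 (by linarith : π / 3 ≤ π) (by linarith : π * x ≤ π / 3)
    rwa [cos_pi_div_three] at h
  rw [tan_eq_sin_div_cos, div_le_iff₀ (by linarith)]
  have := sin_le hx0
  nlinarith

/-- height in the coordinate `tan (π ·)` -/
noncomputable def Ht (n : ℕ) (b : Bool) : ℝ := tan (π * M n b)

lemma Ht_pos (n : ℕ) (b : Bool) : 0 < Ht n b := by
  unfold Ht
  have h := tan_bounds (M_pos n b).le (by have := M_le_32 n b; linarith)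
  have := M_pos n b
  have hpi := pi_pos
  have : 0 < π * M n b := by positivity
  linarith [h.1]

lemma Ht_le (n : ℕ) (b : Bool) : Ht n b ≤ (1 / 2) ^ n := by
  unfold Ht
  have h := tan_bounds (M_pos n b).le (by have := M_le_32 n b; linarith)
  have h2 := M_le n b
  have hpi := pi_lt_four
  have hpi0 := pi_pos
  have h3 : (0 : ℝ) < (1 / 2) ^ n := by positivity
  nlinarith [h.2, M_pos n b]

lemma Ht_sep_same (n : ℕ) : Ht n false ≤ (1 / 2) ^ n * Ht n true := by
  have h1 := tan_bounds (M_pos n false).le (by have := M_le_32 n false; linarith)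
  have h2 := tan_bounds (M_pos n true).le (by have := M_le_32 n true; linarith)
  have hpi := pi_pos
  have hp : (0 : ℝ) < (1 / 2) ^ n := by positivity
  have hB := Bs_pos n
  have hA := As_pos n
  have e1 : M n false = As n := by simp [M]
  have e2 : M n true = As n + Bs n := by simp [M]
  have e3 : As n = (1 / 2) ^ n * Bs n / 8 := rfl
  unfold Ht
  calc tan (π * M n false) ≤ 2 * (π * M n false) := h1.2
    _ = (1 / 2) ^ n * (π * (Bs n / 4)) := by rw [e1, e3]; ring
    _ ≤ (1 / 2) ^ n * (π * M n true) := by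
        rw [e2]
        refine mul_le_mul_of_nonneg_left ?_ hp.le
        refine mul_le_mul_of_nonneg_left ?_ hpi.le
        linarith
    _ ≤ (1 / 2) ^ n * tan (π * M n true) := mul_le_mul_of_nonneg_left h2.1 hp.le

lemma Ht_sep_succ (n : ℕ) (b b' : Bool) : Ht (n + 1) b' ≤ (1 / 2) ^ n * Ht n b := by
  have h1 := tan_bounds (M_pos (n + 1) b').le (by have := M_le_32 (n + 1) b'; linarith)
  have h2 := tan_bounds (M_pos n b).le (by have := M_le_32 n b; linarith)
  have hpi := pi_pos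
  have hp : (0 : ℝ) < (1 / 2) ^ n := by positivity
  have hA := As_pos n
  have e1 : M (n + 1) b' ≤ 2 * Bs (n + 1) := by
    have := As_le (n + 1); have := Bs_pos (n + 1)
    unfold M; cases b' <;> simp <;> linarith
  have e2 : As n ≤ M n b := by
    have := Bs_pos n
    unfold M; cases b <;> simp; linarith
  have e3 := Bs_succ_le n
  unfold Ht
  calc tan (π * M (n + 1) b') ≤ 2 * (π * M (n + 1) b') := h1.2
    _ ≤ 2 * (π * (2 * ((1 / 2) ^ n * As n / 8))) := by
        refine mul_le_mul_of_nonneg_left ?_ (by norm_num)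
        refine mul_le_mul_of_nonneg_left ?_ hpi.le
        linarith
    _ = (1 / 2) ^ n * (π * (As n / 2)) := by ring
    _ ≤ (1 / 2) ^ n * (π * M n b) := by
        refine mul_le_mul_of_nonneg_left ?_ hp.le
        refine mul_le_mul_of_nonneg_left ?_ hpi.le
        linarith
    _ ≤ (1 / 2) ^ n * tan (π * M n b) := mul_le_mul_of_nonneg_left h2.1 hp.le

lemma Ht_succ_le (n : ℕ) (b b' : Bool) : Ht (n + 1) b' ≤ Ht n b := by
  have := Ht_sep_succ n b b'
  have h2 := pow_half_le_one n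
  have h3 := Ht_pos n b
  nlinarith

/-- super-separation of the heights -/
lemma Ht_sep_lt {n m : ℕ} (h : n < m) (b b' : Bool) : Ht m b' ≤ (1 / 2) ^ n * Ht n b := by
  induction m, h using Nat.le_induction generalizing b' with
  | base => exact Ht_sep_succ n b b'
  | succ m hm ih => exact (Ht_succ_le m b' b').trans (ih b')

end Pool.MP_e91f84_lc
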