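import Mathlib
import Pool.Agent.Work.MP_e91f84_lc.Lens

set_option autoImplicit false

open Filter Topology Set Real
open scoped ContDiff

namespace Pool.MP_e91f84_lc

/-- inverse of `v ↦ (1 - v²)/(1 + v²)` -/
noncomputable def ups (w : ℝ) : ℝ := √((1 - w) / (1 + w))

lemma lt_ups_iff {v w : ℝ} (hv : 0 < v) (h1 : -1 < w) : v < ups w ↔ w < Cc (e v) := by
  rw [Cc_e, ups, lt_sqrt hv.le, lt_div_iff₀ (by linarith), lt_div_iff₀ (by positivity)]
  constructor <;> intro h <;> nlinarith

lemma ups_lt_iff {v w : ℝ} (hv : 0 < v) (h1 : -1 < w) : ups w < v ↔ Cc (e v) < w := by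
  rw [Cc_e, ups, sqrt_lt' hv, div_lt_iff₀ (by linarith), div_lt_iff₀ (by positivity)]
  constructor <;> intro h <;> nlinarith

lemma mm_bounds (n : ℕ) : -(1 / 2) < mm n - rho n ∧ mm n + rho n ≤ -(7 / 32) := by
  unfold mm rho
  have h1 := pow_half_le_one n
  have h2 : (0 : ℝ) < (1 / 2) ^ n := by positivity
  constructor <;> linarith

/-- left end of the `n`-th lens -/
noncomputable def la (n : ℕ) : ℝ := ups (mm n + rho n)
/-- right end of the `n`-th lens -/
noncomputable def lb (n : ℕ) : ℝ := ups (mm n - rho n)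

lemma la_gt_one (n : ℕ) : 1 < la n := by
  have h := mm_bounds n
  have h2 := rho_pos n
  rw [la, lt_ups_iff one_pos (by linarith), Cc_e]
  norm_num; linarith

lemma lb_lt_two (n : ℕ) : lb n < 2 := by
  have h := mm_bounds n
  rw [lb, ups_lt_iff two_pos (by linarith), Cc_e]
  norm_num; linarith

/-- centre -/
noncomputable def pk (n : ℕ) : ℝ := ups (mm n)

lemma ups_anti {w w' : ℝ} (h1 : -1 < w) (h2 : w < w') (h3 : w' < 1) : ups w' < ups w := by
  unfold ups
  refine sqrt_lt_sqrt (div_nonneg (by linarith) (by linarith)) ?_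
  rw [div_lt_div_iff₀ (by linarith) (by linarith)]
  nlinarith

lemma ups_anti_le {w w' : ℝ} (h1 : -1 < w) (h2 : w ≤ w') (h3 : w' < 1) : ups w' ≤ ups w := by
  rcases eq_or_lt_of_le h2 with h | h
  · rw [h]
  · exact (ups_anti h1 h h3).le

lemma la_lt_pk (n : ℕ) : la n < pk n := by
  have h := mm_bounds n
  have h2 := rho_pos n
  exact ups_anti (by linarith) (by linarith) (by linarith)

lemma pk_lt_lb (n : ℕ) : pk n < lb n := by
  have h := mm_bounds n
  have h2 := rho_pos n
  exact ups_anti (by linarith) (by linarith) (by linarith)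

lemma Cc_ups {w : ℝ} (h1 : -1 < w) (h2 : w < 1) : Cc (e (ups w)) = w := by
  rw [Cc_e, ups, sq_sqrt (div_nonneg (by linarith) (by linarith))]
  have : (1 + w) ≠ 0 := by linarith
  field_simp
  ring

lemma Cc_pk (n : ℕ) : Cc (e (pk n)) = mm n := by
  have h := mm_bounds n
  have h2 := rho_pos n
  exact Cc_ups (by linarith) (by linarith)

lemma lens_gap {n m : ℕ} (h : n < m) : mm m + rho m < mm n - rho n := by
  unfold mm rho
  have h2 : (1 / 2 : ℝ) ^ m ≤ (1 / 2) ^ (n + 1) := pow_le_pow_of_le_one (by norm_num) (by norm_num) h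
  have h3 : (0 : ℝ) < (1 / 2) ^ n := by positivity
  rw [pow_succ] at h2
  linarith

lemma lb_lt_la {n m : ℕ} (h : n < m) : lb n < la m := by
  have h1 := mm_bounds n
  have h2 := mm_bounds m
  have h3 := rho_pos n
  have h4 := rho_pos m
  exact ups_anti (by linarith) (lens_gap h) (by linarith)

lemma mem_lens_iff {v : ℝ} (hv : 0 < v) (n : ℕ) :
    v ∈ Ioo (la n) (lb n) ↔ |Cc (e v) - mm n| < rho n := by
  have h1 := mm_bounds n
  have h3 := rho_pos n
  rw [mem_Ioo, la, lb, ups_lt_iff hv (by linarith), lt_ups_iff hv (by linarith), abs_lt]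
  constructor
  · rintro ⟨h, h'⟩; constructor <;> linarith
  · rintro ⟨h, h'⟩; constructor <;> linarith

/-- outer bump on the circle -/
noncomputable def bc (n : ℕ) (p : T1) : ℝ := bet n (Cc p) * sel (Sc p)
/-- inner bump on the circle -/
noncomputable def gc (n : ℕ) (p : T1) : ℝ := gam n (Cc p) * sel (Sc p)

lemma bc_coe (n : ℕ) (s : ℝ) : bc n (s : T1) = bl n s := by
  unfold bc bl; rw [Cc_coe, Sc_coe]

lemma gc_coe (n : ℕ) (s : ℝ) : gc n (s : T1) = gl n s := by
  unfold gc gl; rw [Cc_coe, Sc_coe]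

lemma sel_nonneg (c : ℝ) : 0 ≤ sel c := Real.smoothTransition.nonneg _
lemma sel_le_one (c : ℝ) : sel c ≤ 1 := Real.smoothTransition.le_one _
lemma sel_zero {c : ℝ} (h : c ≤ 0) : sel c = 0 :=
  Real.smoothTransition.zero_of_nonpos (by linarith)
lemma sel_one {c : ℝ} (h : 4 / 5 ≤ c) : sel c = 1 :=
  Real.smoothTransition.one_of_one_le (by linarith)

lemma sel_Sc_one {p : T1} (h1 : 0 ≤ Sc p) (h2 : -(3 / 5) ≤ Cc p) (h3 : Cc p ≤ 3 / 5) :
    sel (Sc p) = 1 := by
  refine sel_one ?_
  have h := Cc_sq_add p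
  have h4 : Cc p ^ 2 ≤ 9 / 25 := by nlinarith
  nlinarith

lemma Sc_e_nonneg {v : ℝ} (hv : 0 ≤ v) : 0 ≤ Sc (e v) := by
  rw [Sc_e]; positivity

lemma Sc_e_nonpos {v : ℝ} (hv : v ≤ 0) : Sc (e v) ≤ 0 := by
  rw [Sc_e]; exact div_nonpos_of_nonpos_of_nonneg (by linarith) (by positivity)

lemma bet_pos_iff (n : ℕ) (c : ℝ) : 0 < bet n c ↔ |c - mm n| < rho n := by
  have h : c ∈ Function.support (bet n) ↔ c ∈ Metric.ball (mm n) (rho n) := by
    rw [(bet n).support_eq]; rfl
  rw [Metric.mem_ball, Real.dist_eq] at h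
  rw [← h, Function.mem_support]
  have := (bet n).nonneg (x := c)
  constructor
  · intro h; exact h.ne'
  · intro h; exact lt_of_le_of_ne this (Ne.symm h)

lemma gam_ne_zero_iff (n : ℕ) (c : ℝ) : gam n c ≠ 0 ↔ |c - mm n| < rho n / 2 := by
  have h : c ∈ Function.support (gam n) ↔ c ∈ Metric.ball (mm n) (rho n / 2) := by
    rw [(gam n).support_eq]; rfl
  rw [Metric.mem_ball, Real.dist_eq] at h
  rw [← h, Function.mem_support]

lemma bet_eq_one {n : ℕ} {c : ℝ} (h : |c - mm n| ≤ rho n / 2) : bet n c = 1 :=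
  (bet n).one_of_mem_closedBall (by rw [Metric.mem_closedBall, Real.dist_eq]; exact h)

/-- exactly on the `n`-th lens the bump is positive -/
lemma bc_ne_zero_iff (n : ℕ) (p : T1) : bc n p ≠ 0 ↔ ∃ v ∈ Ioo (la n) (lb n), p = e v := by
  constructor
  · intro h
    have hs : sel (Sc p) ≠ 0 := right_ne_zero_of_mul h
    have hb : bet n (Cc p) ≠ 0 := left_ne_zero_of_mul h
    have hb' : |Cc p - mm n| < rho n :=
      (bet_pos_iff n _).1 (lt_of_le_of_ne (bet n).nonneg hb.symm)
    have hmm := mm_bounds n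
    rw [abs_lt] at hb'
    have hpi : p ≠ inf := by
      rw [ne_inf_iff]; linarith [rho_pos n]
    refine ⟨uu p, ?_, (e_uu hpi).symm⟩
    have hpos : 0 < uu p := by
      by_contra hneg
      push Not at hneg
      apply hs
      have := Sc_e_nonpos hneg
      rw [e_uu hpi] at this
      exact sel_zero this
    rw [mem_lens_iff hpos, e_uu hpi, abs_lt]
    exact hb'
  · rintro ⟨v, hv, rfl⟩
    have hv0 : 0 < v := by linarith [la_gt_one n, hv.1]
    have h := (mem_lens_iff hv0 n).1 hv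
    have h1 : 0 < bet n (Cc (e v)) := (bet_pos_iff n _).2 h
    have hmm := mm_bounds n
    rw [abs_lt] at h
    have h2 : sel (Sc (e v)) = 1 := sel_Sc_one (Sc_e_nonneg hv0.le) (by linarith [rho_pos n])
      (by linarith [rho_pos n])
    unfold bc
    rw [h2, mul_one]
    exact h1.ne'

/-- where `gc n ≠ 0`, the outer bump is `1` and we are inside the `n`-th lens -/
lemma gc_ne_zero {n : ℕ} {p : T1} (h : gc n p ≠ 0) :
    bc n p = 1 ∧ ∃ v ∈ Icc (ups (mm n + rho n / 2)) (ups (mm n - rho n / 2)), p = e v := by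
  have hs : sel (Sc p) ≠ 0 := right_ne_zero_of_mul h
  have hb : gam n (Cc p) ≠ 0 := left_ne_zero_of_mul h
  have hb' := (gam_ne_zero_iff n _).1 hb
  have hmm := mm_bounds n
  have hr := rho_pos n
  have hb2 := hb'
  rw [abs_lt] at hb'
  have hpi : p ≠ inf := by
    rw [ne_inf_iff]; linarith [rho_pos n]
  have hpos : 0 < uu p := by
    by_contra hneg
    push Not at hneg
    apply hs
    have := Sc_e_nonpos hneg
    rw [e_uu hpi] at this
    exact sel_zero this
  have h2 : sel (Sc p) = 1 := by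
    have := sel_Sc_one (p := e (uu p)) (Sc_e_nonneg hpos.le)
    rw [e_uu hpi] at this
    exact this (by linarith) (by linarith)
  refine ⟨?_, uu p, ⟨?_, ?_⟩, (e_uu hpi).symm⟩
  · unfold bc; rw [h2, mul_one]; exact bet_eq_one hb2.le
  · refine le_of_lt ((ups_lt_iff hpos (by linarith)).2 ?_)
    rw [e_uu hpi]; linarith
  · refine le_of_lt ((lt_ups_iff hpos (by linarith)).2 ?_)
    rw [e_uu hpi]; linarith

lemma bc_nonneg (n : ℕ) (p : T1) : 0 ≤ bc n p := mul_nonneg (bet n).nonneg (sel_nonneg _)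
lemma gc_nonneg (n : ℕ) (p : T1) : 0 ≤ gc n p := mul_nonneg (gam n).nonneg (sel_nonneg _)
lemma bc_le_one (n : ℕ) (p : T1) : bc n p ≤ 1 :=
  mul_le_one₀ (bet n).le_one (sel_nonneg _) (sel_le_one _)
lemma gc_le_one (n : ℕ) (p : T1) : gc n p ≤ 1 :=
  mul_le_one₀ (gam n).le_one (sel_nonneg _) (sel_le_one _)

lemma continuous_bc (n : ℕ) : Continuous (bc n) := by
  unfold bc sel
  exact ((bet n).continuous.comp continuous_Cc).mul
    (Real.smoothTransition.continuous.comp (continuous_const.mul continuous_Sc))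
lemma continuous_gc (n : ℕ) : Continuous (gc n) := by
  unfold gc sel
  exact ((gam n).continuous.comp continuous_Cc).mul
    (Real.smoothTransition.continuous.comp (continuous_const.mul continuous_Sc))

/-- the `n`-th term of the perturbation -/
noncomputable def term (x : ℕ → Bool) (n : ℕ) (p : T1) : ℝ :=
  As n * bc n p + (if x n then Bs n else 0) * gc n p

lemma term_ne_zero_iff (x : ℕ → Bool) (n : ℕ) (p : T1) :
    term x n p ≠ 0 ↔ ∃ v ∈ Ioo (la n) (lb n), p = e v := by
  rw [← bc_ne_zero_iff]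
  have hA := As_pos n
  have hB := Bs_pos n
  have h1 := bc_nonneg n p
  have h2 := gc_nonneg n p
  constructor
  · intro h hb
    apply h
    have : gc n p = 0 := by
      by_contra hg
      have := (gc_ne_zero hg).1
      rw [hb] at this
      exact zero_ne_one this
    unfold term
    rw [hb, this]; simp
  · intro hb h
    unfold term at h
    have h3 : 0 < As n * bc n p := mul_pos hA (lt_of_le_of_ne h1 hb.symm)
    have h4 : 0 ≤ (if x n then Bs n else 0) * gc n p := by
      refine mul_nonneg ?_ h2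
      split_ifs <;> linarith
    linarith

lemma lens_disjoint {n m : ℕ} {v : ℝ} (h1 : v ∈ Ioo (la n) (lb n)) (h2 : v ∈ Ioo (la m) (lb m)) :
    n = m := by
  rcases lt_trichotomy n m with h | h | h
  · have := lb_lt_la h
    linarith [h1.2, h2.1]
  · exact h
  · have := lb_lt_la h
    linarith [h2.2, h1.1]

/-- the perturbation -/
noncomputable def phi (x : ℕ → Bool) (p : T1) : ℝ := ∑' n, term x n p

lemma phi_eq_term {x : ℕ → Bool} {n : ℕ} {v : ℝ} (hv : v ∈ Ioo (la n) (lb n)) :
    phi x (e v) = term x n (e v) := by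
  unfold phi
  refine tsum_eq_single n ?_
  intro m hm
  by_contra h
  obtain ⟨w, hw, hwe⟩ := (term_ne_zero_iff x m _).1 h
  rw [e_inj] at hwe
  subst hwe
  exact hm (lens_disjoint hw hv)

lemma phi_eq_zero {x : ℕ → Bool} {p : T1} (h : ∀ n, ∀ v ∈ Ioo (la n) (lb n), p ≠ e v) :
    phi x p = 0 := by
  unfold phi
  have : ∀ n, term x n p = 0 := by
    intro n
    by_contra hn
    obtain ⟨v, hv, hve⟩ := (term_ne_zero_iff x n _).1 hn
    exact h n v hv hve
  simp [this]

lemma term_le (x : ℕ → Bool) (n : ℕ) (p : T1) : term x n p ≤ M n (x n) := by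
  unfold term M
  have hA := As_pos n
  have hB := Bs_pos n
  have h1 := bc_le_one n p
  have h2 := gc_le_one n p
  have h3 : As n * bc n p ≤ As n := by nlinarith
  have h4 : (if x n then Bs n else 0) * gc n p ≤ (if x n then Bs n else 0) := by
    have : 0 ≤ (if x n then Bs n else 0) := by split_ifs <;> linarith
    nlinarith
  linarith

lemma term_nonneg (x : ℕ → Bool) (n : ℕ) (p : T1) : 0 ≤ term x n p := by
  unfold term
  have hA := As_pos n
  have hB := Bs_pos n
  have h1 := bc_nonneg n p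
  have h2 := gc_nonneg n p
  have : 0 ≤ (if x n then Bs n else 0) := by split_ifs <;> linarith
  positivity

lemma phi_cases (x : ℕ → Bool) (p : T1) :
    phi x p = 0 ∨ ∃ n, ∃ v ∈ Ioo (la n) (lb n), p = e v ∧ 0 < phi x p ∧ phi x p ≤ M n (x n) := by
  by_cases h : ∃ n, ∃ v ∈ Ioo (la n) (lb n), p = e v
  · right
    obtain ⟨n, v, hv, rfl⟩ := h
    refine ⟨n, v, hv, rfl, ?_, ?_⟩
    · rw [phi_eq_term hv]
      have : term x n (e v) ≠ 0 := (term_ne_zero_iff x n _).2 ⟨v, hv, rfl⟩
      exact lt_of_le_of_ne (term_nonneg _ _ _) this.symm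
    · rw [phi_eq_term hv]; exact term_le _ _ _
  · left
    push Not at h
    exact phi_eq_zero h

lemma phi_nonneg (x : ℕ → Bool) (p : T1) : 0 ≤ phi x p := by
  rcases phi_cases x p with h | ⟨n, v, hv, h, h2, h3⟩
  · rw [h]
  · exact h2.le

lemma phi_le (x : ℕ → Bool) (p : T1) : phi x p ≤ 1 / 32 := by
  rcases phi_cases x p with h | ⟨n, v, hv, h, h2, h3⟩
  · rw [h]; norm_num
  · exact h3.trans (M_le_32 _ _)

lemma phi_pk (x : ℕ → Bool) (n : ℕ) : phi x (e (pk n)) = M n (x n) := by
  have hpk : pk n ∈ Ioo (la n) (lb n) := ⟨la_lt_pk n, pk_lt_lb n⟩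
  have hpk0 : 0 < pk n := by linarith [la_gt_one n, hpk.1]
  have hmm := mm_bounds n
  have hr := rho_pos n
  rw [phi_eq_term hpk]
  unfold term M bc gc
  rw [Cc_pk]
  have h2 : sel (Sc (e (pk n))) = 1 := by
    refine sel_Sc_one (Sc_e_nonneg hpk0.le) ?_ ?_ <;> rw [Cc_pk] <;> linarith
  have h3 : bet n (mm n) = 1 := bet_eq_one (by simp; linarith)
  have h4 : gam n (mm n) = 1 := (gam n).one_of_mem_closedBall (by
    rw [Metric.mem_closedBall, dist_self]; exact (gam n).rIn_pos.le)
  rw [h2, h3, h4]; ring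

lemma phi_ne_zero_iff (x : ℕ → Bool) (p : T1) :
    phi x p ≠ 0 ↔ ∃ n, ∃ v ∈ Ioo (la n) (lb n), p = e v := by
  constructor
  · intro h
    rcases phi_cases x p with h' | ⟨n, v, hv, h, h2, h3⟩
    · exact absurd h' h
    · exact ⟨n, v, hv, h⟩
  · rintro ⟨n, v, hv, rfl⟩
    rw [phi_eq_term hv]
    exact (term_ne_zero_iff x n _).2 ⟨v, hv, rfl⟩

lemma phi_inf (x : ℕ → Bool) : phi x inf = 0 := by
  apply phi_eq_zero
  intro n v _ h
  exact e_ne_inf v h.symm

lemma phi_e_eq_zero (x : ℕ → Bool) {v : ℝ} (h : v ≤ 1 ∨ 2 ≤ v) : phi x (e v) = 0 := by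
  apply phi_eq_zero
  intro n w hw hvw
  rw [e_inj] at hvw
  subst hvw
  have := la_gt_one n
  have := lb_lt_two n
  rcases h with h | h
  · linarith [hw.1]
  · linarith [hw.2]

/-- flipping one digit -/
lemma phi_flip {x y : ℕ → Bool} {n : ℕ} (hx : x n = false) (hy : y n = true)
    (hxy : ∀ m, m ≠ n → x m = y m) (p : T1) : phi y p = phi x p + Bs n * gc n p := by
  by_cases h : ∃ m, ∃ v ∈ Ioo (la m) (lb m), p = e v
  · obtain ⟨m, v, hv, rfl⟩ := h
    rw [phi_eq_term hv, phi_eq_term hv]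
    by_cases hm : m = n
    · subst hm
      unfold term
      rw [hx, hy]; simp
    · have : gc n (e v) = 0 := by
        by_contra hg
        have h1 := (gc_ne_zero hg).1
        have h2 : bc n (e v) ≠ 0 := by rw [h1]; exact one_ne_zero
        obtain ⟨w, hw, hwe⟩ := (bc_ne_zero_iff n _).1 h2
        rw [e_inj] at hwe
        subst hwe
        exact hm (lens_disjoint hv hw)
      unfold term
      rw [hxy m hm, this]; simp
  · push Not at h
    rw [phi_eq_zero h, phi_eq_zero h]
    have : gc n p = 0 := by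
      by_contra hg
      have h1 := (gc_ne_zero hg).1
      have h2 : bc n p ≠ 0 := by rw [h1]; exact one_ne_zero
      obtain ⟨w, hw, hwe⟩ := (bc_ne_zero_iff n _).1 h2
      exact h n w hw hwe
    rw [this]; simp

/-- where the flip acts, the unflipped perturbation is the constant `As n` -/
lemma phi_flip_const {x : ℕ → Bool} {n : ℕ} (hx : x n = false) {p : T1} (hg : gc n p ≠ 0) :
    phi x p = As n := by
  have h1 := (gc_ne_zero hg).1
  have h2 : bc n p ≠ 0 := by rw [h1]; exact one_ne_zero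
  obtain ⟨w, hw, rfl⟩ := (bc_ne_zero_iff n _).1 h2
  rw [phi_eq_term hw]
  unfold term
  rw [h1, hx]; simp

end Pool.MP_e91f84_lc
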