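import Mathlib
import Pool.Agent.Work.MP_e91f84_lc.Lens2

set_option autoImplicit false

open Filter Topology Set Real
open scoped ContDiff

namespace Pool.MP_e91f84_lc

/-- lifted term -/
noncomputable def termL (x : ℕ → Bool) (n : ℕ) (s : ℝ) : ℝ :=
  As n * bl n s + (if x n then Bs n else 0) * gl n s

lemma term_coe (x : ℕ → Bool) (n : ℕ) (s : ℝ) : term x n (s : T1) = termL x n s := by
  unfold term termL; rw [bc_coe, gc_coe]

lemma contDiff_termL (x : ℕ → Bool) (n : ℕ) : ContDiff ℝ ∞ (termL x n) := by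
  unfold termL
  exact (contDiff_const.mul (contDiff_bl n)).add (contDiff_const.mul (contDiff_gl n))

/-- lifted perturbation -/
noncomputable def phil (x : ℕ → Bool) (s : ℝ) : ℝ := ∑' n, termL x n s

lemma phi_coe (x : ℕ → Bool) (s : ℝ) : phi x (s : T1) = phil x s := by
  unfold phi phil; simp_rw [term_coe]

lemma norm_iter_const_mul (k : ℕ) (c : ℝ) {f : ℝ → ℝ} (hf : ContDiff ℝ ∞ f) (s : ℝ) :
    ‖iteratedFDeriv ℝ k (fun s => c * f s) s‖ = |c| * ‖iteratedFDeriv ℝ k f s‖ := by
  have h : (fun s => c * f s) = c • f := by ext; simp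
  rw [h, iteratedFDeriv_const_smul_apply (hf.contDiffAt.of_le (by exact_mod_cast le_top)),
    norm_smul, Real.norm_eq_abs]

lemma norm_iter_termL (x : ℕ → Bool) {k n : ℕ} (hk : k ≤ n) (s : ℝ) :
    ‖iteratedFDeriv ℝ k (termL x n) s‖ ≤ 2 * (1 / 2) ^ n := by
  have h1 : termL x n = (fun s => As n * bl n s) + (fun s => (if x n then Bs n else 0) * gl n s) := rfl
  have hc1 : ContDiff ℝ ∞ (fun s => As n * bl n s) := contDiff_const.mul (contDiff_bl n)
  have hc2 : ContDiff ℝ ∞ (fun s => (if x n then Bs n else 0) * gl n s) :=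
    contDiff_const.mul (contDiff_gl n)
  rw [h1, iteratedFDeriv_add_apply (hc1.contDiffAt.of_le (by exact_mod_cast le_top))
    (hc2.contDiffAt.of_le (by exact_mod_cast le_top))]
  refine (norm_add_le _ _).trans ?_
  rw [norm_iter_const_mul k _ (contDiff_bl n), norm_iter_const_mul k _ (contDiff_gl n)]
  have hs := bex_spec n
  have hA := As_pos n
  have hB := Bs_pos n
  have hAB := As_le n
  have hBb := Bs_le_bex n
  have h3 := hs.2.2.1 k hk s
  have h4 := hs.2.2.2 k hk s
  have h5 : |As n| * ‖iteratedFDeriv ℝ k (bl n) s‖ ≤ bex n * ‖iteratedFDeriv ℝ k (bl n) s‖ := by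
    refine mul_le_mul_of_nonneg_right ?_ (norm_nonneg _)
    rw [abs_of_pos hA]; linarith
  have h6 : |(if x n then Bs n else 0)| * ‖iteratedFDeriv ℝ k (gl n) s‖ ≤
      bex n * ‖iteratedFDeriv ℝ k (gl n) s‖ := by
    refine mul_le_mul_of_nonneg_right ?_ (norm_nonneg _)
    split_ifs
    · rw [abs_of_pos hB]; linarith
    · rw [abs_zero]; linarith
  linarith

lemma contDiff_phil (x : ℕ → Bool) : ContDiff ℝ ∞ (phil x) := by
  unfold phil
  refine contDiff_tsum_of_eventually (N := ⊤) (v := fun _ n => 2 * (1 / 2 : ℝ) ^ n)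
    (fun n => contDiff_termL x n) ?_ ?_
  · intro k _
    exact (summable_geometric_of_lt_one (by norm_num) (by norm_num)).mul_left 2
  · intro k _
    rw [Nat.cofinite_eq_atTop]
    filter_upwards [eventually_ge_atTop k] with n hn s
    exact norm_iter_termL x hn s

/-- transition function -/
noncomputable def cf (p : T1) : ℝ := log 2 * (2 * Real.smoothTransition (-(5 / 3) * Cc p) - 1)

/-- lifted transition function -/
noncomputable def cl (s : ℝ) : ℝ :=
  log 2 * (2 * Real.smoothTransition (-(5 / 3) * cos (2 * π * s)) - 1)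

lemma cf_coe (s : ℝ) : cf (s : T1) = cl s := by unfold cf cl; rw [Cc_coe]

lemma contDiff_cl : ContDiff ℝ ∞ cl := by
  unfold cl
  refine contDiff_const.mul ((contDiff_const.mul ?_).sub contDiff_const)
  exact Real.smoothTransition.contDiff.comp
    (contDiff_const.mul (Real.contDiff_cos.comp (contDiff_const.mul contDiff_id)))

lemma continuous_cf : Continuous cf := by
  unfold cf
  exact continuous_const.mul ((continuous_const.mul (Real.smoothTransition.continuous.comp
    (continuous_const.mul continuous_Cc))).sub continuous_const)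

lemma cf_of_nonneg {p : T1} (h : 0 ≤ Cc p) : cf p = - log 2 := by
  unfold cf
  rw [Real.smoothTransition.zero_of_nonpos (by linarith)]; ring

lemma cf_of_le {p : T1} (h : Cc p ≤ -(3 / 5)) : cf p = log 2 := by
  unfold cf
  rw [Real.smoothTransition.one_of_one_le (by linarith)]; ring

lemma abs_cf_le (p : T1) : |cf p| ≤ log 2 := by
  unfold cf
  have hl : 0 < log 2 := log_pos (by norm_num)
  rw [abs_mul, abs_of_pos hl]
  have h1 := Real.smoothTransition.nonneg (-(5 / 3) * Cc p)
  have h2 := Real.smoothTransition.le_one (-(5 / 3) * Cc p)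
  have : |2 * Real.smoothTransition (-(5 / 3) * Cc p) - 1| ≤ 1 := by
    rw [abs_le]; constructor <;> linarith
  nlinarith

lemma Cc_e_nonneg {u : ℝ} (h : |u| ≤ 1) : 0 ≤ Cc (e u) := by
  rw [Cc_e]
  have : u ^ 2 ≤ 1 := by rw [← sq_abs]; nlinarith [abs_nonneg u]
  exact div_nonneg (by linarith) (by positivity)

lemma Cc_e_le {u : ℝ} (h : 2 ≤ |u|) : Cc (e u) ≤ -(3 / 5) := by
  rw [Cc_e]
  have : 4 ≤ u ^ 2 := by rw [← sq_abs]; nlinarith [abs_nonneg u]
  rw [div_le_iff₀ (by positivity)]; linarith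

lemma cf_e_small {u : ℝ} (h : |u| ≤ 1) : cf (e u) = -log 2 := cf_of_nonneg (Cc_e_nonneg h)
lemma cf_e_large {u : ℝ} (h : 2 ≤ |u|) : cf (e u) = log 2 := cf_of_le (Cc_e_le h)
lemma cf_inf : cf inf = log 2 := cf_of_le (by rw [Cc_inf]; norm_num)

/-- the map -/
noncomputable def fx (x : ℕ → Bool) (z : T2) : T2 :=
  (R (log 2) z.1, R (cf z.1) z.2 + ((phi x z.1 : ℝ) : T1))

/-- the inverse map -/
noncomputable def gx (x : ℕ → Bool) (z : T2) : T2 :=
  (R (-log 2) z.1, R (-cf (R (-log 2) z.1)) (z.2 - ((phi x (R (-log 2) z.1) : ℝ) : T1)))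

lemma gx_fx (x : ℕ → Bool) (z : T2) : gx x (fx x z) = z := by
  unfold gx fx
  simp only [R_neg_cancel, add_sub_cancel_right]

lemma fx_gx (x : ℕ → Bool) (z : T2) : fx x (gx x z) = z := by
  unfold gx fx
  simp only [R_cancel_neg, sub_add_cancel]

/-- lift of `fx` -/
noncomputable def Fx (x : ℕ → Bool) (z : ℝ × ℝ) : ℝ × ℝ :=
  (r (log 2) z.1, r (cl z.1) z.2 + phil x z.1)

/-- lift of `gx` -/
noncomputable def Gx (x : ℕ → Bool) (z : ℝ × ℝ) : ℝ × ℝ :=
  (r (-log 2) z.1, r (-cl (r (-log 2) z.1)) (z.2 - phil x (r (-log 2) z.1)))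

lemma fx_proj (x : ℕ → Bool) (z : ℝ × ℝ) : fx x (proj z) = proj (Fx x z) := by
  unfold fx proj Fx
  simp only [R_coe, cf_coe, phi_coe, AddCircle.coe_add]

lemma gx_proj (x : ℕ → Bool) (z : ℝ × ℝ) : gx x (proj z) = proj (Gx x z) := by
  unfold gx proj Gx
  simp only [R_coe, cf_coe, phi_coe, ← AddCircle.coe_sub]

lemma contDiff_r_const (t : ℝ) : ContDiff ℝ ∞ (r t) :=
  contDiff_r.comp (contDiff_const.prodMk contDiff_id : ContDiff ℝ ∞ (fun s : ℝ => (t, s)))

lemma contDiff_Fx (x : ℕ → Bool) : ContDiff ℝ ∞ (Fx x) := by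
  unfold Fx
  refine ((contDiff_r_const _).comp contDiff_fst).prodMk (ContDiff.add ?_ ?_)
  · exact contDiff_r.comp ((contDiff_cl.comp contDiff_fst).prodMk contDiff_snd)
  · exact (contDiff_phil x).comp contDiff_fst

lemma contDiff_Gx (x : ℕ → Bool) : ContDiff ℝ ∞ (Gx x) := by
  unfold Gx
  have h1 : ContDiff ℝ ∞ (fun z : ℝ × ℝ => r (-log 2) z.1) := (contDiff_r_const _).comp contDiff_fst
  refine h1.prodMk ?_
  have h2 : ContDiff ℝ ∞ (fun z : ℝ × ℝ => -cl (r (-log 2) z.1)) := (contDiff_cl.comp h1).neg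
  have h3 : ContDiff ℝ ∞ (fun z : ℝ × ℝ => z.2 - phil x (r (-log 2) z.1)) :=
    contDiff_snd.sub ((contDiff_phil x).comp h1)
  exact contDiff_r.comp (h2.prodMk h3)

/-- the diffeomorphism -/
noncomputable def Phi (x : ℕ → Bool) : DiffT2 where
  toEquiv :=
    { toFun := fx x
      invFun := gx x
      left_inv := gx_fx x
      right_inv := fx_gx x }
  smooth := ⟨Fx x, contDiff_Fx x, fx_proj x⟩
  smooth_symm := ⟨Gx x, contDiff_Gx x, gx_proj x⟩

@[simp] lemma Phi_apply (x : ℕ → Bool) (z : T2) : (Phi x).toEquiv z = fx x z := rfl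
@[simp] lemma Phi_symm_apply (x : ℕ → Bool) (z : T2) : (Phi x).toEquiv.symm z = gx x z := rfl

lemma continuous_phi (x : ℕ → Bool) : Continuous (phi x) := by
  have h : Continuous (fun s : ℝ => phi x (s : T1)) := by
    simp_rw [phi_coe]; exact (contDiff_phil x).continuous
  exact (QuotientAddGroup.isOpenQuotientMap_mk.isQuotientMap.continuous_iff).2 h

lemma continuous_coe : Continuous (fun s : ℝ => (s : T1)) := AddCircle.continuous_mk' (1 : ℝ)

lemma contR {X : Type} [TopologicalSpace X] {f : X → ℝ} {g : X → T1} (hf : Continuous f)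
    (hg : Continuous g) : Continuous (fun a => R (f a) (g a)) :=
  Continuous.comp (g := fun z : ℝ × T1 => R z.1 z.2) (f := fun a => (f a, g a))
    continuous_R (hf.prodMk hg)

lemma continuous_fx (x : ℕ → Bool) : Continuous (fx x) := by
  have h1 : Continuous (fun z : T2 => R (log 2) z.1) := contR continuous_const continuous_fst
  have h2 : Continuous (fun z : T2 => R (cf z.1) z.2) :=
    contR (continuous_cf.comp continuous_fst) continuous_snd
  have h3 : Continuous (fun z : T2 => ((phi x z.1 : ℝ) : T1)) :=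
    continuous_coe.comp ((continuous_phi x).comp continuous_fst)
  exact h1.prodMk (h2.add h3)

lemma continuous_gx (x : ℕ → Bool) : Continuous (gx x) := by
  have h1 : Continuous (fun z : T2 => R (-log 2) z.1) := contR continuous_const continuous_fst
  have h2 : Continuous (fun z : T2 => -cf (R (-log 2) z.1)) := (continuous_cf.comp h1).neg
  have h3 : Continuous (fun z : T2 => z.2 - ((phi x (R (-log 2) z.1) : ℝ) : T1)) :=
    continuous_snd.sub (continuous_coe.comp ((continuous_phi x).comp h1))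
  exact h1.prodMk (contR h2 h3)

end Pool.MP_e91f84_lc
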