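import Mathlib
import Pool.Agent.Work.MP_e91f84_lc.Map

set_option autoImplicit false

open Filter Topology Set Real
open scoped ContDiff

namespace Pool.MP_e91f84_lc

lemma exp_log_two : exp (log 2) = 2 := exp_log two_pos
lemma exp_neg_log_two : exp (-log 2) = 1 / 2 := by rw [exp_neg, exp_log_two]; norm_num

lemma coe_eq_iff' (a b : ℝ) : (a : T1) = (b : T1) ↔ ∃ n : ℤ, a - b = n := by
  rw [← sub_eq_zero, ← AddCircle.coe_sub, AddCircle.coe_eq_zero_iff]
  constructor
  · rintro ⟨n, hn⟩; exact ⟨n, by rw [← hn]; simp⟩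
  · rintro ⟨n, hn⟩; exact ⟨n, by rw [hn]; simp⟩

/-- the derivative is unique -/
lemma HasTDerivAt.unique {f : T2 → T2} {A A' : ℝ × ℝ →L[ℝ] ℝ × ℝ} {p : T2}
    (h : HasTDerivAt f A p) (h' : HasTDerivAt f A' p) : A = A' := by
  obtain ⟨F, hF0, hF, hFd⟩ := h
  obtain ⟨G, hG0, hG, hGd⟩ := h'
  have hFc : ContinuousAt F 0 := hFd.continuousAt
  have hGc : ContinuousAt G 0 := hGd.continuousAt
  have hint : ∀ v, (∃ n : ℤ, (F v).1 - (G v).1 = n) ∧ (∃ n : ℤ, (F v).2 - (G v).2 = n) := by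
    intro v
    have := (hF v).symm.trans (hG v)
    have h2 : proj (F v) = proj (G v) := add_left_cancel this
    exact ⟨(coe_eq_iff' _ _).1 (congrArg Prod.fst h2), (coe_eq_iff' _ _).1 (congrArg Prod.snd h2)⟩
  have hd : Tendsto (fun v => F v - G v) (𝓝 0) (𝓝 0) := by
    have h1 : Tendsto (F - G) (𝓝 0) (𝓝 ((F - G) 0)) := hFc.sub hGc
    have h2 : (F - G) 0 = 0 := by simp [hF0, hG0]
    rw [h2] at h1
    exact h1
  have hsmall : ∀ᶠ v in 𝓝 (0 : ℝ × ℝ), ‖F v - G v‖ < 1 := by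
    have := hd.norm
    rw [norm_zero] at this
    exact this.eventually_lt_const one_pos
  have heq : F =ᶠ[𝓝 0] G := by
    filter_upwards [hsmall] with v hv
    obtain ⟨⟨n, hn⟩, ⟨m, hm⟩⟩ := hint v
    have h1 : |(F v).1 - (G v).1| < 1 := by
      have := (norm_fst_le (F v - G v)).trans_lt hv
      simpa using this
    have h2 : |(F v).2 - (G v).2| < 1 := by
      have := (norm_snd_le (F v - G v)).trans_lt hv
      simpa using this
    rw [hn] at h1
    rw [hm] at h2
    have hn0 : n = 0 := by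
      have : |n| < 1 := by exact_mod_cast h1
      exact Int.abs_lt_one_iff.1 this
    have hm0 : m = 0 := by
      have : |m| < 1 := by exact_mod_cast h2
      exact Int.abs_lt_one_iff.1 this
    rw [hn0] at hn
    rw [hm0] at hm
    ext
    · push_cast at hn; linarith
    · push_cast at hm; linarith
  exact (heq.hasFDerivAt_iff.1 hFd).unique hGd

lemma HasTDerivAt.tderiv_eq {f : T2 → T2} {A : ℝ × ℝ →L[ℝ] ℝ × ℝ} {p : T2}
    (h : HasTDerivAt f A p) : tderiv f p = A := by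
  classical
  unfold tderiv
  have h2 : ∃ A, HasTDerivAt f A p := ⟨A, h⟩
  rw [dif_pos h2]
  exact (Classical.choose_spec h2).unique h

lemma proj_add (a b : ℝ × ℝ) : proj (a + b) = proj a + proj b := by
  unfold proj; simp

/-- derivative of iterates at a fixed point, from a lift -/
lemma hasTDerivAt_iterate {f : T2 → T2} {F : ℝ × ℝ → ℝ × ℝ} (hF : ∀ z, f (proj z) = proj (F z))
    {P : ℝ × ℝ} (hP : F P = P) {A : ℝ × ℝ →L[ℝ] ℝ × ℝ} (hA : HasFDerivAt F A P) (n : ℕ) :
    HasTDerivAt f^[n] (A ^ n) (proj P) := by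
  have hiter : ∀ z, f^[n] (proj z) = proj (F^[n] z) := by
    induction n with
    | zero => intro z; rfl
    | succ n ih =>
      intro z
      rw [Function.iterate_succ_apply, Function.iterate_succ_apply, hF, ih]
  have hfix : F^[n] P = P := Function.iterate_fixed hP n
  refine ⟨fun v => F^[n] (P + v) - P, by simp [hfix], ?_, ?_⟩
  · intro v
    rw [← proj_add, hiter, hiter, hfix, ← proj_add]
    congr 1
    exact (add_sub_cancel _ _).symm
  · have h1 : HasFDerivAt F^[n] (A ^ n) P := hA.iterate hP n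
    have h2 : HasFDerivAt (fun v : ℝ × ℝ => P + v) (ContinuousLinearMap.id ℝ (ℝ × ℝ)) 0 :=
      (hasFDerivAt_id (0 : ℝ × ℝ)).const_add P
    have h1' : HasFDerivAt F^[n] (A ^ n) (P + 0) := by rwa [add_zero]
    have h3 := (h1'.comp (0 : ℝ × ℝ) h2).sub_const P
    rwa [ContinuousLinearMap.comp_id] at h3

/-- diagonal map -/
noncomputable def diag (a b : ℝ) : ℝ × ℝ →L[ℝ] ℝ × ℝ :=
  (a • ContinuousLinearMap.fst ℝ ℝ ℝ).prod (b • ContinuousLinearMap.snd ℝ ℝ ℝ)

@[simp] lemma diag_apply (a b : ℝ) (v : ℝ × ℝ) : diag a b v = (a * v.1, b * v.2) := by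
  simp [diag]

lemma diag_pow (a b : ℝ) (n : ℕ) : diag a b ^ n = diag (a ^ n) (b ^ n) := by
  induction n with
  | zero =>
    ext <;> simp
  | succ n ih =>
    rw [pow_succ, ih]
    ext <;> simp [pow_succ]

lemma hasDerivAt_r {t s : ℝ} (hs : sin (2 * π * s) = 0) :
    HasDerivAt (r t) (1 + ((exp t - 1) * (cos (2 * π * s) * (2 * π)) /
      ((1 + cos (2 * π * s)) + exp t * (1 - cos (2 * π * s)))) / π) s := by
  have hlin : HasDerivAt (fun s : ℝ => 2 * π * s) (2 * π) s := by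
    simpa using (hasDerivAt_id s).const_mul (2 * π)
  have hsin : HasDerivAt (fun s : ℝ => sin (2 * π * s)) (cos (2 * π * s) * (2 * π)) s :=
    (hasDerivAt_sin _).comp s hlin
  have hcos : HasDerivAt (fun s : ℝ => cos (2 * π * s)) (-sin (2 * π * s) * (2 * π)) s :=
    (hasDerivAt_cos _).comp s hlin
  have hN := hsin.const_mul (exp t - 1)
  have hD : HasDerivAt (fun s : ℝ => (1 + cos (2 * π * s)) + exp t * (1 - cos (2 * π * s)))
      ((-sin (2 * π * s) * (2 * π)) + exp t * (-(-sin (2 * π * s) * (2 * π)))) s :=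
    (hcos.const_add 1).add ((hcos.const_sub 1).const_mul (exp t))
  have hDne := (den_pos t (cos (2 * π * s)) (neg_one_le_cos _) (cos_le_one _)).ne'
  have hq := hN.div hD hDne
  have hat := hq.arctan
  have := (hasDerivAt_id s).add (hat.div_const π)
  unfold r
  refine this.congr_deriv ?_
  simp only [Pi.div_apply]
  rw [hs]
  field_simp
  ring

lemma hasDerivAt_r_zero (t : ℝ) : HasDerivAt (r t) (exp t) 0 := by
  have := hasDerivAt_r (t := t) (s := 0) (by simp)
  refine this.congr_deriv ?_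
  simp only [mul_zero, cos_zero]
  have hpi := pi_pos.ne'
  field_simp
  ring

lemma hasDerivAt_r_half (t : ℝ) : HasDerivAt (r t) (exp (-t)) (1 / 2) := by
  have h1 : 2 * π * (1 / 2) = π := by ring
  have := hasDerivAt_r (t := t) (s := 1 / 2) (by rw [h1, sin_pi])
  refine this.congr_deriv ?_
  rw [h1, cos_pi, exp_neg]
  have hpi := pi_pos.ne'
  have he := (exp_pos t).ne'
  field_simp
  ring

/-! ### Lyapunov functions -/

lemma Cc_R_le (p : T1) : Cc (R (log 2) p) ≤ Cc p := by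
  rcases T1_cases p with rfl | ⟨u, rfl⟩
  · rw [R_inf]
  · rw [R_e, exp_log_two, Cc_e, Cc_e, div_le_div_iff₀ (by positivity) (by positivity)]
    nlinarith [sq_nonneg u]

lemma Cc_R_lt {p : T1} (h0 : p ≠ 0) (h1 : p ≠ inf) : Cc (R (log 2) p) < Cc p := by
  rcases T1_cases p with rfl | ⟨u, rfl⟩
  · exact absurd rfl h1
  · have hu : u ≠ 0 := by rintro rfl; exact h0 e_zero
    have hu2 : 0 < u ^ 2 := by positivity
    rw [R_e, exp_log_two, Cc_e, Cc_e, div_lt_div_iff₀ (by positivity) (by positivity)]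
    nlinarith

lemma Cc_le_R_neg (p : T1) : Cc p ≤ Cc (R (-log 2) p) := by
  have := Cc_R_le (R (-log 2) p)
  rwa [R_cancel_neg] at this

lemma Cc_lt_R_neg {p : T1} (h0 : p ≠ 0) (h1 : p ≠ inf) : Cc p < Cc (R (-log 2) p) := by
  have := Cc_R_lt (p := R (-log 2) p) ?_ ?_
  · rwa [R_cancel_neg] at this
  · intro h
    apply h0
    rw [← R_cancel_neg (log 2) p, h, R_zero]
  · intro h
    apply h1
    rw [← R_cancel_neg (log 2) p, h, R_inf]

lemma phi_of_nonneg (x : ℕ → Bool) {p : T1} (h : 0 ≤ Cc p) : phi x p = 0 := by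
  rcases T1_cases p with rfl | ⟨u, rfl⟩
  · exact phi_inf x
  · apply phi_e_eq_zero
    left
    by_contra hu
    push Not at hu
    have : Cc (e u) < 0 := by
      rw [Cc_e, div_lt_iff₀ (by positivity)]; nlinarith
    linarith

lemma phi_of_le (x : ℕ → Bool) {p : T1} (h : Cc p ≤ -(3 / 5)) : phi x p = 0 := by
  rcases T1_cases p with rfl | ⟨u, rfl⟩
  · exact phi_inf x
  · apply phi_e_eq_zero
    by_contra hu
    push Not at hu
    have : -(3 / 5) < Cc (e u) := by
      rw [Cc_e, lt_div_iff₀ (by positivity)]; nlinarith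
    linarith

lemma fx_of_nonneg (x : ℕ → Bool) {z : T2} (h : 0 ≤ Cc z.1) :
    fx x z = (R (log 2) z.1, R (-log 2) z.2) := by
  unfold fx
  rw [phi_of_nonneg x h, cf_of_nonneg h]; simp

lemma fx_of_le (x : ℕ → Bool) {z : T2} (h : Cc z.1 ≤ -(3 / 5)) :
    fx x z = (R (log 2) z.1, R (log 2) z.2) := by
  unfold fx
  rw [phi_of_le x h, cf_of_le h]; simp

/-- the set of the four fixed points -/
def fixS : Set T2 := {z | (z.1 = 0 ∨ z.1 = inf) ∧ (z.2 = 0 ∨ z.2 = inf)}

lemma fx_fixS (x : ℕ → Bool) {z : T2} (hz : z ∈ fixS) : fx x z = z := by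
  obtain ⟨a, b⟩ := z
  obtain ⟨h1, h2⟩ := hz
  have hR : ∀ (t : ℝ) {p : T1}, (p = 0 ∨ p = inf) → R t p = p := by
    rintro t p (rfl | rfl)
    · exact R_zero t
    · exact R_inf t
  have hphi : phi x a = 0 := by
    rcases h1 with h | h
    · simp only at h; rw [h, ← e_zero]; exact phi_e_eq_zero x (Or.inl zero_le_one)
    · simp only at h; rw [h]; exact phi_inf x
  unfold fx
  simp only [hphi, AddCircle.coe_zero, add_zero]
  rw [hR _ h1, hR _ h2]

lemma Cc_iter_le (x : ℕ → Bool) (z : T2) (n : ℕ) : Cc ((fx x)^[n] z).1 ≤ Cc z.1 := by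
  induction n with
  | zero => exact le_rfl
  | succ n ih =>
    rw [Function.iterate_succ_apply']
    exact (Cc_R_le _).trans ih

lemma snd_iter_up (x : ℕ → Bool) (z : T2) (n : ℕ) (h : 0 < Cc ((fx x)^[n] z).1) :
    Cc z.2 ≤ Cc ((fx x)^[n] z).2 := by
  induction n with
  | zero => exact le_rfl
  | succ n ih =>
    rw [Function.iterate_succ_apply'] at h ⊢
    have h1 : 0 < Cc ((fx x)^[n] z).1 := h.trans_le (Cc_R_le _)
    rw [fx_of_nonneg x h1.le]
    exact (ih h1).trans (Cc_le_R_neg _)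

lemma snd_iter_down (x : ℕ → Bool) (z : T2) (n : ℕ) (h : Cc z.1 ≤ -(3 / 5)) :
    Cc ((fx x)^[n] z).2 ≤ Cc z.2 := by
  induction n with
  | zero => exact le_rfl
  | succ n ih =>
    rw [Function.iterate_succ_apply']
    have h1 : Cc ((fx x)^[n] z).1 ≤ -(3 / 5) := (Cc_iter_le x z n).trans h
    rw [fx_of_le x h1]
    exact (Cc_R_le _).trans ih

lemma nonwandering_sub (x : ℕ → Bool) : nonwandering (Phi x) ⊆ fixS := by
  intro z hz
  have key : ∀ U : Set T2, IsOpen U → z ∈ U → ∃ n : ℕ, 0 < n ∧ ∃ w ∈ U, (fx x)^[n] w ∈ U := by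
    intro U hU hzU
    obtain ⟨n, hn, w', ⟨w, hw, hww⟩, hw'⟩ := hz U hU hzU
    refine ⟨n, hn, w, hw, ?_⟩
    rw [← hww] at hw'
    exact hw'
  have hRc : Continuous (fun p : T1 => R (log 2) p) := contR continuous_const continuous_id
  have hRc' : Continuous (fun p : T1 => R (-log 2) p) := contR continuous_const continuous_id
  have hz1 : z.1 = 0 ∨ z.1 = inf := by
    by_contra hcon
    push Not at hcon
    obtain ⟨m, hm1, hm2⟩ := exists_between (Cc_R_lt hcon.1 hcon.2)
    obtain ⟨n, hn, w, hw, hw'⟩ := key {w | m < Cc w.1 ∧ Cc (R (log 2) w.1) < m}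
      ((isOpen_lt continuous_const (continuous_Cc.comp continuous_fst)).inter
        (isOpen_lt (continuous_Cc.comp (hRc.comp continuous_fst)) continuous_const)) ⟨hm2, hm1⟩
    obtain ⟨k, rfl⟩ : ∃ k, n = k + 1 := ⟨n - 1, by omega⟩
    rw [Function.iterate_succ_apply] at hw'
    have h1 := Cc_iter_le x (fx x w) k
    have h2 : Cc (fx x w).1 < m := hw.2
    exact absurd hw'.1 (not_lt.2 (h1.trans h2.le))
  refine ⟨hz1, ?_⟩
  by_contra hcon
  push Not at hcon
  rcases hz1 with h0 | h0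
  · obtain ⟨m, hm1, hm2⟩ := exists_between (Cc_lt_R_neg hcon.1 hcon.2)
    obtain ⟨n, hn, w, hw, hw'⟩ := key {w | 0 < Cc w.1 ∧ Cc w.2 < m ∧ m < Cc (R (-log 2) w.2)}
      ((isOpen_lt continuous_const (continuous_Cc.comp continuous_fst)).inter
        ((isOpen_lt (continuous_Cc.comp continuous_snd) continuous_const).inter
        (isOpen_lt continuous_const (continuous_Cc.comp (hRc'.comp continuous_snd)))))
        ⟨by rw [h0, ← e_zero, Cc_e]; norm_num, hm1, hm2⟩
    obtain ⟨k, rfl⟩ : ∃ k, n = k + 1 := ⟨n - 1, by omega⟩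
    rw [Function.iterate_succ_apply] at hw'
    have h1 := snd_iter_up x (fx x w) k hw'.1
    have h2 : m < Cc (fx x w).2 := by
      rw [fx_of_nonneg x hw.1.le]; exact hw.2.2
    exact absurd hw'.2.1 (not_lt.2 (h2.le.trans h1))
  · obtain ⟨m, hm1, hm2⟩ := exists_between (Cc_R_lt hcon.1 hcon.2)
    obtain ⟨n, hn, w, hw, hw'⟩ := key {w | Cc w.1 < -(3 / 5) ∧ m < Cc w.2 ∧ Cc (R (log 2) w.2) < m}
      ((isOpen_lt (continuous_Cc.comp continuous_fst) continuous_const).inter
        ((isOpen_lt continuous_const (continuous_Cc.comp continuous_snd)).inter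
        (isOpen_lt (continuous_Cc.comp (hRc.comp continuous_snd)) continuous_const)))
        ⟨by rw [h0, Cc_inf]; norm_num, hm2, hm1⟩
    obtain ⟨k, rfl⟩ : ∃ k, n = k + 1 := ⟨n - 1, by omega⟩
    rw [Function.iterate_succ_apply] at hw'
    have h3 : Cc (fx x w).1 ≤ -(3 / 5) := (Cc_R_le _).trans hw.1.le
    have h1 := snd_iter_down x (fx x w) k h3
    have h2 : Cc (fx x w).2 < m := by
      rw [fx_of_le x hw.1.le]; exact hw.2.2
    exact absurd hw'.2.1 (not_lt.2 (h1.trans h2.le))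

/-! ### Derivatives at the fixed points -/

lemma hasFDerivAt_prod_map {a b : ℝ} {f g : ℝ → ℝ} {P : ℝ × ℝ} (hf : HasDerivAt f a P.1)
    (hg : HasDerivAt g b P.2) : HasFDerivAt (fun z : ℝ × ℝ => (f z.1, g z.2)) (diag a b) P := by
  have h1 : HasFDerivAt (fun z : ℝ × ℝ => f z.1) (a • ContinuousLinearMap.fst ℝ ℝ ℝ) P := by
    exact hf.comp_hasFDerivAt P (hasFDerivAt_fst (𝕜 := ℝ) (p := P))
  have h2 : HasFDerivAt (fun z : ℝ × ℝ => g z.2) (b • ContinuousLinearMap.snd ℝ ℝ ℝ) P := by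
    exact hg.comp_hasFDerivAt P (hasFDerivAt_snd (𝕜 := ℝ) (p := P))
  exact h1.prodMk h2

lemma near_zero (x : ℕ → Bool) : ∀ᶠ s in 𝓝 (0 : ℝ), cl s = -log 2 ∧ phil x s = 0 := by
  have ho : IsOpen {s : ℝ | 0 < Cc (s : T1)} :=
    isOpen_lt continuous_const (continuous_Cc.comp continuous_coe)
  have hm : (0 : ℝ) ∈ {s : ℝ | 0 < Cc (s : T1)} := by
    change 0 < Cc ((0 : ℝ) : T1)
    rw [Cc_coe]; simp
  filter_upwards [ho.mem_nhds hm] with s hs
  rw [← cf_coe, ← phi_coe]
  have hs' : 0 ≤ Cc (s : T1) := le_of_lt hs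
  exact ⟨cf_of_nonneg hs', phi_of_nonneg x hs'⟩

lemma near_half (x : ℕ → Bool) : ∀ᶠ s in 𝓝 (1 / 2 : ℝ), cl s = log 2 ∧ phil x s = 0 := by
  have ho : IsOpen {s : ℝ | Cc (s : T1) < -(3 / 5)} :=
    isOpen_lt (continuous_Cc.comp continuous_coe) continuous_const
  have hm : (1 / 2 : ℝ) ∈ {s : ℝ | Cc (s : T1) < -(3 / 5)} := by
    change Cc inf < -(3 / 5)
    rw [Cc_inf]; norm_num
  filter_upwards [ho.mem_nhds hm] with s hs
  rw [← cf_coe, ← phi_coe]
  have hs' : Cc (s : T1) ≤ -(3 / 5) := le_of_lt hs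
  exact ⟨cf_of_le hs', phi_of_le x hs'⟩

lemma deriv_F (x : ℕ → Bool) {c a b : ℝ} {P : ℝ × ℝ}
    (h : ∀ᶠ s in 𝓝 P.1, cl s = c ∧ phil x s = 0)
    (ha : HasDerivAt (r (log 2)) a P.1) (hb : HasDerivAt (r c) b P.2) :
    HasFDerivAt (Fx x) (diag a b) P := by
  refine (hasFDerivAt_prod_map ha hb).congr_of_eventuallyEq ?_
  have h1 : ∀ᶠ z in 𝓝 P, cl z.1 = c ∧ phil x z.1 = 0 := continuousAt_fst.eventually h
  filter_upwards [h1] with z hz
  unfold Fx
  rw [hz.1, hz.2, add_zero]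

lemma deriv_G (x : ℕ → Bool) {c a b : ℝ} {P : ℝ × ℝ}
    (h : ∀ᶠ s in 𝓝 P.1, cl s = c ∧ phil x s = 0) (hfix : r (-log 2) P.1 = P.1)
    (ha : HasDerivAt (r (-log 2)) a P.1) (hb : HasDerivAt (r (-c)) b P.2) :
    HasFDerivAt (Gx x) (diag a b) P := by
  refine (hasFDerivAt_prod_map ha hb).congr_of_eventuallyEq ?_
  have hc : ContinuousAt (fun z : ℝ × ℝ => r (-log 2) z.1) P :=
    ((contDiff_r_const (-log 2)).continuous.comp continuous_fst).continuousAt
  have h1 : ∀ᶠ z in 𝓝 P, cl (r (-log 2) z.1) = c ∧ phil x (r (-log 2) z.1) = 0 := by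
    refine hc.eventually (p := fun s => cl s = c ∧ phil x s = 0) ?_
    change ∀ᶠ (y : ℝ) in 𝓝 (r (-log 2) P.1), cl y = c ∧ phil x y = 0
    rwa [hfix]
  filter_upwards [h1] with z hz
  unfold Gx
  rw [hz.1, hz.2, sub_zero]

open Classical in
/-- first multiplier -/
noncomputable def l1 (z : T2) : ℝ := if z.1 = inf then 1 / 2 else 2
open Classical in
/-- second multiplier -/
noncomputable def l2 (z : T2) : ℝ := if z.1 = z.2 then 1 / 2 else 2

lemma exp_neg_log_two' : exp (-log 2) = 1 / 2 := exp_neg_log_two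

lemma derivs (x : ℕ → Bool) {z : T2} (hz : z ∈ fixS) :
    ∃ P : ℝ × ℝ, proj P = z ∧ Fx x P = P ∧ Gx x P = P ∧ HasFDerivAt (Fx x) (diag (l1 z) (l2 z)) P ∧
      HasFDerivAt (Gx x) (diag (l1 z)⁻¹ (l2 z)⁻¹) P := by
  obtain ⟨a, b⟩ := z
  obtain ⟨h1, h2⟩ := hz
  simp only at h1 h2
  have hr0 : ∀ t, HasDerivAt (r t) (exp t) 0 := hasDerivAt_r_zero
  have hr1 : ∀ t, HasDerivAt (r t) (exp (-t)) (1 / 2) := hasDerivAt_r_half
  have e1 : exp (log 2) = 2 := exp_log_two
  have e2 : exp (-log 2) = 1 / 2 := exp_neg_log_two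
  have hz0 := (near_zero x).self_of_nhds
  have hz1 := (near_half x).self_of_nhds
  have hi0 := inf_ne_zero
  rcases h1 with rfl | rfl <;> rcases h2 with rfl | rfl
  · have hl1 : l1 ((0 : T1), (0 : T1)) = 2 := by unfold l1; rw [if_neg]; exact fun h => hi0 h.symm
    have hl2 : l2 ((0 : T1), (0 : T1)) = 1 / 2 := by unfold l2; rw [if_pos rfl]
    refine ⟨(0, 0), ?_, ?_, ?_, ?_, ?_⟩
    · simp [proj]
    · unfold Fx; simp only [hz0.2, r_zero_right]; simp
    · unfold Gx; simp only [r_zero_right, hz0.2, sub_zero]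
    · rw [hl1, hl2]
      refine deriv_F x (near_zero x) ?_ ?_
      · simpa only [e1] using hr0 (log 2)
      · simpa only [e2] using hr0 (-log 2)
    · rw [hl1, hl2]
      refine deriv_G x (near_zero x) (r_zero_right _) ?_ ?_
      · refine (hr0 (-log 2)).congr_deriv ?_
        rw [e2]; norm_num
      · refine (hr0 (- -log 2)).congr_deriv ?_
        rw [neg_neg, e1]; norm_num
  · have hl1 : l1 ((0 : T1), inf) = 2 := by unfold l1; rw [if_neg]; exact fun h => hi0 h.symm
    have hl2 : l2 ((0 : T1), inf) = 2 := by unfold l2; rw [if_neg]; exact fun h => hi0 h.symm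
    refine ⟨(0, 1 / 2), ?_, ?_, ?_, ?_, ?_⟩
    · simp [proj, inf]
    · unfold Fx; simp only [hz0.2, r_zero_right, r_half]; simp
    · unfold Gx; simp only [r_zero_right, hz0.2, sub_zero, r_half]
    · rw [hl1, hl2]
      refine deriv_F x (near_zero x) ?_ ?_
      · simpa only [e1] using hr0 (log 2)
      · refine (hr1 (-log 2)).congr_deriv ?_
        rw [neg_neg, e1]
    · rw [hl1, hl2]
      refine deriv_G x (near_zero x) (r_zero_right _) ?_ ?_
      · refine (hr0 (-log 2)).congr_deriv ?_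
        rw [e2]; norm_num
      · refine (hr1 (- -log 2)).congr_deriv ?_
        rw [neg_neg, e2]; norm_num
  · have hl1 : l1 (inf, (0 : T1)) = 1 / 2 := by unfold l1; rw [if_pos rfl]
    have hl2 : l2 (inf, (0 : T1)) = 2 := by unfold l2; rw [if_neg]; exact hi0
    refine ⟨(1 / 2, 0), ?_, ?_, ?_, ?_, ?_⟩
    · simp [proj, inf]
    · unfold Fx; simp only [hz1.2, r_zero_right, r_half]; simp
    · unfold Gx; simp only [r_zero_right, hz1.2, sub_zero, r_half]
    · rw [hl1, hl2]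
      refine deriv_F x (near_half x) ?_ ?_
      · refine (hr1 (log 2)).congr_deriv ?_
        rw [e2]
      · simpa only [e1] using hr0 (log 2)
    · rw [hl1, hl2]
      refine deriv_G x (near_half x) (r_half _) ?_ ?_
      · refine (hr1 (-log 2)).congr_deriv ?_
        rw [neg_neg, e1]; norm_num
      · refine (hr0 (-log 2)).congr_deriv ?_
        rw [e2]; norm_num
  · have hl1 : l1 (inf, inf) = 1 / 2 := by unfold l1; rw [if_pos rfl]
    have hl2 : l2 (inf, inf) = 1 / 2 := by unfold l2; rw [if_pos rfl]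
    refine ⟨(1 / 2, 1 / 2), ?_, ?_, ?_, ?_, ?_⟩
    · simp [proj, inf]
    · unfold Fx; simp only [hz1.2, r_half]; simp
    · unfold Gx; simp only [r_half, hz1.2, sub_zero]
    · rw [hl1, hl2]
      refine deriv_F x (near_half x) ?_ ?_
      · refine (hr1 (log 2)).congr_deriv ?_
        rw [e2]
      · refine (hr1 (log 2)).congr_deriv ?_
        rw [e2]
    · rw [hl1, hl2]
      refine deriv_G x (near_half x) (r_half _) ?_ ?_
      · refine (hr1 (-log 2)).congr_deriv ?_
        rw [neg_neg, e1]; norm_num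
      · refine (hr1 (-log 2)).congr_deriv ?_
        rw [neg_neg, e1]; norm_num

/-- stable spaces -/
def Es (z : T2) : Submodule ℝ (ℝ × ℝ) where
  carrier := {v | (z.1 ≠ inf → v.1 = 0) ∧ (z.1 ≠ z.2 → v.2 = 0)}
  zero_mem' := by simp
  add_mem' := by
    rintro a b ⟨h1, h2⟩ ⟨h3, h4⟩
    exact ⟨fun h => by simp [h1 h, h3 h], fun h => by simp [h2 h, h4 h]⟩
  smul_mem' := by
    rintro c a ⟨h1, h2⟩
    exact ⟨fun h => by simp [h1 h], fun h => by simp [h2 h]⟩

/-- unstable spaces -/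
def Eu (z : T2) : Submodule ℝ (ℝ × ℝ) where
  carrier := {v | (z.1 = inf → v.1 = 0) ∧ (z.1 = z.2 → v.2 = 0)}
  zero_mem' := by simp
  add_mem' := by
    rintro a b ⟨h1, h2⟩ ⟨h3, h4⟩
    exact ⟨fun h => by simp [h1 h, h3 h], fun h => by simp [h2 h, h4 h]⟩
  smul_mem' := by
    rintro c a ⟨h1, h2⟩
    exact ⟨fun h => by simp [h1 h], fun h => by simp [h2 h]⟩

lemma mem_Es {z : T2} {v : ℝ × ℝ} :
    v ∈ Es z ↔ (z.1 ≠ inf → v.1 = 0) ∧ (z.1 ≠ z.2 → v.2 = 0) := Iff.rfl
lemma mem_Eu {z : T2} {v : ℝ × ℝ} :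
    v ∈ Eu z ↔ (z.1 = inf → v.1 = 0) ∧ (z.1 = z.2 → v.2 = 0) := Iff.rfl

lemma isCompl_Es_Eu (z : T2) : IsCompl (Es z) (Eu z) := by
  rw [isCompl_iff, Submodule.disjoint_def, Submodule.codisjoint_iff_exists_add_eq]
  constructor
  · intro v h1 h2
    rw [mem_Es] at h1
    rw [mem_Eu] at h2
    ext
    · by_cases h : z.1 = inf
      · exact h2.1 h
      · exact h1.1 h
    · by_cases h : z.1 = z.2
      · exact h2.2 h
      · exact h1.2 h
  · intro v
    classical
    refine ⟨(if z.1 = inf then v.1 else 0, if z.1 = z.2 then v.2 else 0),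
      (if z.1 = inf then 0 else v.1, if z.1 = z.2 then 0 else v.2), ?_, ?_, ?_⟩
    · rw [mem_Es]
      exact ⟨fun h => by simp [h], fun h => by simp [h]⟩
    · rw [mem_Eu]
      exact ⟨fun h => by simp [h], fun h => by simp [h]⟩
    · ext <;> simp <;> split_ifs <;> simp

lemma map_diag_eq {a b : ℝ} (ha : a ≠ 0) (hb : b ≠ 0) (S : Submodule ℝ (ℝ × ℝ))
    (hS : ∀ (c d : ℝ) (v : ℝ × ℝ), v ∈ S → (c * v.1, d * v.2) ∈ S) :
    S.map (diag a b).toLinearMap = S := by
  apply le_antisymm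
  · rintro w ⟨v, hv, rfl⟩
    have := hS a b v hv
    simpa using this
  · intro w hw
    refine ⟨(a⁻¹ * w.1, b⁻¹ * w.2), hS _ _ _ hw, ?_⟩
    have : diag a b (a⁻¹ * w.1, b⁻¹ * w.2) = w := by
      rw [diag_apply]
      ext
      · simp only; rw [← mul_assoc, mul_inv_cancel₀ ha, one_mul]
      · simp only; rw [← mul_assoc, mul_inv_cancel₀ hb, one_mul]
    exact this

lemma norm_diag_le {a b c : ℝ} (v : ℝ × ℝ) (hc : 0 ≤ c) (h1 : v.1 = 0 ∨ |a| ≤ c)
    (h2 : v.2 = 0 ∨ |b| ≤ c) : ‖diag a b v‖ ≤ c * ‖v‖ := by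
  rw [diag_apply, Prod.norm_def, Prod.norm_def]
  simp only [norm_mul, Real.norm_eq_abs]
  have h0 : 0 ≤ max |v.1| |v.2| := le_max_of_le_left (abs_nonneg _)
  apply max_le
  · rcases h1 with h | h
    · rw [h, abs_zero, mul_zero]; exact mul_nonneg hc (by rw [h, abs_zero] at h0; exact h0)
    · exact mul_le_mul h (le_max_left _ _) (abs_nonneg _) hc
  · rcases h2 with h | h
    · rw [h, abs_zero, mul_zero]; exact mul_nonneg hc (by rw [h, abs_zero] at h0; exact h0)
    · exact mul_le_mul h (le_max_right _ _) (abs_nonneg _) hc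

theorem axiomA_Phi (x : ℕ → Bool) : AxiomA (Phi x) := by
  classical
  have hsub := nonwandering_sub x
  constructor
  · refine ⟨1, 1 / 2, Es, Eu, one_pos, by norm_num, by norm_num, ?_⟩
    intro z hz
    have hz' := hsub hz
    obtain ⟨P, hP, hF, hG, hdF, hdG⟩ := derivs x hz'
    have hD : ∀ n : ℕ, tderiv (fx x)^[n] z = diag (l1 z ^ n) (l2 z ^ n) := by
      intro n
      rw [← diag_pow]
      have := (hasTDerivAt_iterate (fx_proj x) hF hdF n).tderiv_eq
      rwa [hP] at this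
    have hD' : ∀ n : ℕ, tderiv (gx x)^[n] z = diag ((l1 z)⁻¹ ^ n) ((l2 z)⁻¹ ^ n) := by
      intro n
      rw [← diag_pow]
      have := (hasTDerivAt_iterate (gx_proj x) hG hdG n).tderiv_eq
      rwa [hP] at this
    have hD1 : tderiv (Phi x).toEquiv z = diag (l1 z) (l2 z) := by
      have := hD 1
      rw [pow_one, pow_one, Function.iterate_one] at this
      exact this
    have hfz : (Phi x).toEquiv z = z := fx_fixS x hz'
    have hl1 : l1 z ≠ 0 := by unfold l1; split_ifs <;> norm_num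
    have hl2 : l2 z ≠ 0 := by unfold l2; split_ifs <;> norm_num
    refine ⟨isCompl_Es_Eu z, ?_, ?_, ?_⟩
    · rw [hD1, hfz]
      apply map_diag_eq hl1 hl2
      rintro c d v ⟨h1, h2⟩
      exact ⟨fun h => by simp [h1 h], fun h => by simp [h2 h]⟩
    · rw [hD1, hfz]
      apply map_diag_eq hl1 hl2
      rintro c d v ⟨h1, h2⟩
      exact ⟨fun h => by simp [h1 h], fun h => by simp [h2 h]⟩
    · intro n
      constructor
      · rintro v ⟨h1, h2⟩
        change ‖tderiv (fx x)^[n] z v‖ ≤ _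
        rw [hD n, one_mul]
        apply norm_diag_le v (by positivity)
        · by_cases h : z.1 = inf
          · right; unfold l1; rw [if_pos h, abs_of_pos (by positivity)]
          · left; exact h1 h
        · by_cases h : z.1 = z.2
          · right; unfold l2; rw [if_pos h, abs_of_pos (by positivity)]
          · left; exact h2 h
      · rintro v ⟨h1, h2⟩
        change ‖tderiv (gx x)^[n] z v‖ ≤ _
        rw [hD' n, one_mul]
        apply norm_diag_le v (by positivity)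
        · by_cases h : z.1 = inf
          · left; exact h1 h
          · right; unfold l1; rw [if_neg h, abs_of_pos (by positivity), one_div]
        · by_cases h : z.1 = z.2
          · left; exact h2 h
          · right; unfold l2; rw [if_neg h, abs_of_pos (by positivity), one_div]
  · intro z hz
    apply subset_closure
    refine ⟨hz, 1, one_pos, ?_⟩
    change (fx x)^[1] z = z
    rw [Function.iterate_one]
    exact fx_fixS x (hsub hz)

end Pool.MP_e91f84_lc
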