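import Mathlib
import Pool.Agent.Work.MP_e91f84_lc.AxA

set_option autoImplicit false

open Filter Topology Set Real
open scoped ContDiff

namespace Pool.MP_e91f84_lc

/-- trapezoid -/
noncomputable def chi (a w : ℝ) : ℝ :=
  max 0 (min 1 (min ((w - a / 3) * (3 / a)) ((1 / 4 - w) * 8)))

lemma continuous_chi (a : ℝ) : Continuous (chi a) := by
  unfold chi; fun_prop

lemma chi_nonneg (a w : ℝ) : 0 ≤ chi a w := le_max_left _ _
lemma chi_le_one (a w : ℝ) : chi a w ≤ 1 := max_le zero_le_one (min_le_left _ _)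

lemma chi_zero_left {a w : ℝ} (ha : 0 < a) (h : w ≤ a / 3) : chi a w = 0 := by
  unfold chi
  apply max_eq_left
  refine (min_le_right _ _).trans ((min_le_left _ _).trans ?_)
  exact mul_nonpos_of_nonpos_of_nonneg (by linarith) (by positivity)

lemma chi_zero_right {a w : ℝ} (h : 1 / 4 ≤ w) : chi a w = 0 := by
  unfold chi
  apply max_eq_left
  refine (min_le_right _ _).trans ((min_le_right _ _).trans ?_)
  linarith

lemma chi_one {a w : ℝ} (ha : 0 < a) (h1 : 2 * a / 3 ≤ w) (h2 : w ≤ 1 / 8) : chi a w = 1 := by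
  unfold chi
  have h3 : 1 ≤ (w - a / 3) * (3 / a) := by
    rw [← mul_div_assoc, le_div_iff₀ ha]; linarith
  have h4 : 1 ≤ (1 / 4 - w) * 8 := by linarith
  rw [min_eq_left (le_min h3 h4), max_eq_right zero_le_one]

lemma chi_lip {a w w' : ℝ} (ha : 0 < a) (h : w ≤ w') : chi a w ≤ chi a w' + 8 * (w' - w) := by
  have hd : 0 ≤ 8 * (w' - w) := by linarith
  have h0 := chi_nonneg a w'
  unfold chi at h0 ⊢
  apply max_le
  · linarith
  · refine le_trans ?_ (add_le_add_left (le_max_right 0 _) _)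
    rw [min_add, min_add]
    refine min_le_min (by linarith) (min_le_min ?_ ?_)
    · have : (w - a / 3) * (3 / a) ≤ (w' - a / 3) * (3 / a) :=
        mul_le_mul_of_nonneg_right (by linarith) (by positivity)
      linarith
    · linarith

/-- lifted fibre map -/
noncomputable def tl (a d w : ℝ) : ℝ := w + d * chi a w

lemma tl_lt {a d w w' : ℝ} (ha : 0 < a) (hd0 : 0 ≤ d) (hd : d ≤ 1 / 32) (h : w < w') :
    tl a d w < tl a d w' := by
  unfold tl
  have h1 := chi_lip ha h.le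
  have h2 : d * chi a w ≤ d * (chi a w' + 8 * (w' - w)) := mul_le_mul_of_nonneg_left h1 hd0
  have h3 : d * (8 * (w' - w)) ≤ 1 / 32 * (8 * (w' - w)) :=
    mul_le_mul_of_nonneg_right hd (by linarith)
  nlinarith

lemma continuous_tl (a d : ℝ) : Continuous (tl a d) :=
  continuous_id.add (continuous_const.mul (continuous_chi a))

lemma tl_neg_half {a d : ℝ} (ha : 0 < a) : tl a d (-(1 / 2)) = -(1 / 2) := by
  unfold tl; rw [chi_zero_left ha (by linarith)]; simp

lemma tl_half {a d : ℝ} : tl a d (1 / 2) = 1 / 2 := by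
  unfold tl; rw [chi_zero_right (by norm_num)]; simp

/-- the trapezoid on the circle -/
noncomputable def chic (a : ℝ) (p : T1) : ℝ := AddCircle.liftIco (1 : ℝ) (-(1 / 2)) (chi a) p

lemma chic_coe {a w : ℝ} (h1 : -(1 / 2) ≤ w) (h2 : w < 1 / 2) : chic a (w : T1) = chi a w := by
  unfold chic
  exact AddCircle.liftIco_coe_apply ⟨h1, by linarith⟩

lemma continuous_chic {a : ℝ} (ha : 0 < a) : Continuous (chic a) := by
  unfold chic
  refine AddCircle.liftIco_continuous ?_ (continuous_chi a).continuousOn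
  rw [chi_zero_left ha (by linarith), chi_zero_right (by norm_num)]

/-- fibre map -/
noncomputable def tc (a d : ℝ) (p : T1) : T1 := p + ((d * chic a p : ℝ) : T1)

lemma tc_coe {a d w : ℝ} (h1 : -(1 / 2) ≤ w) (h2 : w < 1 / 2) :
    tc a d (w : T1) = ((tl a d w : ℝ) : T1) := by
  unfold tc tl; rw [chic_coe h1 h2, AddCircle.coe_add]

lemma exists_rep (p : T1) : ∃ w : ℝ, -(1 / 2) ≤ w ∧ w < 1 / 2 ∧ (w : T1) = p := by
  have := AddCircle.coe_image_Ico_eq (1 : ℝ) (-(1 / 2))
  have h2 : p ∈ ((↑) : ℝ → T1) '' Ico (-(1 / 2) : ℝ) (-(1 / 2) + 1) := by rw [this]; trivial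
  obtain ⟨s, h, h'⟩ := h2
  exact ⟨s, h.1, by linarith [h.2], h'⟩

lemma coe_inj_of_mem {v w : ℝ} (h1 : -(1 / 2) ≤ v) (h2 : v < 1 / 2) (h3 : -(1 / 2) ≤ w)
    (h4 : w < 1 / 2) (h : (v : T1) = (w : T1)) : v = w := by
  obtain ⟨n, hn⟩ := (coe_eq_iff' v w).1 h
  have h5 : |(n : ℝ)| < 1 := by rw [← hn, abs_lt]; constructor <;> linarith
  have h6 : n = 0 := Int.abs_lt_one_iff.1 (by exact_mod_cast h5)
  rw [h6] at hn
  push_cast at hn
  linarith

lemma tl_mem {a d w : ℝ} (ha : 0 < a) (hd0 : 0 ≤ d) (hd : d ≤ 1 / 32) (h1 : -(1 / 2) ≤ w)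
    (h2 : w < 1 / 2) : -(1 / 2) ≤ tl a d w ∧ tl a d w < 1 / 2 := by
  constructor
  · rcases eq_or_lt_of_le h1 with h | h
    · rw [← h, tl_neg_half ha]
    · have := tl_lt ha hd0 hd h
      rw [tl_neg_half ha] at this
      exact this.le
  · have := tl_lt ha hd0 hd h2
    rwa [tl_half] at this

lemma tc_injective {a d : ℝ} (ha : 0 < a) (hd0 : 0 ≤ d) (hd : d ≤ 1 / 32) :
    Function.Injective (tc a d) := by
  intro p q h
  obtain ⟨v, hv1, hv2, rfl⟩ := exists_rep p
  obtain ⟨w, hw1, hw2, rfl⟩ := exists_rep q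
  rw [tc_coe hv1 hv2, tc_coe hw1 hw2] at h
  have hv := tl_mem ha hd0 hd hv1 hv2
  have hw := tl_mem ha hd0 hd hw1 hw2
  have h3 := coe_inj_of_mem hv.1 hv.2 hw.1 hw.2 h
  rcases lt_trichotomy v w with h' | h' | h'
  · exact absurd h3 (tl_lt ha hd0 hd h').ne
  · rw [h']
  · exact absurd h3 (tl_lt ha hd0 hd h').ne'

lemma tc_surjective {a d : ℝ} (ha : 0 < a) : Function.Surjective (tc a d) := by
  intro p
  obtain ⟨v, hv1, hv2, rfl⟩ := exists_rep p
  have h := intermediate_value_Icc (a := -(1 / 2 : ℝ)) (b := 1 / 2) (by norm_num)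
    (continuous_tl a d).continuousOn
  rw [tl_neg_half ha, tl_half] at h
  obtain ⟨w, hw, hwv⟩ := h ⟨hv1, hv2.le⟩
  have hw2 : w < 1 / 2 := by
    refine lt_of_le_of_ne hw.2 ?_
    rintro rfl
    rw [tl_half] at hwv
    exact hv2.ne hwv.symm
  exact ⟨(w : T1), by rw [tc_coe hw.1 hw2, hwv]⟩

/-- size of the translation -/
noncomputable def Dn (n : ℕ) (s : T1) : ℝ := Bs n * gc n (R (-log 2) s)

lemma Dn_nonneg (n : ℕ) (s : T1) : 0 ≤ Dn n s := mul_nonneg (Bs_pos n).le (gc_nonneg _ _)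

lemma Dn_le (n : ℕ) (s : T1) : Dn n s ≤ 1 / 32 := by
  have h1 : Dn n s ≤ Bs n := mul_le_of_le_one_right (Bs_pos n).le (gc_le_one _ _)
  have h2 := Bs_le n
  have h3 := pow_half_le_one n
  linarith

/-- the basic map -/
noncomputable def tm (n : ℕ) (z : T2) : T2 := (z.1, tc (As n) (Dn n z.1) z.2)

lemma continuous_Dn (n : ℕ) : Continuous (Dn n) := by
  unfold Dn
  exact continuous_const.mul ((continuous_gc n).comp (contR continuous_const continuous_id))

lemma continuous_tm (n : ℕ) : Continuous (tm n) := by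
  unfold tm tc
  refine continuous_fst.prodMk (continuous_snd.add ?_)
  exact continuous_coe.comp (((continuous_Dn n).comp continuous_fst).mul
    ((continuous_chic (As_pos n)).comp continuous_snd))

lemma tm_bijective (n : ℕ) : Function.Bijective (tm n) := by
  constructor
  · rintro ⟨a, b⟩ ⟨a', b'⟩ h
    have h1 : a = a' := congrArg Prod.fst h
    subst h1
    have h2 : tc (As n) (Dn n a) b = tc (As n) (Dn n a) b' := congrArg Prod.snd h
    rw [tc_injective (As_pos n) (Dn_nonneg n a) (Dn_le n a) h2]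
  · rintro ⟨a, b⟩
    obtain ⟨c, hc⟩ := tc_surjective (a := As n) (d := Dn n a) (As_pos n) b
    exact ⟨(a, c), by unfold tm; rw [hc]⟩

/-- the basic homeomorphism -/
noncomputable def TH (n : ℕ) : T2 ≃ₜ T2 :=
  Continuous.homeoOfEquivCompactToT2 (f := Equiv.ofBijective (tm n) (tm_bijective n))
    (continuous_tm n)

lemma TH_apply (n : ℕ) (z : T2) : TH n z = tm n z := rfl

/-- `fx` as a homeomorphism -/
noncomputable def FH (x : ℕ → Bool) : T2 ≃ₜ T2 where
  toFun := fx x
  invFun := gx x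
  left_inv := gx_fx x
  right_inv := fx_gx x
  continuous_toFun := continuous_fx x
  continuous_invFun := continuous_gx x

lemma FH_apply (x : ℕ → Bool) (z : T2) : FH x z = fx x z := rfl

end Pool.MP_e91f84_lc
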