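import Mathlib
import Pool.Agent.Work.MP_e91f84_lc.Conj

set_option autoImplicit false

open Filter Topology Set Real
open scoped ContDiff

namespace Pool.MP_e91f84_lc

lemma fst_FH_zpow (x : ℕ → Bool) (k : ℤ) (z : T2) : ((FH x ^ k) z).1 = R (k * log 2) z.1 := by
  induction k using Int.induction_on generalizing z with
  | zero => simp [R_zero_left]
  | succ i ih =>
    rw [zpow_add_one, Homeomorph.mul_apply, ih, FH_apply]
    unfold fx
    simp only [R_add]
    congr 1; push_cast; ring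
  | pred i ih =>
    rw [zpow_sub_one, Homeomorph.mul_apply, ih]
    change R _ (gx x z).1 = _
    unfold gx
    simp only [R_add]
    congr 1; push_cast; ring

/-- pieces of the conjugacy -/
noncomputable def Pk (n : ℕ) (x y : ℕ → Bool) (j : ℤ) : T2 ≃ₜ T2 :=
  FH y ^ j * TH n * (FH x ^ j)⁻¹

lemma Pk_succ (n : ℕ) (x y : ℕ → Bool) (j : ℤ) :
    Pk n x y (j + 1) = FH y * Pk n x y j * (FH x)⁻¹ := by
  unfold Pk
  rw [add_comm j 1, zpow_one_add, zpow_one_add, mul_inv_rev]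
  simp only [mul_assoc]

lemma fst_inv_of {h : T2 ≃ₜ T2} (hh : ∀ z, (h z).1 = z.1) (z : T2) : (h⁻¹ z).1 = z.1 := by
  have := hh (h⁻¹ z)
  rw [← Homeomorph.mul_apply, mul_inv_cancel, Homeomorph.one_apply] at this
  exact this.symm

lemma fst_Pk (n : ℕ) (x y : ℕ → Bool) (j : ℤ) (z : T2) : (Pk n x y j z).1 = z.1 := by
  unfold Pk
  rw [Homeomorph.mul_apply, Homeomorph.mul_apply, fst_FH_zpow, TH_apply]
  unfold tm
  simp only
  rw [← zpow_neg, fst_FH_zpow, R_add]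
  push_cast
  have : (j : ℝ) * log 2 + -j * log 2 = 0 := by ring
  rw [this, R_zero_left]

/-- dyadic level -/
noncomputable def lev (u : ℝ) : ℤ :=
  if h : 0 < u then Classical.choose (exists_mem_Ico_zpow h one_lt_two) else 0

lemma lev_spec {u : ℝ} (h : 0 < u) : u ∈ Ico ((2 : ℝ) ^ lev u) (2 ^ (lev u + 1)) := by
  unfold lev
  rw [dif_pos h]
  exact Classical.choose_spec (exists_mem_Ico_zpow h one_lt_two)

lemma lev_eq {u : ℝ} {j : ℤ} (h : u ∈ Ico ((2 : ℝ) ^ j) (2 ^ (j + 1))) : lev u = j := by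
  have hu : 0 < u := lt_of_lt_of_le (zpow_pos two_pos _) h.1
  have h2 := lev_spec hu
  have h3 : (2 : ℝ) ^ lev u < 2 ^ (j + 1) := h2.1.trans_lt h.2
  have h4 : (2 : ℝ) ^ j < 2 ^ (lev u + 1) := h.1.trans_lt h2.2
  rw [zpow_lt_zpow_iff_right₀ one_lt_two] at h3 h4
  omega

open Classical in
/-- the piece at `s` -/
noncomputable def piece (n : ℕ) (x y : ℕ → Bool) (s : T1) : T2 ≃ₜ T2 :=
  if s ≠ inf ∧ 0 < uu s then Pk n x y (lev (uu s) - 1) else 1

lemma piece_e {n : ℕ} {x y : ℕ → Bool} {u : ℝ} {j : ℤ}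
    (h : u ∈ Ico ((2 : ℝ) ^ (j + 1)) (2 ^ (j + 1 + 1))) : piece n x y (e u) = Pk n x y j := by
  have hu : 0 < u := lt_of_lt_of_le (zpow_pos two_pos _) h.1
  unfold piece
  rw [if_pos ⟨e_ne_inf u, by rwa [uu_e]⟩, uu_e, lev_eq h]
  congr 1; ring

lemma piece_e_nonpos {n : ℕ} {x y : ℕ → Bool} {u : ℝ} (h : u ≤ 0) : piece n x y (e u) = 1 := by
  unfold piece
  rw [if_neg]
  rw [uu_e]
  exact fun h' => absurd h'.2 (not_lt.2 h)

lemma piece_inf {n : ℕ} {x y : ℕ → Bool} : piece n x y inf = 1 := by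
  unfold piece
  rw [if_neg]
  exact fun h' => h'.1 rfl

lemma fst_piece (n : ℕ) (x y : ℕ → Bool) (s : T1) (z : T2) : (piece n x y s z).1 = z.1 := by
  unfold piece
  split_ifs
  · exact fst_Pk _ _ _ _ _
  · rfl

/-- the conjugacy -/
noncomputable def psi (n : ℕ) (x y : ℕ → Bool) (z : T2) : T2 := piece n x y z.1 z

lemma fst_psi (n : ℕ) (x y : ℕ → Bool) (z : T2) : (psi n x y z).1 = z.1 := fst_piece _ _ _ _ _

lemma psi_bijective (n : ℕ) (x y : ℕ → Bool) : Function.Bijective (psi n x y) := by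
  constructor
  · intro z z' h
    have h1 : z.1 = z'.1 := by rw [← fst_psi n x y z, h, fst_psi]
    unfold psi at h
    rw [h1] at h
    exact (piece n x y z'.1).injective h
  · intro w
    refine ⟨(piece n x y w.1)⁻¹ w, ?_⟩
    have h1 : ((piece n x y w.1)⁻¹ w).1 = w.1 := fst_inv_of (fst_piece n x y w.1) w
    unfold psi
    rw [h1, ← Homeomorph.mul_apply, mul_inv_cancel, Homeomorph.one_apply]

lemma exists_lev {u : ℝ} (h : 0 < u) : ∃ j : ℤ, u ∈ Ico ((2 : ℝ) ^ (j + 1)) (2 ^ (j + 1 + 1)) := by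
  obtain ⟨k, hk⟩ := exists_mem_Ico_zpow h one_lt_two
  refine ⟨k - 1, ?_⟩
  rw [sub_add_cancel]
  exact hk

lemma R_log_two_e (u : ℝ) : R (log 2) (e u) = e (2 * u) := by rw [R_e, exp_log_two]

lemma R_neg_log_two_e (u : ℝ) : R (-log 2) (e u) = e (u / 2) := by
  rw [R_e, exp_neg_log_two]; congr 1; ring

lemma two_mul_mem {u : ℝ} {j : ℤ} :
    2 * u ∈ Ico ((2 : ℝ) ^ (j + 1)) (2 ^ (j + 1 + 1)) ↔ u ∈ Ico ((2 : ℝ) ^ j) (2 ^ (j + 1)) := by
  have h2 : (2 : ℝ) ≠ 0 := two_ne_zero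
  rw [mem_Ico, mem_Ico, zpow_add_one₀ h2 (j + 1), zpow_add_one₀ h2 j]
  constructor
  · rintro ⟨h1, h3⟩; constructor <;> linarith
  · rintro ⟨h1, h3⟩; constructor <;> linarith

/-- the flip hypotheses -/
structure Flip (n : ℕ) (x y : ℕ → Bool) : Prop where
  hx : x n = false
  hy : y n = true
  hxy : ∀ m, m ≠ n → x m = y m

section flip

variable {n : ℕ} {x y : ℕ → Bool} (H : Flip n x y)
include H

lemma Flip.phi_eq (p : T1) : phi y p = phi x p + Bs n * gc n p := phi_flip H.hx H.hy H.hxy p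

lemma Flip.fy_eq_fx {z : T2} (h : gc n z.1 = 0) : fx y z = fx x z := by
  unfold fx
  rw [H.phi_eq, h, mul_zero, add_zero]

omit H in
lemma gc_e_eq_zero {v : ℝ} (h : v ∉ Ioo (la n) (lb n)) : gc n (e v) = 0 := by
  by_contra hne
  have h1 := (gc_ne_zero hne).1
  have h2 : bc n (e v) ≠ 0 := by rw [h1]; exact one_ne_zero
  obtain ⟨w, hw, hvw⟩ := (bc_ne_zero_iff n _).1 h2
  rw [e_inj] at hvw
  rw [hvw] at h
  exact h hw

omit H in
lemma gc_inf : gc n inf = 0 := by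
  by_contra hne
  have h1 := (gc_ne_zero hne).1
  have h2 : bc n inf ≠ 0 := by rw [h1]; exact one_ne_zero
  obtain ⟨w, hw, hvw⟩ := (bc_ne_zero_iff n _).1 h2
  exact e_ne_inf w hvw.symm

omit H in
lemma gc_e_of_le_one {v : ℝ} (h : v ≤ 1) : gc n (e v) = 0 := by
  apply gc_e_eq_zero
  intro hv
  linarith [la_gt_one n, hv.1]

omit H in
lemma gc_e_of_two_le {v : ℝ} (h : 2 ≤ v) : gc n (e v) = 0 := by
  apply gc_e_eq_zero
  intro hv
  linarith [lb_lt_two n, hv.2]

lemma Flip.psi_conj (z : T2) : psi n x y (fx x z) = fx y (psi n x y z) := by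
  obtain ⟨s, w⟩ := z
  have hfst : (fx x (s, w)).1 = R (log 2) s := rfl
  rcases T1_cases s with rfl | ⟨u, rfl⟩
  · unfold psi
    rw [hfst, R_inf]
    simp only [piece_inf, Homeomorph.one_apply]
    exact (H.fy_eq_fx (z := (inf, w)) gc_inf).symm
  · rcases le_or_gt u 0 with hu | hu
    · unfold psi
      rw [hfst, R_log_two_e, piece_e_nonpos (by linarith)]
      simp only [piece_e_nonpos hu, Homeomorph.one_apply]
      exact (H.fy_eq_fx (z := (e u, w)) (gc_e_of_le_one (by linarith))).symm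
    · obtain ⟨j, hj⟩ := exists_lev hu
      unfold psi
      rw [hfst, R_log_two_e, piece_e (two_mul_mem.2 hj)]
      simp only [piece_e hj]
      rw [Pk_succ, Homeomorph.mul_apply, Homeomorph.mul_apply]
      have : (FH x)⁻¹ (fx x (e u, w)) = (e u, w) := gx_fx x _
      rw [this]
      rfl

end flip

end Pool.MP_e91f84_lc
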