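import Mathlib
import Pool.Agent.Work.MP_e91f84_lc.Conj2

set_option autoImplicit false

open Filter Topology Set Real
open scoped ContDiff

namespace Pool.MP_e91f84_lc

/-- an arc around `0` -/
def Gk (κ : ℝ) (p : T1) : Prop := 1 - Cc p < κ * (1 + Cc p)

lemma Gk_e {κ v : ℝ} : Gk κ (e v) ↔ v ^ 2 < κ := by
  unfold Gk
  rw [Cc_e]
  have h : 0 < 1 + v ^ 2 := by positivity
  have h1 : 1 - (1 - v ^ 2) / (1 + v ^ 2) = 2 * v ^ 2 / (1 + v ^ 2) := by field_simp; ring
  have h2 : κ * (1 + (1 - v ^ 2) / (1 + v ^ 2)) = 2 * κ / (1 + v ^ 2) := by field_simp; ring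
  rw [h1, h2, div_lt_div_iff_of_pos_right h]
  constructor <;> intro h <;> linarith

lemma not_Gk_inf (κ : ℝ) : ¬ Gk κ inf := by
  unfold Gk; rw [Cc_inf]; norm_num

lemma Gk_R {κ t : ℝ} {p : T1} (h : Gk κ p) : Gk (exp t ^ 2 * κ) (R t p) := by
  rcases T1_cases p with rfl | ⟨v, rfl⟩
  · exact absurd h (not_Gk_inf _)
  · rw [Gk_e] at h
    rw [R_e, Gk_e, mul_pow]
    exact mul_lt_mul_of_pos_left h (by positivity)

lemma Gk_mono {κ κ' : ℝ} {p : T1} (h : Gk κ p) (hκ : κ ≤ κ') : Gk κ' p := by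
  unfold Gk at h ⊢
  have := neg_one_le_Cc p
  nlinarith

lemma exists_kappa {a : ℝ} (ha : 0 < a) : ∃ κ : ℝ, 0 < κ ∧ ∀ p : T1, Gk κ p → ‖p‖ < a := by
  have h1 : Tendsto e (𝓝 0) (𝓝 (e 0)) := continuous_e.continuousAt
  have h2 : ∀ᶠ v in 𝓝 (0 : ℝ), ‖e v‖ < a := by
    have := h1.norm
    rw [e_zero, norm_zero] at this
    exact this.eventually_lt_const ha
  obtain ⟨δ, hδ, h3⟩ := Metric.eventually_nhds_iff.1 h2
  refine ⟨δ ^ 2, by positivity, ?_⟩
  intro p hp
  rcases T1_cases p with rfl | ⟨v, rfl⟩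
  · exact absurd hp (not_Gk_inf _)
  · rw [Gk_e] at hp
    apply h3
    rw [Real.dist_eq, sub_zero]
    exact abs_lt_of_sq_lt_sq hp hδ.le

lemma norm_coe_of_mem {w : ℝ} (h1 : -(1 / 2) ≤ w) (h2 : w < 1 / 2) : ‖(w : T1)‖ = |w| := by
  have := AddCircle.norm_coe_eq_abs_iff (p := (1 : ℝ)) (x := w) one_ne_zero
  rw [this, abs_one, abs_le]
  constructor <;> linarith

lemma chic_eq_zero {a : ℝ} (ha : 0 < a) {p : T1} (hp : ‖p‖ < a / 3) : chic a p = 0 := by
  obtain ⟨w, h1, h2, rfl⟩ := exists_rep p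
  rw [norm_coe_of_mem h1 h2] at hp
  rw [chic_coe h1 h2]
  exact chi_zero_left ha ((le_abs_self w).trans hp.le)

lemma chic_eq_one {a : ℝ} (ha : 0 < a) (ha2 : a ≤ 1 / 32) {p : T1} (hp : ‖p‖ < a / 3) :
    chic a (p + (a : T1)) = 1 := by
  obtain ⟨w, h1, h2, rfl⟩ := exists_rep p
  rw [norm_coe_of_mem h1 h2, abs_lt] at hp
  rw [← AddCircle.coe_add, chic_coe (by linarith) (by linarith)]
  exact chi_one ha (by linarith) (by linarith)

lemma As_le_32 (n : ℕ) : As n ≤ 1 / 32 := by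
  have := M_le_32 n false
  unfold M at this
  simpa using this

/-- shrinking of the complements -/
lemma exists_kappa_dist {ε : ℝ} (hε : 0 < ε) :
    ∃ κ : ℝ, ∀ p q : T1, ¬ Gk κ p → ¬ Gk κ q → dist p q < ε := by
  have hK : IsCompact {p : T1 | ε / 2 ≤ dist p inf} :=
    (isClosed_le continuous_const (continuous_id.dist continuous_const)).isCompact
  have hpos : ∃ m : ℝ, 0 < m ∧ ∀ p : T1, ε / 2 ≤ dist p inf → m ≤ 1 + Cc p := by
    rcases ({p : T1 | ε / 2 ≤ dist p inf}).eq_empty_or_nonempty with he | hne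
    · refine ⟨1, one_pos, fun p hp => ?_⟩
      have : p ∈ {p : T1 | ε / 2 ≤ dist p inf} := hp
      rw [he] at this
      exact absurd this (notMem_empty _)
    · obtain ⟨p0, hp0, hmin⟩ := hK.exists_isMinOn hne
        (continuous_const.add continuous_Cc : Continuous (fun p => (1 : ℝ) + Cc p)).continuousOn
      refine ⟨1 + Cc p0, ?_, fun p hp => hmin hp⟩
      have : p0 ≠ inf := by
        rintro rfl
        have hp1 : ε / 2 ≤ dist inf inf := hp0
        rw [dist_self] at hp1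
        linarith
      have := (ne_inf_iff p0).1 this
      linarith
  obtain ⟨m, hm, hmp⟩ := hpos
  have key : ∀ p : T1, ¬ Gk (2 / m) p → dist p inf < ε / 2 := by
    intro p hp
    by_contra hd
    push Not at hd
    have h1 := hmp p hd
    apply hp
    unfold Gk
    have h2 := neg_one_le_Cc p
    rcases eq_or_ne p inf with rfl | hne
    · rw [Cc_inf] at h1; linarith
    · have h3 := (ne_inf_iff p).1 hne
      have h4 : 2 ≤ 2 / m * (1 + Cc p) := by
        rw [div_mul_eq_mul_div, le_div_iff₀ hm]; linarith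
      linarith
  refine ⟨2 / m, fun p q hp hq => ?_⟩
  have h1 := key p hp
  have h2 := key q hq
  calc dist p q ≤ dist p inf + dist q inf := dist_triangle_right _ _ _
    _ < ε := by linarith

section flip

variable {n : ℕ} {x y : ℕ → Bool} (H : Flip n x y)
include H

lemma Flip.psi_fx (z : T2) : psi n x y (fx x z) = fx y (psi n x y z) := H.psi_conj z

omit H in
lemma fx_injective (x : ℕ → Bool) : Function.Injective (fx x) := (FH x).injective

omit H in
lemma psi_level_zero {u : ℝ} (hu : u ∈ Ico (2 : ℝ) 4) (w : T1) :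
    psi n x y (e u, w) = tm n (e u, w) := by
  unfold psi
  have h : u ∈ Ico ((2 : ℝ) ^ ((0 : ℤ) + 1)) (2 ^ ((0 : ℤ) + 1 + 1)) := by
    norm_num
    exact ⟨hu.1, hu.2⟩
  simp only [piece_e h]
  unfold Pk
  simp only [zpow_zero, inv_one, one_mul, mul_one]
  rfl

omit H in
lemma tm_fix {κ : ℝ} (hκ : ∀ p : T1, Gk κ p → ‖p‖ < As n / 3) (s w : T1) (hw : Gk κ w) :
    tm n (s, w) = (s, w) := by
  unfold tm tc
  simp only
  rw [chic_eq_zero (As_pos n) (hκ w hw)]
  simp

/-- `ψ` fixes large arcs, forward levels -/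
lemma Flip.fix_up {κ : ℝ} (hκ : ∀ p : T1, Gk κ p → ‖p‖ < As n / 3) (j : ℕ) :
    ∀ (u : ℝ) (w : T1), u ∈ Ico ((2 : ℝ) ^ ((j : ℤ) + 1)) (2 ^ ((j : ℤ) + 1 + 1)) →
      Gk (4 ^ j * κ) w → psi n x y (e u, w) = (e u, w) := by
  induction j with
  | zero =>
    intro u w hu hw
    have hu' : u ∈ Ico (2 : ℝ) 4 := by
      norm_num at hu
      exact ⟨hu.1, hu.2⟩
    rw [psi_level_zero hu']
    rw [pow_zero, one_mul] at hw
    exact tm_fix hκ _ _ hw
  | succ j ih =>
    intro u w hu hw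
    obtain ⟨u', rfl⟩ : ∃ u', u = 2 * u' := ⟨u / 2, by ring⟩
    have hu' : u' ∈ Ico ((2 : ℝ) ^ ((j : ℤ) + 1)) (2 ^ ((j : ℤ) + 1 + 1)) := by
      have := two_mul_mem.1 hu
      push_cast at this
      exact this
    have h2 : 2 ≤ u' := by
      refine le_trans ?_ hu'.1
      calc (2 : ℝ) = 2 ^ (1 : ℤ) := by norm_num
        _ ≤ 2 ^ ((j : ℤ) + 1) := zpow_le_zpow_right₀ one_le_two (by omega)
    have hC : Cc (e u') ≤ -(3 / 5) := Cc_e_le (by rw [abs_of_nonneg (by linarith)]; exact h2)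
    have hG : Gk (4 ^ j * κ) (R (-log 2) w) := by
      have := Gk_R (t := -log 2) hw
      rw [exp_neg_log_two] at this
      refine Gk_mono this ?_
      rw [pow_succ]
      apply le_of_eq; ring
    have hz : fx x (e u', R (-log 2) w) = (e (2 * u'), w) := by
      rw [fx_of_le x (z := (e u', R (-log 2) w)) hC]
      simp only [R_log_two_e, R_cancel_neg]
    rw [← hz, H.psi_fx, ih u' _ hu' hG]
    exact H.fy_eq_fx (z := (e u', R (-log 2) w)) (gc_e_of_two_le h2)

/-- `ψ` fixes large arcs, backward levels -/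
lemma Flip.fix_down {κ : ℝ} (hκ0 : 0 ≤ κ) (hκ : ∀ p : T1, Gk κ p → ‖p‖ < As n / 3) (j : ℕ) :
    ∀ (u : ℝ) (w : T1), u ∈ Ico ((2 : ℝ) ^ (-(j : ℤ))) (2 ^ (-(j : ℤ) + 1)) →
      Gk (4 ^ j * (κ / 4)) w → psi n x y (e u, w) = (e u, w) := by
  induction j with
  | zero =>
    intro u w hu hw
    have hu' : u ∈ Ico (1 : ℝ) 2 := by
      norm_num at hu
      exact ⟨hu.1, hu.2⟩
    rw [pow_zero, one_mul] at hw
    apply fx_injective y
    rw [← H.psi_fx]
    have h1 : fx x (e u, w) = (e (2 * u), R (cf (e u)) w + ((phi x (e u) : ℝ) : T1)) := by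
      unfold fx
      simp only [R_log_two_e]
    have h2 : fx y (e u, w) = (e (2 * u), R (cf (e u)) w + ((phi y (e u) : ℝ) : T1)) := by
      unfold fx
      simp only [R_log_two_e]
    rw [h2, h1, psi_level_zero ⟨by linarith [hu'.1], by linarith [hu'.2]⟩]
    have hD : Dn n (e (2 * u)) = Bs n * gc n (e u) := by
      unfold Dn
      rw [R_neg_log_two_e]
      congr 3; ring
    unfold tm tc
    simp only [hD, H.phi_eq]
    by_cases hg : gc n (e u) = 0
    · rw [hg]; simp
    · rw [phi_flip_const H.hx hg]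
      have hGR : Gk κ (R (cf (e u)) w) := by
        refine Gk_mono (Gk_R (t := cf (e u)) hw) ?_
        have h3 := abs_cf_le (e u)
        have h4 : exp (cf (e u)) ≤ 2 := by
          rw [← exp_log_two]
          exact exp_le_exp.2 ((le_abs_self _).trans h3)
        have h5 : exp (cf (e u)) ^ 2 ≤ 4 := by nlinarith [exp_pos (cf (e u))]
        nlinarith
      rw [chic_eq_one (As_pos n) (As_le_32 n) (hκ _ hGR), mul_one, AddCircle.coe_add, add_assoc]
  | succ j ih =>
    intro u w hu hw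
    have hj : u ∈ Ico ((2 : ℝ) ^ (-(j : ℤ) - 1)) (2 ^ (-(j : ℤ) - 1 + 1)) := by
      have e1 : -(((j + 1 : ℕ)) : ℤ) = -(j : ℤ) - 1 := by push_cast; ring
      rw [e1] at hu
      exact hu
    have h2u : 2 * u ∈ Ico ((2 : ℝ) ^ (-(j : ℤ))) (2 ^ (-(j : ℤ) + 1)) := by
      have := two_mul_mem.2 hj
      rwa [sub_add_cancel] at this
    have hu1 : u ≤ 1 := by
      have h3 := hj.2.le
      refine h3.trans ?_
      rw [sub_add_cancel]
      calc (2 : ℝ) ^ (-(j : ℤ)) ≤ 2 ^ (0 : ℤ) := zpow_le_zpow_right₀ one_le_two (by omega)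
        _ = 1 := zpow_zero _
    have hu0 : 0 < u := lt_of_lt_of_le (zpow_pos two_pos _) hj.1
    have hC : 0 ≤ Cc (e u) := Cc_e_nonneg (by rw [abs_of_pos hu0]; exact hu1)
    have hG : Gk (4 ^ j * (κ / 4)) (R (-log 2) w) := by
      have := Gk_R (t := -log 2) hw
      rw [exp_neg_log_two] at this
      refine Gk_mono this ?_
      rw [pow_succ]
      apply le_of_eq; ring
    have hz : fx x (e u, w) = (e (2 * u), R (-log 2) w) := by
      rw [fx_of_nonneg x (z := (e u, w)) hC]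
      simp only [R_log_two_e]
    apply fx_injective y
    rw [← H.psi_fx, hz, ih _ _ h2u hG, ← hz]
    exact (H.fy_eq_fx (z := (e u, w)) (gc_e_of_le_one hu1)).symm

omit H in
lemma not_Gk_of_moved {κ : ℝ} {s : T1} (h : ∀ w, Gk κ w → psi n x y (s, w) = (s, w)) (w : T1) :
    psi n x y (s, w) = (s, w) ∨ (¬ Gk κ w ∧ ¬ Gk κ (psi n x y (s, w)).2) := by
  by_cases hm : psi n x y (s, w) = (s, w)
  · exact Or.inl hm
  · right
    refine ⟨fun hG => hm (h w hG), fun hG => hm ?_⟩
    have h1 := h _ hG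
    have h2 : (s, (psi n x y (s, w)).2) = psi n x y (s, w) := by
      have := fst_psi n x y (s, w)
      ext
      · exact this.symm
      · rfl
    rw [h2] at h1
    exact (psi_bijective n x y).1 h1

/-- small displacement near the fixed circles -/
lemma Flip.small {ε : ℝ} (hε : 0 < ε) : ∃ N : ℕ, ∀ (u : ℝ) (w : T1),
    ((2 : ℝ) ^ (N : ℤ) ≤ u ∨ u < (2 : ℝ) ^ (-(N : ℤ))) →
      dist (psi n x y (e u, w)).2 w < ε := by
  obtain ⟨κ, hκ⟩ := exists_kappa_dist hε
  obtain ⟨κ0, hκ0, hκ0'⟩ := exists_kappa (a := As n / 3) (by linarith [As_pos n])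
  obtain ⟨N, hN⟩ : ∃ N : ℕ, κ ≤ 4 ^ N * (κ0 / 4) := by
    obtain ⟨N, hN⟩ := pow_unbounded_of_one_lt (κ / (κ0 / 4)) (by norm_num : (1 : ℝ) < 4)
    refine ⟨N, ?_⟩
    rw [div_lt_iff₀ (by positivity)] at hN
    exact hN.le
  refine ⟨N + 1, fun u w hu => ?_⟩
  rcases le_or_gt u 0 with h0 | h0
  · have : psi n x y (e u, w) = (e u, w) := by
      unfold psi; simp only [piece_e_nonpos h0]; rfl
    rw [this, dist_self]; exact hε
  obtain ⟨j, hj⟩ := exists_lev h0
  have main : ∀ w', Gk κ w' → psi n x y (e u, w') = (e u, w') := by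
    intro w' hw'
    rcases hu with hu | hu
    · -- large
      have h1 : (2 : ℝ) ^ (((N + 1 : ℕ)) : ℤ) < 2 ^ (j + 1 + 1) := hu.trans_lt hj.2
      rw [zpow_lt_zpow_iff_right₀ one_lt_two] at h1
      obtain ⟨i, rfl⟩ : ∃ i : ℕ, j = i := ⟨j.toNat, by push_cast at h1; omega⟩
      apply H.fix_up hκ0' i u w' hj
      refine Gk_mono hw' (hN.trans ?_)
      have h2 : (4 : ℝ) ^ N ≤ 4 ^ i := pow_le_pow_right₀ (by norm_num) (by push_cast at h1; omega)
      have h3 : (4 : ℝ) ^ N * (κ0 / 4) ≤ 4 ^ i * (κ0 / 4) :=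
        mul_le_mul_of_nonneg_right h2 (by linarith)
      have h4 : 0 < (4 : ℝ) ^ i * κ0 := by positivity
      linarith
    · have h1 : (2 : ℝ) ^ (j + 1) < 2 ^ (-(((N + 1 : ℕ)) : ℤ)) := hj.1.trans_lt hu
      rw [zpow_lt_zpow_iff_right₀ one_lt_two] at h1
      obtain ⟨i, hi⟩ : ∃ i : ℕ, j + 1 = -(i : ℤ) := ⟨(-(j + 1)).toNat, by push_cast at h1; omega⟩
      apply H.fix_down hκ0.le hκ0' i u w' (by rw [hi] at hj; exact hj)
      refine Gk_mono hw' (hN.trans ?_)
      have h2 : (4 : ℝ) ^ N ≤ 4 ^ i := pow_le_pow_right₀ (by norm_num) (by push_cast at h1; omega)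
      exact mul_le_mul_of_nonneg_right h2 (by linarith)
  rcases not_Gk_of_moved main w with h | ⟨h1, h2⟩
  · rw [h, dist_self]; exact hε
  · exact hκ _ _ h2 h1

/-! ### continuity -/

lemma Flip.tendsto_of_close {z0 : T2} (h0 : psi n x y z0 = z0)
    (h : ∀ N : ℕ, ∀ᶠ z in 𝓝 z0, z.1 = inf ∨ ∃ u : ℝ, z.1 = e u ∧
      ((2 : ℝ) ^ (N : ℤ) ≤ u ∨ u < (2 : ℝ) ^ (-(N : ℤ)))) : ContinuousAt (psi n x y) z0 := by
  have hd : Tendsto (fun z : T2 => dist (psi n x y z).2 z.2) (𝓝 z0) (𝓝 0) := by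
    rw [Metric.tendsto_nhds]
    intro ε hε
    obtain ⟨N, hN⟩ := H.small hε
    filter_upwards [h N] with z hz
    rw [Real.dist_eq, sub_zero, abs_of_nonneg dist_nonneg]
    obtain ⟨s, w⟩ := z
    rcases hz with hz | ⟨u, hu, hu'⟩
    · simp only at hz
      subst hz
      have : psi n x y (inf, w) = (inf, w) := by
        unfold psi; simp only [piece_inf]; rfl
      rw [this, dist_self]; exact hε
    · simp only at hu
      subst hu
      exact hN u w hu'
  have h2 : Tendsto (fun z : T2 => (psi n x y z).2) (𝓝 z0) (𝓝 z0.2) :=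
    (tendsto_iff_of_dist hd).2 continuous_snd.continuousAt
  have h1 : Tendsto (fun z : T2 => (psi n x y z).1) (𝓝 z0) (𝓝 z0.1) := by
    simp only [fst_psi]
    exact continuous_fst.continuousAt
  unfold ContinuousAt
  rw [h0]
  exact h1.prodMk_nhds h2

omit H in
lemma eventually_chart {z0 : T2} (h0 : z0.1 ≠ inf) {S : Set ℝ} (hS : IsOpen S)
    (h : uu z0.1 ∈ S) : ∀ᶠ z in 𝓝 z0, ∃ u ∈ S, z.1 = e u := by
  have h1 : ∀ᶠ z in 𝓝 z0, z.1 ≠ inf :=
    continuous_fst.continuousAt.eventually_ne h0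
  have h2 : ∀ᶠ z : T2 in 𝓝 z0, uu z.1 ∈ S := by
    have : ContinuousAt (fun z : T2 => uu z.1) z0 :=
      ContinuousAt.comp (g := uu) (f := fun z : T2 => z.1) (continuousAt_uu h0)
        continuous_fst.continuousAt
    exact this.eventually (hS.mem_nhds h)
  filter_upwards [h1, h2] with z hz1 hz2
  exact ⟨uu z.1, hz2, (e_uu hz1).symm⟩

omit H in
lemma exp_int_mul_log_two (i : ℤ) : exp ((i : ℝ) * log 2) = 2 ^ i := by
  rw [mul_comm, ← Real.rpow_def_of_pos two_pos, Real.rpow_intCast]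

omit H in
lemma tm_of_Dn_zero {z : T2} (h : Dn n z.1 = 0) : tm n z = z := by
  unfold tm tc
  rw [h]; simp

omit H in
lemma Dn_e (n : ℕ) (v : ℝ) : Dn n (e v) = Bs n * gc n (e (v / 2)) := by
  unfold Dn; rw [R_neg_log_two_e]

lemma Flip.matching {i : ℤ} {u : ℝ} (h1 : (2 : ℝ) ^ (i + 1) * lb n < u) (h2 : u < 2 ^ (i + 1 + 1))
    (w : T1) : Pk n x y i (e u, w) = Pk n x y (i + 1) (e u, w) := by
  have hp : (0 : ℝ) < 2 ^ i := zpow_pos two_pos _
  obtain ⟨v, rfl⟩ : ∃ v, u = 2 ^ i * v := ⟨u / 2 ^ i, by field_simp⟩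
  have e1 : (2 : ℝ) ^ (i + 1) = 2 ^ i * 2 := zpow_add_one₀ two_ne_zero i
  have e2 : (2 : ℝ) ^ (i + 1 + 1) = 2 ^ i * 2 * 2 := by
    rw [zpow_add_one₀ two_ne_zero (i + 1), e1]
  rw [e1, mul_assoc] at h1
  rw [e2, mul_assoc] at h2
  have hv1 : 2 * lb n < v := lt_of_mul_lt_mul_left h1 hp.le
  have hv2 : v < 2 * 2 := lt_of_mul_lt_mul_left h2 hp.le
  set W := (FH x ^ i)⁻¹ (e (2 ^ i * v), w) with hW
  have hW1 : W.1 = e v := by
    rw [hW, ← zpow_neg, fst_FH_zpow, R_e, exp_int_mul_log_two, ← mul_assoc, ← zpow_add₀ two_ne_zero]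
    simp
  have hDv : Dn n W.1 = 0 := by
    rw [hW1, Dn_e, gc_e_eq_zero (n := n), mul_zero]
    intro h; linarith [h.2]
  have hT : TH n W = W := tm_of_Dn_zero hDv
  have hW'1 : (gx x W).1 = e (v / 2) := by
    change R (-log 2) W.1 = _
    rw [hW1, R_neg_log_two_e]
  have hT' : TH n (gx x W) = gx x W := by
    apply tm_of_Dn_zero
    rw [hW'1, Dn_e, gc_e_of_le_one (by linarith), mul_zero]
  have hfy : fx y (gx x W) = W := by
    rw [H.fy_eq_fx, fx_gx]
    rw [hW'1]
    apply gc_e_eq_zero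
    intro h; linarith [h.2]
  have hA : Pk n x y i (e (2 ^ i * v), w) = (FH y ^ i) W := by
    unfold Pk
    rw [Homeomorph.mul_apply, Homeomorph.mul_apply, ← hW, hT]
  have hB : Pk n x y (i + 1) (e (2 ^ i * v), w) = (FH y ^ i) (fx y (TH n (gx x W))) := by
    unfold Pk
    rw [zpow_add_one, zpow_add_one, mul_inv_rev]
    simp only [Homeomorph.mul_apply]
    rfl
  rw [hA, hB, hT', hfy]

lemma Flip.psi_eq_Pk {j : ℤ} {u : ℝ} (h1 : (2 : ℝ) ^ j * lb n < u) (h2 : u < 2 ^ (j + 1 + 1))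
    (w : T1) : psi n x y (e u, w) = Pk n x y j (e u, w) := by
  rcases lt_or_ge u (2 ^ (j + 1)) with h | h
  · obtain ⟨i, rfl⟩ : ∃ i, j = i + 1 := ⟨j - 1, by ring⟩
    rw [← H.matching h1 h]
    have hlb : 1 < lb n := (la_gt_one n).trans ((la_lt_pk n).trans (pk_lt_lb n))
    have hp : (0 : ℝ) < 2 ^ (i + 1) := zpow_pos two_pos _
    unfold psi
    rw [piece_e (j := i) ⟨by nlinarith, h⟩]
  · unfold psi
    rw [piece_e (j := j) ⟨h, h2⟩]

theorem Flip.continuous_psi : Continuous (psi n x y) := by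
  rw [continuous_iff_continuousAt]
  rintro ⟨s0, w0⟩
  rcases T1_cases s0 with rfl | ⟨u0, rfl⟩
  · -- at infinity
    apply H.tendsto_of_close
    · unfold psi; simp only [piece_inf]; rfl
    · intro N
      set K : ℝ := 2 ^ (N : ℤ) with hK
      have hK0 : 0 < K := zpow_pos two_pos _
      have hc : -1 < Cc (e K) := Cc_e_gt K
      have ho : IsOpen {z : T2 | Cc z.1 < Cc (e K)} :=
        isOpen_lt (continuous_Cc.comp continuous_fst) continuous_const
      have hm : ((inf, w0) : T2) ∈ {z : T2 | Cc z.1 < Cc (e K)} := by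
        change Cc inf < Cc (e K)
        rw [Cc_inf]; exact hc
      filter_upwards [ho.mem_nhds hm] with z hz
      have hz' : Cc z.1 < Cc (e K) := hz
      rcases T1_cases z.1 with h | ⟨u, hu⟩
      · exact Or.inl h
      · right
        refine ⟨u, hu, ?_⟩
        rw [hu, Cc_e, Cc_e, div_lt_div_iff₀ (by positivity) (by positivity)] at hz'
        have h2 : K ^ 2 < u ^ 2 := by nlinarith
        rcases le_or_gt 0 u with h0 | h0
        · left
          exact (lt_of_pow_lt_pow_left₀ 2 h0 h2).le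
        · right
          exact h0.trans (zpow_pos two_pos _)
  · rcases le_or_gt u0 0 with h0 | h0
    · apply H.tendsto_of_close
      · unfold psi; simp only [piece_e_nonpos h0]; rfl
      · intro N
        have h1 : uu ((e u0, w0) : T2).1 ∈ Iio ((2 : ℝ) ^ (-(N : ℤ))) := by
          simp only [uu_e]
          exact h0.trans_lt (zpow_pos two_pos _)
        filter_upwards [eventually_chart (z0 := (e u0, w0)) (e_ne_inf u0) isOpen_Iio h1]
          with z ⟨u, hu, hz⟩
        exact Or.inr ⟨u, hz, Or.inr hu⟩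
    · obtain ⟨j, hj⟩ := exists_lev h0
      have hlb2 := lb_lt_two n
      have hp : (0 : ℝ) < 2 ^ j := zpow_pos two_pos _
      have e1 : (2 : ℝ) ^ (j + 1) = 2 ^ j * 2 := zpow_add_one₀ two_ne_zero j
      have h1 : uu ((e u0, w0) : T2).1 ∈ Ioo ((2 : ℝ) ^ j * lb n) (2 ^ (j + 1 + 1)) := by
        simp only [uu_e]
        refine ⟨?_, hj.2⟩
        have := hj.1
        rw [e1] at this
        nlinarith
      have h2 : psi n x y =ᶠ[𝓝 ((e u0, w0) : T2)] Pk n x y j := by
        filter_upwards [eventually_chart (z0 := (e u0, w0)) (e_ne_inf u0) isOpen_Ioo h1]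
          with z ⟨u, hu, hz⟩
        obtain ⟨s, w⟩ := z
        simp only at hz
        subst hz
        exact H.psi_eq_Pk hu.1 hu.2 w
      exact (Pk n x y j).continuous.continuousAt.congr h2.symm

end flip

/-- single flips are conjugate -/
theorem topConj_of_flip {n : ℕ} {x y : ℕ → Bool} (H : Flip n x y) : TopConj (Phi x) (Phi y) := by
  refine ⟨Continuous.homeoOfEquivCompactToT2
    (f := Equiv.ofBijective (psi n x y) (psi_bijective n x y)) H.continuous_psi, ?_⟩
  intro z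
  exact H.psi_fx z

lemma TopConj.symm {f g : DiffT2} (h : TopConj f g) : TopConj g f := by
  obtain ⟨h, hh⟩ := h
  refine ⟨h.symm, fun p => ?_⟩
  rw [Homeomorph.symm_apply_eq, hh, Homeomorph.apply_symm_apply]

lemma TopConj.trans {f g k : DiffT2} (h : TopConj f g) (h' : TopConj g k) : TopConj f k := by
  obtain ⟨h, hh⟩ := h
  obtain ⟨h', hh'⟩ := h'
  refine ⟨h.trans h', fun p => ?_⟩
  rw [Homeomorph.trans_apply, Homeomorph.trans_apply, hh, hh']

lemma TopConj.refl (f : DiffT2) : TopConj f f := ⟨Homeomorph.refl _, fun _ => rfl⟩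

theorem topConj_of_eventually {x y : ℕ → Bool} (h : ∀ᶠ n in atTop, x n = y n) :
    TopConj (Phi x) (Phi y) := by
  have key : ∀ N : ℕ, ∀ x y : ℕ → Bool, (∀ n, N ≤ n → x n = y n) → TopConj (Phi x) (Phi y) := by
    intro N
    induction N with
    | zero =>
      intro x y h
      have : x = y := by ext n; rw [h n (Nat.zero_le n)]
      rw [this]
      exact TopConj.refl _
    | succ N ih =>
      intro x y h
      have h1 : TopConj (Phi x) (Phi (Function.update y N (x N))) := by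
        apply ih
        intro n hn
        rcases eq_or_ne n N with rfl | hne
        · rw [Function.update_self]
        · rw [Function.update_of_ne hne]
          exact h n (by omega)
      refine h1.trans ?_
      rcases hxN : x N with _ | _ <;> rcases hyN : y N with _ | _
      · have : Function.update y N false = y := by rw [← hyN, Function.update_eq_self]
        rw [this]; exact TopConj.refl _
      · apply topConj_of_flip (n := N)
        refine ⟨Function.update_self _ _ _, hyN, fun m hm => ?_⟩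
        rw [Function.update_of_ne hm]
      · apply TopConj.symm
        apply topConj_of_flip (n := N)
        refine ⟨hyN, Function.update_self _ _ _, fun m hm => ?_⟩
        rw [Function.update_of_ne hm]
      · have : Function.update y N true = y := by rw [← hyN, Function.update_eq_self]
        rw [this]; exact TopConj.refl _
  obtain ⟨N, hN⟩ := eventually_atTop.1 h
  exact key N x y hN

end Pool.MP_e91f84_lc
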