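import Mathlib
import Pool.Agent.Work.MP_e91f84_lc.Conj3

set_option autoImplicit false

open Filter Topology Set Real
open scoped ContDiff

namespace Pool.MP_e91f84_lc

lemma exp_nat_mul_log_two (k : ℕ) : exp ((k : ℝ) * log 2) = 2 ^ k := by
  rw [exp_nat_mul, exp_log_two]

lemma fst_iter_fx (x : ℕ → Bool) (N : ℕ) (z : T2) :
    ((fx x)^[N] z).1 = R ((N : ℝ) * log 2) z.1 := by
  induction N with
  | zero => simp [R_zero_left]
  | succ N ih =>
    rw [Function.iterate_succ_apply']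
    change R (log 2) ((fx x)^[N] z).1 = _
    rw [ih, R_add]; congr 1; push_cast; ring

lemma fst_iter_gx (x : ℕ → Bool) (N : ℕ) (z : T2) :
    ((gx x)^[N] z).1 = R (-((N : ℝ) * log 2)) z.1 := by
  induction N with
  | zero => simp [R_zero_left]
  | succ N ih =>
    rw [Function.iterate_succ_apply']
    change R (-log 2) ((gx x)^[N] z).1 = _
    rw [ih, R_add]; congr 1; push_cast; ring

/-- approximations of the unstable curve -/
noncomputable def GN (x : ℕ → Bool) (N : ℕ) (u : ℝ) : T2 := (fx x)^[N] (e ((1 / 2) ^ N * u), 0)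

lemma fx_small (x : ℕ → Bool) {v : ℝ} (hv : |v| ≤ 1) : fx x (e v, 0) = (e (2 * v), 0) := by
  rw [fx_of_nonneg x (z := (e v, 0)) (Cc_e_nonneg hv)]
  simp only [R_log_two_e, R_zero]

lemma GN_succ (x : ℕ → Bool) {N : ℕ} {u : ℝ} (h : |u| ≤ 2 ^ N) : GN x (N + 1) u = GN x N u := by
  unfold GN
  rw [Function.iterate_succ_apply]
  congr 1
  rw [fx_small x]
  · congr 2; ring
  · rw [abs_mul, abs_of_pos (by positivity), one_div, inv_pow, inv_mul_le_iff₀ (by positivity)]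
    rw [pow_succ]
    have : (0 : ℝ) < 2 ^ N := by positivity
    linarith

lemma GN_of_le (x : ℕ → Bool) {N M : ℕ} {u : ℝ} (h : |u| ≤ 2 ^ N) (hM : N ≤ M) :
    GN x M u = GN x N u := by
  induction M, hM using Nat.le_induction with
  | base => rfl
  | succ M hM ih =>
    rw [GN_succ x (h.trans (pow_le_pow_right₀ one_le_two hM)), ih]

lemma abs_le_pow_ceil (u : ℝ) : |u| ≤ 2 ^ ⌈|u|⌉₊ := by
  have h1 := Nat.le_ceil |u|
  have h2 : ((⌈|u|⌉₊ : ℕ) : ℝ) ≤ 2 ^ ⌈|u|⌉₊ := by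
    exact_mod_cast (Nat.lt_two_pow_self (n := ⌈|u|⌉₊)).le
  exact h1.trans h2

/-- the unstable curve of the saddle `(0, 0)` -/
noncomputable def Gam (x : ℕ → Bool) (u : ℝ) : T2 := GN x ⌈|u|⌉₊ u

lemma Gam_eq (x : ℕ → Bool) {N : ℕ} {u : ℝ} (h : |u| ≤ 2 ^ N) : Gam x u = GN x N u := by
  unfold Gam
  rcases le_total N ⌈|u|⌉₊ with h1 | h1
  · exact GN_of_le x h h1
  · exact (GN_of_le x (abs_le_pow_ceil u) h1).symm

lemma continuous_GN (x : ℕ → Bool) (N : ℕ) : Continuous (GN x N) := by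
  unfold GN
  refine ((continuous_fx x).iterate N).comp ?_
  exact (continuous_e.comp (continuous_const.mul continuous_id)).prodMk continuous_const

lemma continuous_Gam (x : ℕ → Bool) : Continuous (Gam x) := by
  rw [continuous_iff_continuousAt]
  intro u0
  obtain ⟨N, hN⟩ := pow_unbounded_of_one_lt |u0| (one_lt_two (α := ℝ))
  have h1 : ∀ᶠ u in 𝓝 u0, |u| < 2 ^ N := continuous_abs.continuousAt.eventually_lt_const hN
  have h2 : Gam x =ᶠ[𝓝 u0] GN x N := by
    filter_upwards [h1] with u hu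
    exact Gam_eq x hu.le
  exact (continuous_GN x N).continuousAt.congr h2.symm

lemma fst_Gam (x : ℕ → Bool) (u : ℝ) : (Gam x u).1 = e u := by
  unfold Gam GN
  rw [fst_iter_fx, R_e, exp_nat_mul_log_two, ← mul_assoc, ← mul_pow]
  norm_num

lemma Gam_two_mul (x : ℕ → Bool) (u : ℝ) : Gam x (2 * u) = fx x (Gam x u) := by
  have h := abs_le_pow_ceil u
  have h2 : |2 * u| ≤ 2 ^ (⌈|u|⌉₊ + 1) := by
    rw [abs_mul, abs_two, pow_succ]; linarith
  rw [Gam_eq x h, Gam_eq x h2]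
  unfold GN
  rw [Function.iterate_succ_apply']
  congr 4; ring

lemma snd_Gam_two_mul (x : ℕ → Bool) (u : ℝ) :
    (Gam x (2 * u)).2 = R (cf (e u)) (Gam x u).2 + ((phi x (e u) : ℝ) : T1) := by
  rw [Gam_two_mul]
  unfold fx
  simp only [fst_Gam]

lemma snd_Gam_small (x : ℕ → Bool) {u : ℝ} (h : |u| ≤ 1) : (Gam x u).2 = 0 := by
  rw [Gam_eq x (N := 0) (by simpa using h)]
  rfl

lemma iter_nonpos (x : ℕ → Bool) (N : ℕ) {v : ℝ} (hv : v ≤ 0) :
    (fx x)^[N] (e v, 0) = (e (2 ^ N * v), 0) := by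
  induction N with
  | zero => simp
  | succ N ih =>
    rw [Function.iterate_succ_apply', ih]
    unfold fx
    have h1 : (2 : ℝ) ^ N * v ≤ 0 := mul_nonpos_of_nonneg_of_nonpos (by positivity) hv
    rw [phi_e_eq_zero x (Or.inl (by linarith))]
    simp only [R_log_two_e, R_zero]
    rw [AddCircle.coe_zero, add_zero, pow_succ]
    congr 2; ring

lemma snd_Gam_nonpos (x : ℕ → Bool) {u : ℝ} (h : u ≤ 0) : (Gam x u).2 = 0 := by
  unfold Gam GN
  rw [iter_nonpos x _ (mul_nonpos_of_nonneg_of_nonpos (by positivity) h)]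

lemma snd_Gam_le_two (x : ℕ → Bool) {u : ℝ} (h : u ≤ 2) : (Gam x u).2 = 0 := by
  rcases le_or_gt u 0 with h0 | h0
  · exact snd_Gam_nonpos x h0
  · obtain ⟨v, rfl⟩ : ∃ v, u = 2 * v := ⟨u / 2, by ring⟩
    rw [snd_Gam_two_mul, snd_Gam_small x (by rw [abs_le]; constructor <;> linarith), R_zero,
      phi_e_eq_zero x (Or.inl (by linarith))]
    simp

lemma snd_Gam_lens (x : ℕ → Bool) {v : ℝ} (h : v ≤ 2) :
    (Gam x (2 * v)).2 = ((phi x (e v) : ℝ) : T1) := by
  rw [snd_Gam_two_mul, snd_Gam_le_two x h, R_zero, zero_add]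

lemma coe_eq_e {t : ℝ} (h0 : 0 ≤ t) (h1 : t ≤ 1 / 32) : (t : T1) = e (tan (π * t)) := by
  unfold e
  have hpi := pi_pos
  rw [arctan_tan (by nlinarith) (by nlinarith)]
  congr 1
  field_simp

lemma snd_Gam_large (x : ℕ → Bool) {v : ℝ} (h1 : 1 ≤ v) (h : v ≤ 2) (k : ℕ) :
    (Gam x (2 ^ (k + 1) * v)).2 = e (2 ^ k * tan (π * phi x (e v))) := by
  induction k with
  | zero =>
    rw [zero_add, pow_one, snd_Gam_lens x h, coe_eq_e (phi_nonneg _ _) (phi_le _ _)]
    simp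
  | succ k ih =>
    have e1 : (2 : ℝ) ^ (k + 1 + 1) * v = 2 * (2 ^ (k + 1) * v) := by ring
    have h2 : 2 ≤ (2 : ℝ) ^ (k + 1) * v := by
      have : (1 : ℝ) ≤ 2 ^ k := one_le_pow₀ one_le_two
      rw [pow_succ]; nlinarith
    rw [e1, snd_Gam_two_mul, ih, phi_e_eq_zero x (Or.inr h2),
      cf_e_large (by rw [abs_of_nonneg (by linarith)]; exact h2), R_log_two_e,
      AddCircle.coe_zero, add_zero]
    congr 1; ring

lemma Gam_zero (x : ℕ → Bool) : Gam x 0 = (0, 0) := by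
  ext
  · rw [fst_Gam, e_zero]
  · rw [snd_Gam_nonpos x le_rfl]

lemma Gam_pow (x : ℕ → Bool) (n : ℕ) (u : ℝ) : Gam x (2 ^ n * u) = (fx x)^[n] (Gam x u) := by
  induction n with
  | zero => simp
  | succ n ih =>
    rw [Function.iterate_succ_apply', ← ih, ← Gam_two_mul]
    congr 1; ring

lemma gx_Gam (x : ℕ → Bool) (u : ℝ) : gx x (Gam x u) = Gam x (u / 2) := by
  have h : Gam x u = fx x (Gam x (u / 2)) := by
    rw [← Gam_two_mul]; congr 1; ring
  rw [h, gx_fx]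

lemma Gam_pow_neg (x : ℕ → Bool) (n : ℕ) (u : ℝ) :
    (gx x)^[n] (Gam x u) = Gam x ((1 / 2) ^ n * u) := by
  induction n with
  | zero => simp
  | succ n ih =>
    rw [Function.iterate_succ_apply', ih, gx_Gam]
    congr 1; ring

end Pool.MP_e91f84_lc
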