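import Mathlib
import Pool.Agent.Work.MP_e91f84_lc.Inv

set_option autoImplicit false

open Filter Topology Set Real
open scoped ContDiff

namespace Pool.MP_e91f84_lc

/-- stable set of a point -/
def W (f : T2 → T2) (z0 : T2) : Set T2 := {z | Tendsto (fun n => f^[n] z) atTop (𝓝 z0)}

lemma mem_W_map {f f' h : T2 → T2} (hc : Continuous h) (hh : ∀ z, h (f z) = f' (h z)) {z z0 : T2}
    (hz : z ∈ W f z0) : h z ∈ W f' (h z0) := by
  have h1 : ∀ n : ℕ, f'^[n] (h z) = h (f^[n] z) := by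
    intro n
    have hs : Function.Semiconj h f f' := hh
    exact ((hs.iterate_right n).eq z).symm
  change Tendsto (fun n => f'^[n] (h z)) atTop (𝓝 (h z0))
  simp_rw [h1]
  exact (hc.tendsto z0).comp hz

lemma e_neg (u : ℝ) : e (-u) = - e u := by
  unfold e
  rw [arctan_neg, neg_div, AddCircle.coe_neg]

lemma neg_inf : -inf = inf := by
  unfold inf
  rw [← AddCircle.coe_neg, coe_eq_iff']
  exact ⟨-1, by norm_num⟩

lemma tendsto_e_atBot : Tendsto e atBot (𝓝 inf) := by
  have h1 : Tendsto (fun u => - e (-u)) atBot (𝓝 (-inf)) :=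
    (tendsto_e_atTop.comp tendsto_neg_atBot_atTop).neg
  rw [neg_inf] at h1
  refine h1.congr (fun u => ?_)
  rw [e_neg, neg_neg]

lemma tendsto_R_up {p : T1} (hp : p ≠ 0) :
    Tendsto (fun n : ℕ => R ((n : ℝ) * log 2) p) atTop (𝓝 inf) := by
  rcases T1_cases p with rfl | ⟨u, rfl⟩
  · simp_rw [R_inf]; exact tendsto_const_nhds
  · have hu : u ≠ 0 := by rintro rfl; exact hp e_zero
    simp_rw [R_e, exp_nat_mul_log_two]
    have h2 : Tendsto (fun n : ℕ => (2 : ℝ) ^ n) atTop atTop :=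
      tendsto_pow_atTop_atTop_of_one_lt one_lt_two
    rcases lt_or_gt_of_ne hu with h | h
    · exact tendsto_e_atBot.comp (h2.atTop_mul_const_of_neg h)
    · exact tendsto_e_atTop.comp (h2.atTop_mul_const h)

lemma tendsto_R_down {p : T1} (hp : p ≠ inf) :
    Tendsto (fun n : ℕ => R (-((n : ℝ) * log 2)) p) atTop (𝓝 0) := by
  rcases T1_cases p with rfl | ⟨u, rfl⟩
  · exact absurd rfl hp
  · have h1 : ∀ n : ℕ, R (-((n : ℝ) * log 2)) (e u) = e ((1 / 2) ^ n * u) := by
      intro n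
      rw [R_e, exp_neg, exp_nat_mul_log_two]
      congr 2; rw [one_div, inv_pow]
    simp_rw [h1]
    rw [← e_zero]
    refine (continuous_e.tendsto 0).comp ?_
    have := (tendsto_pow_atTop_nhds_zero_of_lt_one (r := (1 / 2 : ℝ)) (by norm_num)
      (by norm_num)).mul_const u
    rwa [zero_mul] at this

lemma W_fx_fst {x : ℕ → Bool} {z z0 : T2} (hz : z ∈ W (fx x) z0) (h1 : z0.1 ≠ inf) : z.1 = 0 := by
  by_contra h
  have h2 : Tendsto (fun n => ((fx x)^[n] z).1) atTop (𝓝 z0.1) :=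
    (continuous_fst.tendsto z0).comp hz
  simp_rw [fst_iter_fx] at h2
  exact h1 (tendsto_nhds_unique h2 (tendsto_R_up h))

lemma W_gx_fst {x : ℕ → Bool} {z z0 : T2} (hz : z ∈ W (gx x) z0) (h1 : z0.1 ≠ 0) : z.1 = inf := by
  by_contra h
  have h2 : Tendsto (fun n => ((gx x)^[n] z).1) atTop (𝓝 z0.1) :=
    (continuous_fst.tendsto z0).comp hz
  simp_rw [fst_iter_gx] at h2
  exact h1 (tendsto_nhds_unique h2 (tendsto_R_down h))

lemma Cc_zero : Cc 0 = 1 := by rw [← e_zero, Cc_e]; norm_num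

lemma iter_fx_left (x : ℕ → Bool) (n : ℕ) (w : T1) :
    (fx x)^[n] (0, w) = (0, R (-((n : ℝ) * log 2)) w) := by
  induction n with
  | zero => simp [R_zero_left]
  | succ n ih =>
    rw [Function.iterate_succ_apply', ih, fx_of_nonneg x (by simp only [Cc_zero]; norm_num)]
    simp only [R_zero, R_add]
    congr 2; push_cast; ring

lemma iter_gx_right (x : ℕ → Bool) (n : ℕ) (w : T1) :
    (gx x)^[n] (inf, w) = (inf, R (-((n : ℝ) * log 2)) w) := by
  induction n with
  | zero => simp [R_zero_left]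
  | succ n ih =>
    rw [Function.iterate_succ_apply', ih]
    unfold gx
    simp only [R_inf, cf_inf, phi_inf, R_add, AddCircle.coe_zero, sub_zero]
    congr 2; push_cast; ring

lemma W_source {x : ℕ → Bool} {z : T2} (hz : z ∈ W (fx x) (0, inf)) : z = (0, inf) := by
  have h1 : z.1 = 0 := W_fx_fst hz inf_ne_zero.symm
  obtain ⟨s, w⟩ := z
  simp only at h1
  subst h1
  have h2 : Tendsto (fun n => ((fx x)^[n] (0, w)).2) atTop (𝓝 inf) :=
    (continuous_snd.tendsto ((0, inf) : T2)).comp hz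
  simp_rw [iter_fx_left] at h2
  by_cases hw : w = inf
  · rw [hw]
  · exact absurd (tendsto_nhds_unique h2 (tendsto_R_down hw)) inf_ne_zero

lemma W_sink {x : ℕ → Bool} {z : T2} (hz : z ∈ W (gx x) (inf, inf)) : z = (inf, inf) := by
  have h1 : z.1 = inf := W_gx_fst hz inf_ne_zero
  obtain ⟨s, w⟩ := z
  simp only at h1
  subst h1
  have h2 : Tendsto (fun n => ((gx x)^[n] (inf, w)).2) atTop (𝓝 inf) :=
    (continuous_snd.tendsto ((inf, inf) : T2)).comp hz
  simp_rw [iter_gx_right] at h2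
  by_cases hw : w = inf
  · rw [hw]
  · exact absurd (tendsto_nhds_unique h2 (tendsto_R_down hw)) inf_ne_zero

lemma Gam_mem_W (x : ℕ → Bool) (u : ℝ) : Gam x u ∈ W (gx x) (0, 0) := by
  change Tendsto (fun n => (gx x)^[n] (Gam x u)) atTop (𝓝 (0, 0))
  simp_rw [Gam_pow_neg]
  rw [← Gam_zero x]
  refine ((continuous_Gam x).tendsto 0).comp ?_
  have := (tendsto_pow_atTop_nhds_zero_of_lt_one (r := (1 / 2 : ℝ)) (by norm_num)
    (by norm_num)).mul_const u
  rwa [zero_mul] at this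

lemma Gam_neg_mem_W (x : ℕ → Bool) {u : ℝ} (hu : u < 0) : Gam x u ∈ W (fx x) (inf, 0) := by
  have h1 : Gam x u = (e u, 0) := by
    ext
    · exact fst_Gam x u
    · exact snd_Gam_nonpos x hu.le
  change Tendsto (fun n => (fx x)^[n] (Gam x u)) atTop (𝓝 (inf, 0))
  simp_rw [h1, iter_nonpos x _ hu.le]
  refine Tendsto.prodMk_nhds ?_ tendsto_const_nhds
  exact tendsto_e_atBot.comp
    ((tendsto_pow_atTop_atTop_of_one_lt one_lt_two).atTop_mul_const_of_neg hu)

/-- the unstable set of `(0,0)` is the curve -/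
lemma W_gx_zero {x : ℕ → Bool} {z : T2} (hz : z ∈ W (gx x) (0, 0)) : ∃ u, z = Gam x u := by
  have h1 : z.1 ≠ inf := by
    intro h
    have h2 : Tendsto (fun n => ((gx x)^[n] z).1) atTop (𝓝 0) :=
      (continuous_fst.tendsto ((0, 0) : T2)).comp hz
    simp_rw [fst_iter_gx, h, R_inf] at h2
    exact inf_ne_zero (tendsto_nhds_unique tendsto_const_nhds h2)
  rcases T1_cases z.1 with h | ⟨u, hu⟩
  · exact absurd h h1
  obtain ⟨N, hN⟩ := pow_unbounded_of_one_lt |u| (one_lt_two (α := ℝ))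
  have hfst : ∀ n : ℕ, ((gx x)^[n] z).1 = e ((1 / 2) ^ n * u) := by
    intro n
    rw [fst_iter_gx, hu, R_e, exp_neg, exp_nat_mul_log_two]
    congr 2; rw [one_div, inv_pow]
  -- the second coordinate expands
  have hstep : ∀ n, N ≤ n → ((gx x)^[n + 1] z).2 = R (log 2) ((gx x)^[n] z).2 := by
    intro n hn
    rw [Function.iterate_succ_apply']
    have h3 : R (-log 2) ((gx x)^[n] z).1 = e ((1 / 2) ^ (n + 1) * u) := by
      rw [hfst, R_neg_log_two_e]; congr 1; ring
    have h4 : |(1 / 2) ^ (n + 1) * u| ≤ 1 := by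
      rw [abs_mul, abs_of_pos (by positivity), one_div, inv_pow, inv_mul_le_iff₀ (by positivity),
        mul_one]
      exact hN.le.trans (pow_le_pow_right₀ one_le_two (by omega))
    change R (-cf (R (-log 2) ((gx x)^[n] z).1)) (((gx x)^[n] z).2 -
      ((phi x (R (-log 2) ((gx x)^[n] z).1) : ℝ) : T1)) = _
    rw [h3, cf_e_small h4, phi_of_nonneg x (Cc_e_nonneg h4)]
    simp
  have hmono : ∀ k : ℕ, Cc ((gx x)^[N + k] z).2 ≤ Cc ((gx x)^[N] z).2 := by
    intro k
    induction k with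
    | zero => exact le_rfl
    | succ k ih =>
      rw [← add_assoc, hstep (N + k) (by omega)]
      exact (Cc_R_le _).trans ih
  have hlim : Tendsto (fun k : ℕ => Cc ((gx x)^[N + k] z).2) atTop (𝓝 1) := by
    have h2 : Tendsto (fun n => Cc ((gx x)^[n] z).2) atTop (𝓝 (Cc 0)) :=
      ((continuous_Cc.comp continuous_snd).tendsto ((0, 0) : T2)).comp hz
    rw [Cc_zero] at h2
    have := h2.comp (tendsto_add_atTop_nat N)
    refine this.congr (fun k => ?_)
    simp only [Function.comp, add_comm k N]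
  have hge : 1 ≤ Cc ((gx x)^[N] z).2 := le_of_tendsto' hlim hmono
  have h0 : ((gx x)^[N] z).2 = 0 := by
    rcases T1_cases ((gx x)^[N] z).2 with h | ⟨v, hv⟩
    · rw [h, Cc_inf] at hge; norm_num at hge
    · rw [hv, Cc_e, le_div_iff₀ (by positivity)] at hge
      have : v = 0 := by nlinarith [sq_nonneg v, pow_eq_zero_iff (two_ne_zero) (a := v)]
      rw [hv, this, e_zero]
  refine ⟨u, ?_⟩
  rw [Gam_eq x hN.le]
  unfold GN
  have h5 : (gx x)^[N] z = (e ((1 / 2) ^ N * u), 0) := by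
    ext
    · exact hfst N
    · exact h0
  rw [← h5]
  have : Function.LeftInverse (fx x)^[N] (gx x)^[N] := Function.LeftInverse.iterate (fx_gx x) N
  exact (this z).symm

/-- fixed points -/
lemma fixed_mem_fixS {x : ℕ → Bool} {z : T2} (hz : fx x z = z) : z ∈ fixS := by
  apply nonwandering_sub x
  intro U _ hzU
  refine ⟨1, one_pos, z, ⟨z, hzU, ?_⟩, hzU⟩
  rw [Function.iterate_one]
  exact hz

end Pool.MP_e91f84_lc
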