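import Mathlib
import Pool.Agent.Work.MP_e91f84_lc.Inv2

set_option autoImplicit false

open Filter Topology Set Real
open scoped ContDiff

namespace Pool.MP_e91f84_lc

/-- the parameters of points of the unstable curve off the stable curve of `(inf, 0)` -/
def Oset : Set ℝ := {u | ∃ (k : ℤ) (n : ℕ), u ∈ Ioo ((2 : ℝ) ^ k * la n) (2 ^ k * lb n)}

lemma lb_gt_one (n : ℕ) : 1 < lb n := (la_gt_one n).trans ((la_lt_pk n).trans (pk_lt_lb n))
lemma la_lt_two (n : ℕ) : la n < 2 := ((la_lt_pk n).trans (pk_lt_lb n)).trans (lb_lt_two n)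
lemma la_lt_lb (n : ℕ) : la n < lb n := (la_lt_pk n).trans (pk_lt_lb n)

lemma lev_mul {j : ℤ} {v : ℝ} (h1 : 1 ≤ v) (h2 : v < 2) : lev (2 ^ j * v) = j := by
  have hp : (0 : ℝ) < 2 ^ j := zpow_pos two_pos _
  apply lev_eq
  rw [zpow_add_one₀ two_ne_zero]
  constructor
  · nlinarith
  · exact mul_lt_mul_of_pos_left h2 hp

lemma lev_mem {k : ℤ} {n : ℕ} {u : ℝ} (h : u ∈ Ioo ((2 : ℝ) ^ k * la n) (2 ^ k * lb n)) :
    lev u = k := by
  have hp : (0 : ℝ) < 2 ^ k := zpow_pos two_pos _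
  have h1 := la_gt_one n
  have h2 := lb_lt_two n
  apply lev_eq
  rw [zpow_add_one₀ two_ne_zero]
  constructor
  · nlinarith [h.1]
  · nlinarith [h.2]

lemma mem_O_iff {j : ℤ} {v : ℝ} (h1 : 1 ≤ v) (h2 : v < 2) :
    (2 : ℝ) ^ j * v ∈ Oset ↔ ∃ n, v ∈ Ioo (la n) (lb n) := by
  have hp : (0 : ℝ) < 2 ^ j := zpow_pos two_pos _
  constructor
  · rintro ⟨k, n, h⟩
    have h3 := lev_mem h
    rw [lev_mul h1 h2] at h3
    subst h3
    exact ⟨n, lt_of_mul_lt_mul_left h.1 hp.le, lt_of_mul_lt_mul_left h.2 hp.le⟩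
  · rintro ⟨n, h⟩
    exact ⟨j, n, mul_lt_mul_of_pos_left h.1 hp, mul_lt_mul_of_pos_left h.2 hp⟩

lemma O_pos {u : ℝ} (h : u ∈ Oset) : 0 < u := by
  obtain ⟨k, n, h⟩ := h
  have hp : (0 : ℝ) < 2 ^ k := zpow_pos two_pos _
  have h1 := la_gt_one n
  have : 0 < (2 : ℝ) ^ k * la n := mul_pos hp (by linarith)
  exact this.trans h.1

lemma exists_mul {u : ℝ} (hu : 0 < u) : ∃ (j : ℤ) (v : ℝ), 1 ≤ v ∧ v < 2 ∧ u = 2 ^ j * v := by
  have h := lev_spec hu
  have hp : (0 : ℝ) < 2 ^ lev u := zpow_pos two_pos _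
  refine ⟨lev u, u / 2 ^ lev u, ?_, ?_, by field_simp⟩
  · rw [le_div_iff₀ hp, one_mul]; exact h.1
  · rw [div_lt_iff₀ hp, mul_comm]
    have := h.2
    rwa [zpow_add_one₀ two_ne_zero] at this

lemma lb_not_mem_O (k : ℤ) (n : ℕ) : (2 : ℝ) ^ k * lb n ∉ Oset := by
  rw [mem_O_iff (lb_gt_one n).le (lb_lt_two n)]
  rintro ⟨m, h1, h2⟩
  rcases lt_trichotomy m n with h | rfl | h
  · linarith [lb_lt_la h, la_lt_lb n]
  · exact lt_irrefl _ h2
  · linarith [lb_lt_la h]

/-- components of `Oset` -/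
lemma O_component {a b : ℝ} (hab : a ≤ b) (h : ∀ c ∈ Icc a b, c ∈ Oset) {k k' : ℤ} {n n' : ℕ}
    (ha : a ∈ Ioo ((2 : ℝ) ^ k * la n) (2 ^ k * lb n))
    (hb : b ∈ Ioo ((2 : ℝ) ^ k' * la n') (2 ^ k' * lb n')) : n = n' := by
  have hb' : b < 2 ^ k * lb n := by
    by_contra hc
    push Not at hc
    exact lb_not_mem_O k n (h _ ⟨ha.2.le, hc⟩)
  have hb'' : b ∈ Ioo ((2 : ℝ) ^ k * la n) (2 ^ k * lb n) := ⟨ha.1.trans_le hab, hb'⟩
  have h1 := lev_mem hb
  rw [lev_mem hb''] at h1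
  subst h1
  have hp : (0 : ℝ) < 2 ^ k := zpow_pos two_pos _
  obtain ⟨v, rfl⟩ : ∃ v, b = 2 ^ k * v := ⟨b / 2 ^ k, by field_simp⟩
  exact lens_disjoint (v := v)
    ⟨lt_of_mul_lt_mul_left hb''.1 hp.le, lt_of_mul_lt_mul_left hb''.2 hp.le⟩
    ⟨lt_of_mul_lt_mul_left hb.1 hp.le, lt_of_mul_lt_mul_left hb.2 hp.le⟩

lemma W_shift {f : T2 → T2} {z0 z : T2} : f z ∈ W f z0 ↔ z ∈ W f z0 := by
  change Tendsto (fun n => f^[n] (f z)) atTop (𝓝 z0) ↔ Tendsto (fun n => f^[n] z) atTop (𝓝 z0)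
  rw [← tendsto_add_atTop_iff_nat (f := fun n => f^[n] z) 1]
  rfl

lemma tan_pi_pos {t : ℝ} (h0 : 0 < t) (h1 : t ≤ 1 / 32) : 0 < tan (π * t) := by
  have hpi := pi_pos
  exact tan_pos_of_pos_of_lt_pi_div_two (by positivity) (by nlinarith)

lemma Gam_two_W_iff (x : ℕ → Bool) {v : ℝ} (h1 : 1 ≤ v) (h2 : v < 2) :
    Gam x (2 * v) ∈ W (fx x) (inf, 0) ↔ phi x (e v) = 0 := by
  have hiter : ∀ n : ℕ, (fx x)^[n] (Gam x (2 * v)) =
      (e (2 ^ (n + 1) * v), e (2 ^ n * tan (π * phi x (e v)))) := by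
    intro n
    rw [← Gam_pow]
    have e1 : (2 : ℝ) ^ n * (2 * v) = 2 ^ (n + 1) * v := by ring
    rw [e1]
    ext
    · exact fst_Gam _ _
    · exact snd_Gam_large x h1 h2.le n
  constructor
  · intro h
    by_contra hne
    have hpos : 0 < phi x (e v) := lt_of_le_of_ne (phi_nonneg _ _) (Ne.symm hne)
    have ht := tan_pi_pos hpos (phi_le _ _)
    have h3 : Tendsto (fun n => ((fx x)^[n] (Gam x (2 * v))).2) atTop (𝓝 0) :=
      (continuous_snd.tendsto ((inf, 0) : T2)).comp h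
    simp_rw [hiter] at h3
    have h4 : Tendsto (fun n : ℕ => e (2 ^ n * tan (π * phi x (e v)))) atTop (𝓝 inf) :=
      tendsto_e_atTop.comp ((tendsto_pow_atTop_atTop_of_one_lt one_lt_two).atTop_mul_const ht)
    exact inf_ne_zero (tendsto_nhds_unique h4 h3)
  · intro h
    change Tendsto (fun n => (fx x)^[n] (Gam x (2 * v))) atTop (𝓝 (inf, 0))
    simp_rw [hiter, h]
    refine Tendsto.prodMk_nhds ?_ ?_
    · have h5 : Tendsto (fun n : ℕ => (2 : ℝ) ^ (n + 1)) atTop atTop :=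
        (tendsto_pow_atTop_atTop_of_one_lt one_lt_two).comp (tendsto_add_atTop_nat 1)
      exact tendsto_e_atTop.comp (h5.atTop_mul_const (by linarith))
    · simp [e_zero]

lemma Gam_zpow_W_iff (x : ℕ → Bool) (v : ℝ) (j : ℤ) :
    Gam x (2 ^ j * v) ∈ W (fx x) (inf, 0) ↔ Gam x v ∈ W (fx x) (inf, 0) := by
  have step : ∀ j : ℤ, Gam x (2 ^ (j + 1) * v) ∈ W (fx x) (inf, 0) ↔
      Gam x (2 ^ j * v) ∈ W (fx x) (inf, 0) := by
    intro j
    have e1 : (2 : ℝ) ^ (j + 1) * v = 2 * (2 ^ j * v) := by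
      rw [zpow_add_one₀ two_ne_zero]; ring
    rw [e1, Gam_two_mul, W_shift]
  induction j using Int.induction_on with
  | zero => simp
  | succ i ih => rw [step]; exact ih
  | pred i ih =>
    rw [← step, sub_add_cancel]; exact ih

lemma Gam_W_iff (x : ℕ → Bool) {u : ℝ} (hu : u ≠ 0) :
    Gam x u ∈ W (fx x) (inf, 0) ↔ u ∉ Oset := by
  rcases lt_or_gt_of_ne hu with h | h
  · constructor
    · intro _ hO
      exact absurd (O_pos hO) (not_lt.2 h.le)
    · intro _
      exact Gam_neg_mem_W x h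
  · obtain ⟨j, v, h1, h2, rfl⟩ := exists_mul h
    rw [Gam_zpow_W_iff, mem_O_iff h1 h2, ← Gam_zpow_W_iff x v 1, zpow_one, Gam_two_W_iff x h1 h2]
    rw [← not_iff_not, not_not]
    refine (phi_ne_zero_iff x (e v)).trans ?_
    constructor
    · rintro ⟨n, w, hw, hvw⟩
      rw [e_inj] at hvw
      rw [hvw]
      exact ⟨n, hw⟩
    · rintro ⟨n, hv⟩
      exact ⟨n, v, hv, rfl⟩

lemma Gam_injective (x : ℕ → Bool) : Function.Injective (Gam x) := by
  intro a b h
  have := congrArg Prod.fst h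
  rwa [fst_Gam, fst_Gam, e_inj] at this

section conj

variable {x y : ℕ → Bool} {h : T2 ≃ₜ T2} (hh : ∀ z, h (fx x z) = fx y (h z))
include hh

lemma conj_gx (z : T2) : h (gx x z) = gx y (h z) := by
  apply fx_injective y
  rw [← hh, fx_gx, fx_gx]

lemma conj_symm (z : T2) : h.symm (fx y z) = fx x (h.symm z) := by
  rw [Homeomorph.symm_apply_eq, hh, Homeomorph.apply_symm_apply]

omit hh in
lemma exists_stable (x : ℕ → Bool) {a : T2} (ha : a = (0, 0) ∨ a = (inf, 0)) :
    (∃ z, z ≠ a ∧ z ∈ W (fx x) a) ∧ (∃ z, z ≠ a ∧ z ∈ W (gx x) a) := by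
  have hne : e 1 ≠ 0 := by rw [← e_zero, Ne, e_inj]; norm_num
  rcases ha with rfl | rfl
  · refine ⟨⟨(0, e 1), ?_, ?_⟩, ⟨Gam x 1, ?_, Gam_mem_W x 1⟩⟩
    · intro h; exact hne (congrArg Prod.snd h)
    · change Tendsto (fun n => (fx x)^[n] (0, e 1)) atTop (𝓝 (0, 0))
      simp_rw [iter_fx_left]
      exact tendsto_const_nhds.prodMk_nhds (tendsto_R_down (e_ne_inf 1))
    · intro h
      have := congrArg Prod.fst h
      rw [fst_Gam] at this
      exact hne this
  · refine ⟨⟨Gam x (-1), ?_, Gam_neg_mem_W x (by norm_num)⟩, ⟨(inf, e 1), ?_, ?_⟩⟩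
    · intro h
      have := congrArg Prod.fst h
      rw [fst_Gam] at this
      exact e_ne_inf _ this
    · intro h; exact hne (congrArg Prod.snd h)
    · change Tendsto (fun n => (gx x)^[n] (inf, e 1)) atTop (𝓝 (inf, 0))
      simp_rw [iter_gx_right]
      exact tendsto_const_nhds.prodMk_nhds (tendsto_R_down (e_ne_inf 1))

lemma h_sad {a : T2} (ha : a = (0, 0) ∨ a = (inf, 0)) : h a = (0, 0) ∨ h a = (inf, 0) := by
  have hfix : a ∈ fixS := by
    rcases ha with rfl | rfl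
    · exact ⟨Or.inl rfl, Or.inl rfl⟩
    · exact ⟨Or.inr rfl, Or.inl rfl⟩
  have h1 : h a ∈ fixS := by
    apply fixed_mem_fixS (x := y)
    rw [← hh, fx_fixS x hfix]
  obtain ⟨⟨z, hz, hzW⟩, ⟨z', hz', hzW'⟩⟩ := exists_stable x ha
  obtain ⟨h2, h3⟩ := h1
  rcases h3 with h3 | h3
  · rcases h2 with h2 | h2
    · left; ext
      · exact h2
      · exact h3
    · right; ext
      · exact h2
      · exact h3
  · exfalso
    rcases h2 with h2 | h2
    · have h4 : h a = (0, inf) := by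
        ext
        · exact h2
        · exact h3
      have h5 := mem_W_map h.continuous hh hzW
      rw [h4] at h5
      have h6 := W_source h5
      rw [← h4] at h6
      exact hz (h.injective h6)
    · have h4 : h a = (inf, inf) := by
        ext
        · exact h2
        · exact h3
      have h5 := mem_W_map h.continuous (conj_gx hh) hzW'
      rw [h4] at h5
      have h6 := W_sink h5
      rw [← h4] at h6
      exact hz' (h.injective h6)

lemma h_p : h (0, 0) = (0, 0) := by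
  rcases h_sad hh (Or.inl rfl) with h1 | h1
  · exact h1
  · exfalso
    rcases h_sad hh (Or.inr rfl) with h2 | h2
    · have hg : Gam x (-1) ∈ W (gx x) (0, 0) := Gam_mem_W x _
      have hf : Gam x (-1) ∈ W (fx x) (inf, 0) := Gam_neg_mem_W x (by norm_num)
      have hg' := mem_W_map h.continuous (conj_gx hh) hg
      have hf' := mem_W_map h.continuous hh hf
      rw [h1] at hg'
      rw [h2] at hf'
      have h3 := W_gx_fst hg' inf_ne_zero
      have h4 := W_fx_fst hf' inf_ne_zero.symm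
      rw [h3] at h4
      exact inf_ne_zero h4
    · rw [← h2] at h1
      have := h.injective h1
      exact inf_ne_zero (congrArg Prod.fst this).symm

lemma h_q : h (inf, 0) = (inf, 0) := by
  rcases h_sad hh (Or.inr rfl) with h1 | h1
  · rw [← h_p hh] at h1
    exact absurd (congrArg Prod.fst (h.injective h1)) inf_ne_zero
  · exact h1

omit hh in
/-- the induced map of the line -/
noncomputable def eta (x : ℕ → Bool) (h : T2 ≃ₜ T2) (u : ℝ) : ℝ := uu (h (Gam x u)).1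

lemma eta_spec (u : ℝ) : h (Gam x u) = Gam y (eta x h u) := by
  have h1 := mem_W_map h.continuous (conj_gx hh) (Gam_mem_W x u)
  rw [h_p hh] at h1
  obtain ⟨v, hv⟩ := W_gx_zero h1
  unfold eta
  rw [hv, fst_Gam, uu_e]

lemma eta_continuous : Continuous (eta x h) := by
  rw [continuous_iff_continuousAt]
  intro u
  have h1 : (h (Gam x u)).1 ≠ inf := by
    rw [eta_spec hh, fst_Gam]; exact e_ne_inf _
  have h2 : ContinuousAt (fun u => (h (Gam x u)).1) u :=
    (continuous_fst.comp (h.continuous.comp (continuous_Gam x))).continuousAt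
  exact ContinuousAt.comp (g := uu) (f := fun u => (h (Gam x u)).1) (continuousAt_uu h1) h2

lemma eta_injective : Function.Injective (eta x h) := by
  intro a b hab
  apply Gam_injective x
  apply h.injective
  rw [eta_spec hh, eta_spec hh, hab]

lemma eta_two_mul (u : ℝ) : eta x h (2 * u) = 2 * eta x h u := by
  apply Gam_injective y
  rw [← eta_spec hh, Gam_two_mul, hh, eta_spec hh, Gam_two_mul]

lemma eta_zero : eta x h 0 = 0 := by
  have := eta_two_mul hh 0
  rw [mul_zero] at this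
  linarith

lemma eta_pow (k : ℤ) (u : ℝ) : eta x h (2 ^ k * u) = 2 ^ k * eta x h u := by
  have step : ∀ j : ℤ, eta x h (2 ^ (j + 1) * u) = 2 * eta x h (2 ^ j * u) := by
    intro j
    rw [← eta_two_mul hh]
    congr 1
    rw [zpow_add_one₀ two_ne_zero]; ring
  induction k using Int.induction_on with
  | zero => simp
  | succ i ih => rw [step, ih, zpow_add_one₀ two_ne_zero]; ring
  | pred i ih =>
    have h1 := step (-(i : ℤ) - 1)
    rw [sub_add_cancel, ih] at h1
    have e1 : (2 : ℝ) ^ (-(i : ℤ)) = 2 ^ (-(i : ℤ) - 1) * 2 := by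
      rw [← zpow_add_one₀ two_ne_zero, sub_add_cancel]
    rw [e1] at h1
    linarith

lemma eta_O (u : ℝ) : eta x h u ∈ Oset ↔ u ∈ Oset := by
  by_cases hu : u = 0
  · subst hu
    rw [eta_zero hh]
  · have hu' : eta x h u ≠ 0 := by
      rw [← eta_zero hh]
      exact fun h' => hu (eta_injective hh h')
    rw [← not_iff_not, ← Gam_W_iff y hu', ← Gam_W_iff x hu, ← eta_spec hh]
    constructor
    · intro h1
      have h2 := mem_W_map h.symm.continuous (conj_symm hh) h1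
      have h3 : h.symm (inf, 0) = (inf, 0) := by
        rw [Homeomorph.symm_apply_eq, h_q hh]
      rwa [h3, Homeomorph.symm_apply_apply] at h2
    · intro h1
      have h2 := mem_W_map h.continuous hh h1
      rwa [h_q hh] at h2

omit hh in
lemma pk_mem_O (n : ℕ) : pk n ∈ Oset := ⟨0, n, by
  rw [zpow_zero, one_mul, one_mul]; exact ⟨la_lt_pk n, pk_lt_lb n⟩⟩

lemma eta_strictMono : StrictMono (eta x h) := by
  rcases (eta_continuous hh).strictMono_of_inj (eta_injective hh) with h1 | h1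
  · exact h1
  · exfalso
    have h2 : pk 0 ∈ Oset := pk_mem_O 0
    have h3 := O_pos ((eta_O hh _).2 h2)
    have h4 := h1 (O_pos h2)
    rw [eta_zero hh] at h4
    linarith

end conj

end Pool.MP_e91f84_lc
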