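import Mathlib
import Pool.Agent.Work.MP_e91f84_lc.Inv3

set_option autoImplicit false

open Filter Topology Set Real
open scoped ContDiff

namespace Pool.MP_e91f84_lc

/-- combinatorics of injective self-maps of `ℕ` with `ν n ≤ n` eventually -/
lemma eventually_eq_of_le {ν : ℕ → ℕ} (hinj : Function.Injective ν) {N : ℕ}
    (hle : ∀ n, N ≤ n → ν n ≤ n) : ∃ N', ∀ n, N' ≤ n → ν n = n := by
  obtain ⟨K, hK⟩ : ∃ K, ∀ i, i < N → ν i < K := by
    refine ⟨(Finset.range N).sup ν + 1, fun i hi => ?_⟩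
    have := Finset.le_sup (f := ν) (Finset.mem_range.2 hi)
    omega
  refine ⟨max N K, fun n hn => ?_⟩
  have hN : N ≤ n := (le_max_left _ _).trans hn
  have hKn : K ≤ n := (le_max_right _ _).trans hn
  refine le_antisymm (hle n hN) ?_
  by_contra hlt
  push Not at hlt
  have hsub : (Finset.range n).image ν ⊆ Finset.range n := by
    intro m hm
    obtain ⟨i, hi, rfl⟩ := Finset.mem_image.1 hm
    rw [Finset.mem_range] at hi ⊢
    rcases lt_or_ge i N with h | h
    · exact (hK i h).trans_le hKn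
    · exact (hle i h).trans_lt hi
  have heq : (Finset.range n).image ν = Finset.range n := by
    apply Finset.eq_of_subset_of_card_le hsub
    rw [Finset.card_image_of_injective _ hinj]
  have h1 : ν n ∈ (Finset.range n).image ν := by
    rw [heq, Finset.mem_range]; exact hlt
  obtain ⟨i, hi, hin⟩ := Finset.mem_image.1 h1
  rw [Finset.mem_range] at hi
  exact hi.ne (hinj hin)

lemma phi_le_M (y : ℕ → Bool) {m : ℕ} {v : ℝ} (hv : v ∈ Ioo (la m) (lb m)) :
    phi y (e v) ≤ M m (y m) := by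
  rw [phi_eq_term hv]; exact term_le y m _

lemma tan_phi_le (y : ℕ → Bool) {m : ℕ} {v : ℝ} (hv : v ∈ Ioo (la m) (lb m)) :
    0 ≤ tan (π * phi y (e v)) ∧ tan (π * phi y (e v)) ≤ Ht m (y m) := by
  have hpi := pi_pos
  have h1 := phi_nonneg y (e v)
  have h2 := phi_le_M y hv
  have h3 := M_le_32 m (y m)
  constructor
  · apply tan_nonneg_of_nonneg_of_le_pi_div_two (by positivity)
    nlinarith
  · unfold Ht
    rcases eq_or_lt_of_le h2 with h | h
    · rw [h]
    · refine (tan_lt_tan_of_lt_of_lt_pi_div_two ?_ ?_ ?_).le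
      · nlinarith
      · nlinarith
      · exact mul_lt_mul_of_pos_left h hpi

/-- the scaling exponent -/
lemma exists_kk (n : ℕ) (b : Bool) : ∃ k : ℕ, 1 ≤ 2 ^ k * Ht n b ∧ 2 ^ k * Ht n b ≤ 2 := by
  have h1 := Ht_pos n b
  have h2 : Ht n b ≤ 1 := (Ht_le n b).trans (pow_half_le_one n)
  obtain ⟨k, hk1, hk2⟩ := exists_nat_pow_near (x := (Ht n b)⁻¹) (y := (2 : ℝ))
    ((one_le_inv₀ h1).2 h2) one_lt_two
  refine ⟨k + 1, ?_, ?_⟩
  · have := mul_lt_mul_of_pos_right hk2 h1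
    rw [inv_mul_cancel₀ h1.ne'] at this
    exact this.le
  · have := mul_le_mul_of_nonneg_right hk1 h1.le
    rw [inv_mul_cancel₀ h1.ne'] at this
    rw [pow_succ]; linarith

section conj

variable {x y : ℕ → Bool} {h : T2 ≃ₜ T2} (hh : ∀ z, h (fx x z) = fx y (h z))
include hh

lemma exists_nu (n : ℕ) : ∃ p : ℕ × ℤ, eta x h (pk n) ∈
    Ioo ((2 : ℝ) ^ p.2 * la p.1) (2 ^ p.2 * lb p.1) := by
  obtain ⟨j, m, h⟩ := (eta_O hh _).2 (pk_mem_O n)
  exact ⟨(m, j), h⟩

lemma nu_injective {p : ℕ → ℕ × ℤ} (hp : ∀ n, eta x h (pk n) ∈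
    Ioo ((2 : ℝ) ^ (p n).2 * la (p n).1) (2 ^ (p n).2 * lb (p n).1)) :
    Function.Injective (fun n => (p n).1) := by
  intro n n' heq
  simp only at heq
  have key : ∀ n, eta x h (2 ^ (-(p n).2) * pk n) ∈ Ioo (la (p n).1) (lb (p n).1) := by
    intro n
    have h1 := hp n
    have h2 : (0 : ℝ) < 2 ^ (-(p n).2) := zpow_pos two_pos _
    have h3 : (2 : ℝ) ^ (-(p n).2) * 2 ^ (p n).2 = 1 := by
      rw [← zpow_add₀ two_ne_zero]; simp
    rw [eta_pow hh]
    constructor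
    · have := mul_lt_mul_of_pos_left h1.1 h2
      rwa [← mul_assoc, h3, one_mul] at this
    · have := mul_lt_mul_of_pos_left h1.2 h2
      rwa [← mul_assoc, h3, one_mul] at this
  have hmem : ∀ n, (2 : ℝ) ^ (-(p n).2) * pk n ∈
      Ioo ((2 : ℝ) ^ (-(p n).2) * la n) (2 ^ (-(p n).2) * lb n) := by
    intro n
    have h2 : (0 : ℝ) < 2 ^ (-(p n).2) := zpow_pos two_pos _
    exact ⟨mul_lt_mul_of_pos_left (la_lt_pk n) h2, mul_lt_mul_of_pos_left (pk_lt_lb n) h2⟩
  have hO : ∀ m (v : ℝ), v ∈ Ioo (la m) (lb m) → v ∈ Oset := by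
    intro m v hv
    exact ⟨0, m, by rw [zpow_zero, one_mul, one_mul]; exact hv⟩
  have hmono := eta_strictMono hh
  have main : ∀ n n', (p n).1 = (p n').1 →
      (2 : ℝ) ^ (-(p n).2) * pk n ≤ 2 ^ (-(p n').2) * pk n' → n = n' := by
    intro n n' heq hle
    refine O_component hle ?_ (hmem n) (hmem n')
    intro c hc
    rw [← eta_O hh]
    have h1 := key n
    have h2 := key n'
    rw [← heq] at h2
    exact hO _ _ ⟨h1.1.trans_le (hmono.monotone hc.1), (hmono.monotone hc.2).trans_lt h2.2⟩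
  rcases le_total ((2 : ℝ) ^ (-(p n).2) * pk n) (2 ^ (-(p n').2) * pk n') with h1 | h1
  · exact main n n' heq h1
  · exact (main n' n heq.symm h1).symm

/-- near the saddle `(inf, 0)` heights of order one are mapped to heights bounded below -/
lemma exists_tube : ∃ κ : ℝ, 0 < κ ∧ ∃ U : Set T1, IsOpen U ∧ inf ∈ U ∧
    ∀ s ∈ U, ∀ t ∈ Icc (1 : ℝ) 2, ¬ Gk κ (h (s, e t)).2 := by
  have hne : ∀ t ∈ Icc (1 : ℝ) 2, (h (inf, e t)).2 ≠ 0 := by
    intro t ht h0
    have h1 : ((inf, e t) : T2) ∈ W (gx x) (inf, 0) := by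
      change Tendsto (fun n => (gx x)^[n] (inf, e t)) atTop (𝓝 (inf, 0))
      simp_rw [iter_gx_right]
      exact tendsto_const_nhds.prodMk_nhds (tendsto_R_down (e_ne_inf t))
    have h2 := mem_W_map h.continuous (conj_gx hh) h1
    rw [h_q hh] at h2
    have h3 := W_gx_fst h2 inf_ne_zero
    have h4 : h (inf, e t) = h (inf, 0) := by
      rw [h_q hh]
      ext
      · exact h3
      · exact h0
    have h5 : e t = 0 := congrArg Prod.snd (h.injective h4)
    rw [← e_zero, e_inj] at h5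
    linarith [ht.1]
  have hC : ∀ p : T1, p ≠ 0 → Cc p < 1 := by
    intro p hp
    rcases T1_cases p with rfl | ⟨v, rfl⟩
    · rw [Cc_inf]; norm_num
    · have hv : v ≠ 0 := by rintro rfl; exact hp e_zero
      have : 0 < v ^ 2 := by positivity
      rw [Cc_e, div_lt_iff₀ (by positivity)]; linarith
  have hcont : Continuous (fun t : ℝ => Cc (h (inf, e t)).2) :=
    continuous_Cc.comp (continuous_snd.comp (h.continuous.comp
      (continuous_const.prodMk continuous_e)))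
  obtain ⟨t0, ht0, hmax⟩ := (isCompact_Icc (a := (1 : ℝ)) (b := 2)).exists_isMaxOn
    (nonempty_Icc.2 one_le_two) hcont.continuousOn
  have h1 : Cc (h (inf, e t0)).2 < 1 := hC _ (hne t0 ht0)
  obtain ⟨c, hc1, hc2⟩ := exists_between (max_lt h1 one_pos)
  have hc3 : Cc (h (inf, e t0)).2 < c := (le_max_left _ _).trans_lt hc1
  have hc4 : 0 < c := (le_max_right _ _).trans_lt hc1
  have ho : IsOpen {z : T2 | Cc (h z).2 < c} :=
    isOpen_lt (continuous_Cc.comp (continuous_snd.comp h.continuous)) continuous_const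
  have hsub : ({inf} : Set T1) ×ˢ (e '' Icc (1 : ℝ) 2) ⊆ {z : T2 | Cc (h z).2 < c} := by
    rintro ⟨s, w⟩ ⟨hs, t, ht, rfl⟩
    rw [mem_singleton_iff] at hs
    simp only at hs
    subst hs
    exact (hmax ht).trans_lt hc3
  obtain ⟨U, V, hU, _, hsU, htV, hUV⟩ := generalized_tube_lemma (isCompact_singleton (x := inf))
    (isCompact_Icc.image continuous_e) ho hsub
  refine ⟨(1 - c) / (1 + c), div_pos (by linarith) (by linarith), U, hU, hsU rfl, ?_⟩
  intro s hs t ht hG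
  have h2 : Cc (h (s, e t)).2 < c := hUV (mk_mem_prod hs (htV ⟨t, ht, rfl⟩))
  unfold Gk at hG
  have h3 := neg_one_le_Cc (h (s, e t)).2
  have h4 : (1 - c) / (1 + c) * (1 + Cc (h (s, e t)).2) ≤ 1 - c := by
    rw [div_mul_eq_mul_div, div_le_iff₀ (by linarith)]
    exact mul_le_mul_of_nonneg_left (by linarith) (by linarith)
  linarith

theorem height_compare {p : ℕ → ℕ × ℤ} (hp : ∀ n, eta x h (pk n) ∈
    Ioo ((2 : ℝ) ^ (p n).2 * la (p n).1) (2 ^ (p n).2 * lb (p n).1)) :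
    ∃ c : ℝ, 0 < c ∧ ∀ᶠ n in atTop, c * Ht n (x n) ≤ Ht (p n).1 (y (p n).1) := by
  obtain ⟨κ, hκ, U, hU, hinf, hG⟩ := exists_tube hh
  have hmono := eta_strictMono hh
  set C := eta x h 2 with hC
  have hCpos : 0 < C := by
    rw [hC, ← eta_zero hh]; exact hmono two_pos
  have hsq : 0 < √κ := sqrt_pos.2 hκ
  choose k hk1 hk2 using fun n => exists_kk n (x n)
  refine ⟨√κ / (2 * C), by positivity, ?_⟩
  -- the points `z_n` approach the circle at infinity
  have htop : Tendsto (fun n => (2 : ℝ) ^ (k n + 1) * pk n) atTop atTop := by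
    refine tendsto_atTop_mono (f := fun n : ℕ => (2 : ℝ) ^ n) (fun n => ?_)
      (tendsto_pow_atTop_atTop_of_one_lt one_lt_two)
    have h1 := hk1 n
    have h2 := Ht_le n (x n)
    have h3 : 1 < pk n := (la_gt_one n).trans (la_lt_pk n)
    have h4 : (1 : ℝ) ≤ 2 ^ (k n) * (1 / 2) ^ n :=
      h1.trans (mul_le_mul_of_nonneg_left h2 (by positivity))
    have h5 : (2 : ℝ) ^ n ≤ 2 ^ (k n) := by
      rw [one_div, inv_pow, ← div_eq_mul_inv, one_le_div (by positivity)] at h4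
      exact h4
    have h6 : (0 : ℝ) < 2 ^ (k n) := by positivity
    rw [pow_succ]; nlinarith
  have hev : ∀ᶠ n in atTop, e ((2 : ℝ) ^ (k n + 1) * pk n) ∈ U :=
    (tendsto_e_atTop.comp htop).eventually (hU.mem_nhds hinf)
  filter_upwards [hev] with n hn
  set t := (2 : ℝ) ^ (k n) * Ht n (x n) with ht
  have hz : Gam x (2 ^ (k n + 1) * pk n) = (e ((2 : ℝ) ^ (k n + 1) * pk n), e t) := by
    ext
    · exact fst_Gam _ _
    · rw [snd_Gam_large x ((la_gt_one n).trans (la_lt_pk n)).le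
        ((pk_lt_lb n).trans (lb_lt_two n)).le, phi_pk]
      rfl
  have h1 := hG _ hn t ⟨hk1 n, hk2 n⟩
  rw [← hz, eta_spec hh] at h1
  -- write the image point
  set m := (p n).1 with hm
  set j := (p n).2 with hj
  have hpn := hp n
  rw [← hm, ← hj] at hpn
  have hpow : (0 : ℝ) < 2 ^ j := zpow_pos two_pos _
  obtain ⟨v, hv⟩ : ∃ v, eta x h (pk n) = 2 ^ j * v :=
    ⟨eta x h (pk n) / 2 ^ j, by field_simp⟩
  have hvm : v ∈ Ioo (la m) (lb m) := by
    rw [hv] at hpn
    exact ⟨lt_of_mul_lt_mul_left hpn.1 hpow.le, lt_of_mul_lt_mul_left hpn.2 hpow.le⟩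
  have hv1 : 1 < v := (la_gt_one m).trans hvm.1
  have hv2 : v < 2 := hvm.2.trans (lb_lt_two m)
  have hjC : (2 : ℝ) ^ j ≤ C := by
    have h2 : eta x h (pk n) < C := hmono ((pk_lt_lb n).trans (lb_lt_two n))
    rw [hv] at h2
    nlinarith
  have heta : eta x h (2 ^ (k n + 1) * pk n) = 2 ^ ((k n : ℤ) + 1 + j) * v := by
    have h2 := eta_pow hh ((k n : ℤ) + 1) (pk n)
    have e1 : (2 : ℝ) ^ ((k n : ℤ) + 1) = 2 ^ (k n + 1) := by
      rw [show ((k n : ℤ) + 1) = ((k n + 1 : ℕ) : ℤ) by push_cast; ring, zpow_natCast]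
    rw [e1, hv] at h2
    rw [h2, zpow_add₀ two_ne_zero, e1]; ring
  rw [heta] at h1
  rcases lt_or_ge ((k n : ℤ) + j) 0 with hneg | hpos
  · exfalso
    apply h1
    have h3 : (2 : ℝ) ^ ((k n : ℤ) + 1 + j) * v ≤ 2 := by
      have h4 : (2 : ℝ) ^ ((k n : ℤ) + 1 + j) ≤ 2 ^ (0 : ℤ) :=
        zpow_le_zpow_right₀ one_le_two (by omega)
      rw [zpow_zero] at h4
      nlinarith
    rw [snd_Gam_le_two y h3, ← e_zero, Gk_e]
    simpa using hκ
  · obtain ⟨i, hi⟩ : ∃ i : ℕ, (k n : ℤ) + j = i := ⟨((k n : ℤ) + j).toNat, by omega⟩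
    have e2 : (2 : ℝ) ^ ((k n : ℤ) + 1 + j) = 2 ^ (i + 1) := by
      rw [show (k n : ℤ) + 1 + j = ((i + 1 : ℕ) : ℤ) by push_cast; omega, zpow_natCast]
    rw [e2, snd_Gam_large y hv1.le hv2.le i, Gk_e, not_lt] at h1
    obtain ⟨ht0, ht1⟩ := tan_phi_le y hvm
    have e3 : (2 : ℝ) ^ i = 2 ^ (k n) * 2 ^ j := by
      rw [← zpow_natCast, ← hi, zpow_add₀ two_ne_zero, zpow_natCast]
    have h5 : √κ ≤ 2 ^ i * tan (π * phi y (e v)) := by
      rw [← sqrt_sq (mul_nonneg (by positivity : (0 : ℝ) ≤ 2 ^ i) ht0)]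
      exact sqrt_le_sqrt h1
    have hHt := Ht_pos n (x n)
    have hHm := Ht_pos m (y m)
    have hkpos : (0 : ℝ) < 2 ^ (k n) := by positivity
    have h6 : √κ ≤ 2 ^ (k n) * (C * Ht m (y m)) := by
      calc √κ ≤ 2 ^ i * tan (π * phi y (e v)) := h5
        _ ≤ 2 ^ i * Ht m (y m) := mul_le_mul_of_nonneg_left ht1 (by positivity)
        _ = 2 ^ (k n) * (2 ^ j * Ht m (y m)) := by rw [e3]; ring
        _ ≤ 2 ^ (k n) * (C * Ht m (y m)) :=
          mul_le_mul_of_nonneg_left (mul_le_mul_of_nonneg_right hjC hHm.le) hkpos.le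
    have h7 : √κ * Ht n (x n) ≤ 2 * (C * Ht m (y m)) := by
      calc √κ * Ht n (x n) ≤ 2 ^ (k n) * (C * Ht m (y m)) * Ht n (x n) :=
            mul_le_mul_of_nonneg_right h6 hHt.le
        _ = (2 ^ (k n) * Ht n (x n)) * (C * Ht m (y m)) := by ring
        _ ≤ 2 * (C * Ht m (y m)) := mul_le_mul_of_nonneg_right (hk2 n) (by positivity)
    rw [div_mul_eq_mul_div, div_le_iff₀ (by positivity)]
    linarith

theorem eventually_imp : ∀ᶠ n in atTop, x n = true → y n = true := by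
  choose p hp using exists_nu hh
  obtain ⟨c, hc, hev⟩ := height_compare hh hp
  obtain ⟨N1, hN1⟩ := eventually_atTop.1 hev
  obtain ⟨N2, hN2⟩ : ∃ N2 : ℕ, ∀ n, N2 ≤ n → (1 / 2 : ℝ) ^ n < c := by
    have h1 : Tendsto (fun n : ℕ => (1 / 2 : ℝ) ^ n) atTop (𝓝 0) :=
      tendsto_pow_atTop_nhds_zero_of_lt_one (by norm_num) (by norm_num)
    exact eventually_atTop.1 (h1.eventually_lt_const hc)
  have hle : ∀ n, max N1 N2 ≤ n → (p n).1 ≤ n := by
    intro n hn
    by_contra hlt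
    push Not at hlt
    have h1 := hN1 n ((le_max_left _ _).trans hn)
    have h2 := hN2 n ((le_max_right _ _).trans hn)
    have h3 := Ht_sep_lt hlt (x n) (y (p n).1)
    have h4 := Ht_pos n (x n)
    nlinarith
  obtain ⟨N', hN'⟩ := eventually_eq_of_le (nu_injective hh hp) hle
  filter_upwards [eventually_ge_atTop (max N' (max N1 N2))] with n hn hxn
  have h0 : N' ≤ n := (le_max_left _ _).trans hn
  have hn' : max N1 N2 ≤ n := (le_max_right _ _).trans hn
  have h1 := hN1 n ((le_max_left _ _).trans hn')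
  have h2 := hN2 n ((le_max_right _ _).trans hn')
  have h3 : (p n).1 = n := hN' n h0
  rw [h3, hxn] at h1
  by_contra hyn
  rw [Bool.not_eq_true] at hyn
  rw [hyn] at h1
  have h4 := Ht_sep_same n
  have h5 := Ht_pos n true
  nlinarith

end conj

theorem eventually_of_topConj {x y : ℕ → Bool} (hc : TopConj (Phi x) (Phi y)) :
    ∀ᶠ n in atTop, x n = y n := by
  obtain ⟨h, hh⟩ := hc
  have hh1 : ∀ z, h (fx x z) = fx y (h z) := hh
  have hh2 : ∀ z, h.symm (fx y z) = fx x (h.symm z) := conj_symm hh1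
  filter_upwards [eventually_imp hh1, eventually_imp hh2] with n h1 h2
  rcases hx : x n with _ | _ <;> rcases hy : y n with _ | _
  · rfl
  · exact absurd (h2 hy) (by rw [hx]; simp)
  · exact absurd (h1 hx) (by rw [hy]; simp)
  · rfl

end Pool.MP_e91f84_lc
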