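import Mathlib
import Pool.Agent.Work.MP_e91f84_lc.Map

set_option autoImplicit false

open Filter Topology Set Real
open scoped ContDiff

namespace Pool.MP_e91f84_lc

lemma int_valued_const {g : ℝ × ℝ → ℝ} (hg : Continuous g) (h : ∀ z, ∃ n : ℤ, g z = n) :
    ∀ z w, g z = g w := by
  choose k hk using h
  have hkc : Continuous k := by
    rw [Int.isClosedEmbedding_coe_real.isInducing.continuous_iff]
    have : ((fun n : ℤ => (n : ℝ)) ∘ k) = g := by ext z; simp [hk]
    rw [this]; exact hg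
  intro z w
  rw [hk z, hk w, PreconnectedSpace.constant inferInstance hkc (x := z) (y := w)]

lemma coe_eq_iff (a b : ℝ) : (a : T1) = (b : T1) ↔ ∃ n : ℤ, a - b = n := by
  rw [← sub_eq_zero, ← AddCircle.coe_sub, AddCircle.coe_eq_zero_iff]
  constructor
  · rintro ⟨n, hn⟩; exact ⟨n, by rw [← hn]; simp⟩
  · rintro ⟨n, hn⟩; exact ⟨n, by rw [hn]; simp⟩

/-- two continuous lifts of the same map differ by a constant -/
lemma lifts_differ {F G : ℝ × ℝ → ℝ × ℝ} (hF : Continuous F) (hG : Continuous G)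
    (h : ∀ z, proj (F z) = proj (G z)) : ∃ c : ℝ × ℝ, ∀ z, F z = G z + c := by
  have h1 : ∀ z, ∃ n : ℤ, (F z).1 - (G z).1 = n := fun z =>
    (coe_eq_iff _ _).1 (congrArg Prod.fst (h z))
  have h2 : ∀ z, ∃ n : ℤ, (F z).2 - (G z).2 = n := fun z =>
    (coe_eq_iff _ _).1 (congrArg Prod.snd (h z))
  have c1 := int_valued_const ((continuous_fst.comp hF).sub (continuous_fst.comp hG)) h1
  have c2 := int_valued_const ((continuous_snd.comp hF).sub (continuous_snd.comp hG)) h2
  refine ⟨((F 0).1 - (G 0).1, (F 0).2 - (G 0).2), fun z => ?_⟩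
  have a1 : (F z).1 - (G z).1 = (F 0).1 - (G 0).1 := c1 z 0
  have a2 : (F z).2 - (G z).2 = (F 0).2 - (G 0).2 := c2 z 0
  ext
  · simp only [Prod.fst_add]; linarith
  · simp only [Prod.snd_add]; linarith

lemma jet_eq (x : ℕ → Bool) (k : ℕ) : (Phi x).jet (k + 1) = iteratedFDeriv ℝ (k + 1) (Fx x) := by
  have hspec := Classical.choose_spec (Phi x).smooth
  have hc : Continuous (Phi x).lift := hspec.1.continuous
  obtain ⟨c, hcc⟩ := lifts_differ hc (contDiff_Fx x).continuous (fun z => by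
    rw [← fx_proj]; exact (hspec.2 z).symm)
  unfold DiffT2.jet
  have h1 : (Phi x).lift = Fx x + fun _ => c := funext hcc
  ext1 z
  rw [h1, iteratedFDeriv_add_apply ((contDiff_Fx x).contDiffAt.of_le (by exact_mod_cast le_top))
    contDiff_const.contDiffAt, iteratedFDeriv_succ_const]
  simp

/-- the part of the lift not depending on `x` -/
noncomputable def base (z : ℝ × ℝ) : ℝ × ℝ := (r (log 2) z.1, r (cl z.1) z.2)

lemma contDiff_base : ContDiff ℝ ∞ base := by
  unfold base
  exact ((contDiff_r_const _).comp contDiff_fst).prodMk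
    (contDiff_r.comp ((contDiff_cl.comp contDiff_fst).prodMk contDiff_snd))

/-- vertical function -/
def vert (f : ℝ → ℝ) (z : ℝ × ℝ) : ℝ × ℝ := (0, f z.1)

lemma contDiff_vert {f : ℝ → ℝ} (hf : ContDiff ℝ ∞ f) : ContDiff ℝ ∞ (vert f) := by
  unfold vert
  exact contDiff_const.prodMk (hf.comp contDiff_fst)

lemma Fx_eq (x : ℕ → Bool) : Fx x = base + vert (phil x) := by
  ext z <;> simp [Fx, base, vert]

lemma norm_iter_vert {f : ℝ → ℝ} (hf : ContDiff ℝ ∞ f) (k : ℕ) (z : ℝ × ℝ) :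
    ‖iteratedFDeriv ℝ k (vert f) z‖ ≤ ‖iteratedFDeriv ℝ k f z.1‖ := by
  have h1 : vert f = (ContinuousLinearMap.inr ℝ ℝ ℝ) ∘ (f ∘ (ContinuousLinearMap.fst ℝ ℝ ℝ)) := by
    ext z <;> simp [vert]
  have hk : ((k : ℕ) : WithTop ℕ∞) ≤ ∞ := by exact_mod_cast le_top
  have hf2 : ContDiff ℝ ∞ (f ∘ (ContinuousLinearMap.fst ℝ ℝ ℝ)) :=
    hf.comp (ContinuousLinearMap.fst ℝ ℝ ℝ).contDiff
  rw [h1]
  refine ((ContinuousLinearMap.inr ℝ ℝ ℝ).norm_iteratedFDeriv_comp_left hf2.contDiffAt hk).trans ?_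
  have h2 : ‖iteratedFDeriv ℝ k (f ∘ (ContinuousLinearMap.fst ℝ ℝ ℝ)) z‖ ≤
      ‖iteratedFDeriv ℝ k f z.1‖ := by
    rw [(ContinuousLinearMap.fst ℝ ℝ ℝ).iteratedFDeriv_comp_right hf z hk]
    refine (ContinuousMultilinearMap.norm_compContinuousLinearMap_le _ _).trans ?_
    have h3 : ∏ _i : Fin k, ‖ContinuousLinearMap.fst ℝ ℝ ℝ‖ ≤ 1 := by
      refine Finset.prod_le_one (fun _ _ => norm_nonneg _) (fun _ _ => ?_)
      exact ContinuousLinearMap.norm_fst_le ℝ ℝ ℝ
    calc ‖iteratedFDeriv ℝ k f ((ContinuousLinearMap.fst ℝ ℝ ℝ) z)‖ *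
          ∏ _i : Fin k, ‖ContinuousLinearMap.fst ℝ ℝ ℝ‖
        ≤ ‖iteratedFDeriv ℝ k f ((ContinuousLinearMap.fst ℝ ℝ ℝ) z)‖ * 1 :=
          mul_le_mul_of_nonneg_left h3 (norm_nonneg _)
      _ = ‖iteratedFDeriv ℝ k f z.1‖ := by rw [mul_one]; rfl
  have h4 : ‖ContinuousLinearMap.inr ℝ ℝ ℝ‖ ≤ 1 := ContinuousLinearMap.norm_inr_le_one ℝ ℝ ℝ
  calc ‖ContinuousLinearMap.inr ℝ ℝ ℝ‖ * ‖iteratedFDeriv ℝ k (f ∘ (ContinuousLinearMap.fst ℝ ℝ ℝ)) z‖
      ≤ 1 * ‖iteratedFDeriv ℝ k f z.1‖ :=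
        mul_le_mul h4 h2 (norm_nonneg _) zero_le_one
    _ = _ := one_mul _

lemma summable_termL (x : ℕ → Bool) (s : ℝ) : Summable (fun n => termL x n s) := by
  refine Summable.of_norm_bounded (g := fun n => 2 * (1 / 2 : ℝ) ^ n)
    ((summable_geometric_of_lt_one (by norm_num) (by norm_num)).mul_left 2) ?_
  intro n
  have := norm_iter_termL x (Nat.zero_le n) s
  rwa [norm_iteratedFDeriv_zero] at this

lemma norm_iter_phil_sub {x y : ℕ → Bool} {N k : ℕ} (hk : k ≤ N) (h : ∀ n < N, x n = y n) (s : ℝ) :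
    ‖iteratedFDeriv ℝ k (phil x - phil y) s‖ ≤ 8 * (1 / 2) ^ N := by
  set d : ℕ → ℝ → ℝ := fun n => termL x n - termL y n with hd
  have h1 : phil x - phil y = fun s => ∑' n, d n s := by
    ext s
    simp only [Pi.sub_apply, phil, hd]
    exact ((summable_termL x s).tsum_sub (summable_termL y s)).symm
  set v : ℕ → ℝ := fun n => if n < N then 0 else 4 * (1 / 2) ^ N * (1 / 2) ^ (n - N) with hv
  have hd0 : ∀ n < N, d n = 0 := by
    intro n hn
    ext s
    simp only [hd, Pi.sub_apply, termL, h n hn]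
    simp
  have hdc : ∀ n, ContDiff ℝ ∞ (d n) := fun n => (contDiff_termL x n).sub (contDiff_termL y n)
  have hdv : ∀ j ≤ N, ∀ n s, ‖iteratedFDeriv ℝ j (d n) s‖ ≤ v n := by
    intro j hj n s
    by_cases hn : n < N
    · rw [hd0 n hn]
      simp only [hv, if_pos hn]
      have : iteratedFDeriv ℝ j (0 : ℝ → ℝ) s = 0 := by
        have := iteratedFDeriv_fun_zero (𝕜 := ℝ) (E := ℝ) (F := ℝ) (n := j)
        exact congrFun this s
      rw [this, norm_zero]
    · simp only [hv, if_neg hn]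
      push Not at hn
      have hj2 : ((j : ℕ) : WithTop ℕ∞) ≤ ∞ := by exact_mod_cast le_top
      have e1 : d n = termL x n + (-termL y n) := by simp [hd, sub_eq_add_neg]
      have hneg : ContDiff ℝ ∞ (-termL y n) := (contDiff_termL y n).neg
      rw [e1, iteratedFDeriv_add_apply ((contDiff_termL x n).contDiffAt.of_le hj2)
        (hneg.contDiffAt.of_le hj2), iteratedFDeriv_neg_apply]
      refine (norm_add_le _ _).trans ?_
      rw [norm_neg]
      have a1 := norm_iter_termL x (hj.trans hn) s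
      have a2 := norm_iter_termL y (hj.trans hn) s
      have a3 : (1 / 2 : ℝ) ^ N * (1 / 2) ^ (n - N) = (1 / 2) ^ n := by
        rw [← pow_add]; congr 1; omega
      rw [mul_assoc, a3]; linarith
  have hshift : (fun i => v (i + N)) = fun i => 4 * (1 / 2 : ℝ) ^ N * (1 / 2) ^ i := by
    ext i; simp [hv]
  have hsum2 : Summable (fun i => v (i + N)) := by
    rw [hshift]
    exact (summable_geometric_of_lt_one (by norm_num) (by norm_num)).mul_left _
  have hsum : Summable v := (summable_nat_add_iff N).1 hsum2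
  have htot : ∑' n, v n = 8 * (1 / 2) ^ N := by
    rw [← hsum.sum_add_tsum_nat_add N, hshift, tsum_mul_left,
      tsum_geometric_of_lt_one (by norm_num) (by norm_num)]
    have : ∑ i ∈ Finset.range N, v i = 0 := by
      refine Finset.sum_eq_zero fun i hi => ?_
      simp only [hv, if_pos (Finset.mem_range.1 hi)]
    rw [this]; ring
  rw [h1, iteratedFDeriv_tsum_apply (N := (k : ℕ∞)) (v := fun _ => v)
    (fun n => (hdc n).of_le (by exact_mod_cast le_top)) (fun _ _ => hsum)
    (fun j n s hj => hdv j ((by exact_mod_cast hj : j ≤ k).trans hk) n s) le_rfl]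
  rw [← htot]
  exact tsum_of_norm_bounded hsum.hasSum (fun n => hdv k hk n s)

lemma eventually_agree (x0 : ℕ → Bool) (N : ℕ) : ∀ᶠ x in 𝓝 x0, ∀ n < N, x0 n = x n := by
  have h : ∀ n : ℕ, ∀ᶠ x : ℕ → Bool in 𝓝 x0, x0 n = x n := by
    intro n
    have : (fun x : ℕ → Bool => x n) ⁻¹' {x0 n} ∈ 𝓝 x0 :=
      (continuous_apply n).continuousAt.preimage_mem_nhds (by simp)
    filter_upwards [this] with x hx
    exact hx.symm
  have h2 := (Finset.range N).eventually_all.2 (fun n _ => h n)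
  filter_upwards [h2] with x hx n hn
  exact hx n (Finset.mem_range.2 hn)

lemma exists_pow_small {ε : ℝ} (hε : 0 < ε) : ∃ N : ℕ, 8 * (1 / 2 : ℝ) ^ N < ε := by
  obtain ⟨N, hN⟩ := exists_pow_lt_of_lt_one (show (0 : ℝ) < ε / 8 by positivity)
    (show (1 / 2 : ℝ) < 1 by norm_num)
  exact ⟨N, by linarith⟩

lemma phi_close {x y : ℕ → Bool} {N : ℕ} (h : ∀ n < N, x n = y n) (p : T1) :
    |phi x p - phi y p| ≤ 8 * (1 / 2) ^ N := by
  induction p using QuotientAddGroup.induction_on with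
  | H s =>
    have h1 := norm_iter_phil_sub (Nat.zero_le N) h s
    rw [norm_iteratedFDeriv_zero, Pi.sub_apply, Real.norm_eq_abs, ← phi_coe, ← phi_coe] at h1
    exact h1

lemma norm_coe_le (a : ℝ) : ‖(a : T1)‖ ≤ |a| := by
  rw [AddCircle.norm_eq]
  simp only [inv_one, one_mul, mul_one]
  by_cases h : |a| ≤ 1 / 2
  · rcases eq_or_lt_of_le (abs_le.1 h).2 with h2 | h2
    · exact (abs_sub_round a).trans (by rw [h2]; norm_num)
    · have : round a = 0 := by
        rw [round_eq_zero_iff]; exact ⟨(abs_le.1 h).1, h2⟩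
      rw [this]; simp
  · push Not at h
    exact (abs_sub_round a).trans h.le

/-- the map `x ↦ Phi x` is continuous for the `C^∞` topology -/
theorem continuous_Phi : Continuous Phi := by
  refine continuous_induced_rng.2 (Continuous.prodMk ?_ ?_)
  · rw [continuous_iff_continuousAt]
    intro x0
    refine UniformFun.tendsto_iff_tendstoUniformly.2 ?_
    rw [Metric.tendstoUniformly_iff]
    intro ε hε
    obtain ⟨N, hN⟩ := exists_pow_small hε
    filter_upwards [eventually_agree x0 N] with x hx z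
    have h1 := phi_close hx z.1
    change dist (fx x0 z) (fx x z) < ε
    unfold fx
    rw [Prod.dist_eq]
    simp only [dist_self]
    rw [dist_add_left, dist_eq_norm, ← AddCircle.coe_sub]
    have h2 := norm_coe_le (phi x0 z.1 - phi x z.1)
    exact max_lt hε (by linarith)
  · refine continuous_pi fun k => ?_
    rw [continuous_iff_continuousAt]
    intro x0
    refine UniformFun.tendsto_iff_tendstoUniformly.2 ?_
    rw [Metric.tendstoUniformly_iff]
    intro ε hε
    obtain ⟨N0, hN0⟩ := exists_pow_small hε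
    set N := max N0 (k + 1) with hNdef
    filter_upwards [eventually_agree x0 N] with x hx z
    change dist ((Phi x0).jet (k + 1) z) ((Phi x).jet (k + 1) z) < ε
    have hj : (((k + 1 : ℕ)) : WithTop ℕ∞) ≤ ∞ := by exact_mod_cast le_top
    rw [jet_eq, jet_eq, Fx_eq, Fx_eq,
      iteratedFDeriv_add_apply (contDiff_base.contDiffAt.of_le hj)
        ((contDiff_vert (contDiff_phil x0)).contDiffAt.of_le hj),
      iteratedFDeriv_add_apply (contDiff_base.contDiffAt.of_le hj)
        ((contDiff_vert (contDiff_phil x)).contDiffAt.of_le hj),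
      dist_add_left, dist_eq_norm]
    have e1 : iteratedFDeriv ℝ (k + 1) (vert (phil x0)) z - iteratedFDeriv ℝ (k + 1) (vert (phil x)) z
        = iteratedFDeriv ℝ (k + 1) (vert (phil x0 - phil x)) z := by
      have e2 : vert (phil x0 - phil x) = vert (phil x0) + (-vert (phil x)) := by
        ext w <;> simp [vert, sub_eq_add_neg]
      have hneg : ContDiff ℝ ∞ (-vert (phil x)) := (contDiff_vert (contDiff_phil x)).neg
      rw [e2, iteratedFDeriv_add_apply ((contDiff_vert (contDiff_phil x0)).contDiffAt.of_le hj)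
        (hneg.contDiffAt.of_le hj), iteratedFDeriv_neg_apply,
        sub_eq_add_neg]
    rw [e1]
    refine (norm_iter_vert ((contDiff_phil x0).sub (contDiff_phil x)) (k + 1) z).trans_lt ?_
    refine (norm_iter_phil_sub (N := N) (le_max_right _ _) hx z.1).trans_lt ?_
    have h3 : (1 / 2 : ℝ) ^ N ≤ (1 / 2) ^ N0 :=
      pow_le_pow_of_le_one (by norm_num) (by norm_num) (le_max_left _ _)
    linarith

end Pool.MP_e91f84_lc
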